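import Pool.Agent.U143.RG.Long

/-!
# Functions with nonnegative multiplicities on solvable subgroups: translations of blocks
-/

set_option autoImplicit false
set_option linter.unusedSectionVars false

namespace Pool.Agent.U143.RG

open Equiv Equiv.Perm Pool.Agent.H302R2 Pool.Agent.H302R3 Pool.Agent.U93

section main

variable {α : Type*} [Fintype α] [DecidableEq α] {θ : alternatingGroup α → ℂ}
variable {F : Type} [Field F] [Fintype F] [DecidableEq F] {m : ℕ}

lemma blockHom_mono (hθ : IsSolHeilbronn θ) (hF : 4 ≤ Fintype.card F) (hFe : Even (Fintype.card F))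
    (f : Fin m × F ↪ α) (u : Fin m → Fˣ) (σ : Perm (Fin m)) (a : Fin m → F) :
    θ (blockHom hF f (Multiplicative.ofAdd (fun i => ((u i)⁻¹ : Fˣ) * a (σ i))))
      = θ (blockHom hF f (Multiplicative.ofAdd a)) := by
  have h1 : viaEmbeddingHom f (mono u σ) ∈ alternatingGroup α := by
    rw [mem_alternatingGroup, viaEmb_sign, sign_mono hFe]
  have h2 := hθ.conj (blockHom hF f (Multiplicative.ofAdd (fun i => ((u i)⁻¹ : Fˣ) * a (σ i))))
    ⟨_, h1⟩
  rw [← h2]
  congr 1
  apply Subtype.ext
  change viaEmbeddingHom f (mono u σ) * viaEmbeddingHom f (trans m F _) *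
    (viaEmbeddingHom f (mono u σ))⁻¹ = viaEmbeddingHom f (trans m F _)
  rw [← map_inv, ← map_mul, ← map_mul, mono_conj]

/-- The degree bound forces all the block translations into the kernel. -/
theorem block_kernel (hθ : IsSolHeilbronn θ) (hF : 4 ≤ Fintype.card F)
    (hFe : Even (Fintype.card F)) (f : Fin m × F ↪ α) {r : ℕ} (hr : θ 1 = r)
    (hlt : r < (Fintype.card F - 1) * m) (a : Fin m → F) :
    θ (blockHom hF f (Multiplicative.ofAdd a)) = θ 1 := by
  classical
  set t : (Fin m → F) → ℂ := fun a => θ (blockHom hF f (Multiplicative.ofAdd a)) with ht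
  -- additive character
  set e : AddChar F ℂ := AddChar.FiniteField.primitiveChar_to_Complex F with he
  have heprim : e.IsPrimitive := AddChar.FiniteField.primitiveChar_to_Complex_isPrimitive F
  let χ : (Fin m → F) → Multiplicative (Fin m → F) →* ℂˣ := fun y =>
    MonoidHom.toHomUnits
      { toFun := fun a => e (∑ i, y i * Multiplicative.toAdd a i)
        map_one' := by simp
        map_mul' := fun a b => by
          rw [← AddChar.map_add_eq_mul, ← Finset.sum_add_distrib]
          congr 1
          refine Finset.sum_congr rfl fun i _ => ?_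
          rw [toAdd_mul, Pi.add_apply, mul_add] }
  have hχ : ∀ y a, ((χ y (Multiplicative.ofAdd a) : ℂˣ) : ℂ) = e (∑ i, y i * a i) :=
    fun y a => rfl
  have hm := fun y => hθ.mult_hom (sol_of_comm mul_comm) (blockHom hF f) (χ y)
  choose n hn using hm
  have hcardV : (Nat.card (Multiplicative (Fin m → F)) : ℂ) = (Fintype.card F : ℂ) ^ m := by
    rw [Nat.card_eq_fintype_card, Fintype.card_multiplicative, Fintype.card_fun, Fintype.card_fin]
    push_cast; rfl
  have hn' : ∀ y, ∑ a : Fin m → F, t a * e (-∑ i, y i * a i) = n y * (Fintype.card F : ℂ) ^ m := by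
    intro y
    rw [← hcardV, ← hn y, ← Multiplicative.ofAdd.sum_comp]
    refine Finset.sum_congr rfl fun a _ => ?_
    rw [Units.val_inv_eq_inv_val, hχ, AddChar.map_neg_eq_inv]
  have hq : ((Fintype.card F : ℂ) ^ m) ≠ 0 := pow_ne_zero _ (by
    exact_mod_cast Fintype.card_ne_zero)
  -- invariance of n
  have hinv : ∀ y z : Fin m → F, wt y = wt z → n y = n z := by
    intro y z hyz
    obtain ⟨u, σ, huσ⟩ := exists_monomial hyz
    have h1 : ∑ a : Fin m → F, t a * e (-∑ i, y i * a i)
        = ∑ a : Fin m → F, t a * e (-∑ i, z i * a i) := by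
      -- substitution a ↦ (i ↦ (u i)⁻¹ * a (σ i)) in the second sum
      let T : (Fin m → F) ≃ (Fin m → F) :=
        { toFun := fun a i => ((u i)⁻¹ : Fˣ) * a (σ i)
          invFun := fun a i => (u (σ⁻¹ i) : F) * a (σ⁻¹ i)
          left_inv := fun a => by
            ext i
            simp only [perm_mul_inv_apply, Units.mul_inv_cancel_left]
          right_inv := fun a => by
            ext i
            simp only [perm_inv_mul_apply, Units.inv_mul_cancel_left] }
      rw [← T.sum_comp (fun a => t a * e (-∑ i, z i * a i))]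
      refine Finset.sum_congr rfl fun a _ => ?_
      have h2 : t (T a) = t a := blockHom_mono hθ hF hFe f u σ a
      have h3 : ∑ i, z i * (T a) i = ∑ i, y i * a i := by
        rw [← Equiv.sum_comp σ (fun i => y i * a i)]
        refine Finset.sum_congr rfl fun i _ => ?_
        change z i * (((u i)⁻¹ : Fˣ) * a (σ i)) = _
        rw [huσ i]
        have : (u i : F) * (((u i)⁻¹ : Fˣ) : F) = 1 := Units.mul_inv _
        calc (u i : F) * y (σ i) * ((((u i)⁻¹ : Fˣ) : F) * a (σ i))
            = ((u i : F) * (((u i)⁻¹ : Fˣ) : F)) * (y (σ i) * a (σ i)) := by ring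
          _ = y (σ i) * a (σ i) := by rw [this, one_mul]
      rw [h2, h3]
    rw [hn', hn'] at h1
    exact_mod_cast mul_right_cancel₀ hq h1
  -- total multiplicity
  have htot : ∑ y, n y = r := by
    have h1 : ∑ y : Fin m → F, ∑ a : Fin m → F, t a * e (-∑ i, y i * a i)
        = (∑ y, (n y : ℂ)) * (Fintype.card F : ℂ) ^ m := by
      rw [Finset.sum_congr rfl (fun y _ => hn' y), Finset.sum_mul]
    rw [Finset.sum_comm] at h1
    have h2 : ∀ a : Fin m → F, ∑ y : Fin m → F, t a * e (-∑ i, y i * a i)
        = if a = 0 then t 0 * (Fintype.card F : ℂ) ^ m else 0 := by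
      intro a
      rw [← Finset.mul_sum]
      have h3 : ∀ y : Fin m → F, e (-∑ i, y i * a i) = ∏ i, e (y i * (-a i)) := by
        intro y
        rw [← Finset.sum_neg_distrib]
        rw [addChar_sum]
        refine Finset.prod_congr rfl fun i _ => by rw [mul_neg]
      rw [Finset.sum_congr rfl (fun y _ => h3 y)]
      have h4 := Finset.prod_univ_sum (fun _ : Fin m => (Finset.univ : Finset F))
        (fun i x => e (x * (-a i)))
      rw [Fintype.piFinset_univ] at h4
      rw [← h4]
      by_cases ha : a = 0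
      · subst ha
        simp
      · rw [if_neg ha]
        obtain ⟨i, hi⟩ := Function.ne_iff.mp ha
        have h5 : ∑ x : F, e (x * (-a i)) = 0 := by
          rw [AddChar.sum_mulShift _ heprim, if_neg (by simpa using hi)]
          simp
        rw [Finset.prod_eq_zero (Finset.mem_univ i) h5, mul_zero]
    rw [Finset.sum_congr rfl (fun a _ => h2 a)] at h1
    simp only [Finset.sum_ite_eq', Finset.mem_univ, if_true] at h1
    have h6 := mul_right_cancel₀ hq h1
    have h7 : t 0 = r := by
      rw [← hr, ht]
      simp only [ofAdd_zero, map_one]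
    rw [h7] at h6
    exact_mod_cast h6.symm
  -- all nontrivial multiplicities vanish
  have hzero : ∀ y : Fin m → F, y ≠ 0 → n y = 0 := by
    intro y hy
    by_contra hcon
    have hwt1 : 1 ≤ wt y := by
      obtain ⟨i, hi⟩ := Function.ne_iff.mp hy
      rw [wt, Nat.one_le_iff_ne_zero, Finset.card_ne_zero]
      exact ⟨i, by simpa using hi⟩
    have hwtm : wt y ≤ m := by
      rw [wt]
      exact (Finset.card_filter_le _ _).trans (by simp)
    have h1 := card_wt_ge (F := F) (by omega) hwt1 hwtm
    have h2 : (Finset.univ.filter fun z : Fin m → F => wt z = wt y).card ≤ ∑ z, n z := by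
      calc (Finset.univ.filter fun z : Fin m → F => wt z = wt y).card
          = ∑ z ∈ Finset.univ.filter (fun z : Fin m → F => wt z = wt y), 1 := by simp
        _ ≤ ∑ z ∈ Finset.univ.filter (fun z : Fin m → F => wt z = wt y), n z := by
            refine Finset.sum_le_sum fun z hz => ?_
            have := hinv y z (Finset.mem_filter.mp hz).2.symm
            omega
        _ ≤ ∑ z, n z := Finset.sum_le_sum_of_subset (Finset.filter_subset _ _)
    rw [htot] at h2
    omega
  -- conclusion
  have hn0 : (n 0 : ℂ) = r := by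
    have : ∑ y, n y = n 0 := Finset.sum_eq_single 0 (fun y _ hy => hzero y hy) (by simp)
    rw [htot] at this
    exact_mod_cast this.symm
  have hsum := hn' 0
  simp only [Pi.zero_apply, zero_mul, Finset.sum_const_zero, neg_zero, AddChar.map_zero_eq_one,
    mul_one] at hsum
  rw [hn0] at hsum
  have hnn : ∀ b ∈ (Finset.univ : Finset (Fin m → F)), (0 : ℝ) ≤ r - (t b).re := by
    intro b _
    have := (Complex.re_le_norm _).trans (hθ.norm_le (blockHom hF f (Multiplicative.ofAdd b)))
    rw [hr, Complex.natCast_re] at this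
    simp only [ht]; linarith
  have hsum0 : ∑ b : Fin m → F, ((r : ℝ) - (t b).re) = 0 := by
    have h1 := congrArg Complex.re hsum
    rw [Complex.re_sum] at h1
    rw [Finset.sum_sub_distrib, h1, Finset.sum_const, Finset.card_univ, Fintype.card_fun,
      Fintype.card_fin, nsmul_eq_mul]
    have : ((r : ℂ) * (Fintype.card F : ℂ) ^ m).re = r * (Fintype.card F : ℝ) ^ m := by
      have h8 : ((r : ℂ) * (Fintype.card F : ℂ) ^ m) = ((r * (Fintype.card F : ℝ) ^ m : ℝ) : ℂ) := by
        push_cast; rfl
      rw [h8, Complex.ofReal_re]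
    rw [this]
    push_cast; ring
  have h5 := (Finset.sum_eq_zero_iff_of_nonneg hnn).mp hsum0 a (Finset.mem_univ _)
  apply hθ.eq_deg_of_re
  rw [hr, Complex.natCast_re]
  simp only [ht] at h5
  linarith

lemma bh_mono (hθ : IsSolHeilbronn θ) (hF : 3 ≤ Fintype.card F)
    (f : Fin m × F ↪ α) (u : Fin m → Fˣ) (σ : Perm (Fin m)) (hs : Perm.sign (mono u σ) = 1)
    (a : Fin m → F) :
    θ (bh hF f (Multiplicative.ofAdd (fun i => ((u i)⁻¹ : Fˣ) * a (σ i))))
      = θ (bh hF f (Multiplicative.ofAdd a)) := by
  have h1 : viaEmbeddingHom f (mono u σ) ∈ alternatingGroup α := by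
    rw [mem_alternatingGroup, viaEmb_sign, hs]
  have h2 := hθ.conj (bh hF f (Multiplicative.ofAdd (fun i => ((u i)⁻¹ : Fˣ) * a (σ i))))
    ⟨_, h1⟩
  rw [← h2]
  congr 1
  apply Subtype.ext
  change viaEmbeddingHom f (mono u σ) * viaEmbeddingHom f (trans m F _) *
    (viaEmbeddingHom f (mono u σ))⁻¹ = viaEmbeddingHom f (trans m F _)
  rw [← map_inv, ← map_mul, ← map_mul, mono_conj]

/-- The restriction of a Heilbronn function to the translations of the blocks. -/
theorem block_decomp (hθ : IsSolHeilbronn θ) (hF : 3 ≤ Fintype.card F) (hm : 2 ≤ m)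
    (f : Fin m × F ↪ α) {r : ℕ} (hr : θ 1 = r) :
    ∃ n : (Fin m → F) → ℕ, (∀ y z, wt y = wt z → n y = n z) ∧ ∑ y, n y = r ∧
      ∀ a : Fin m → F, θ (bh hF f (Multiplicative.ofAdd a))
        = ∑ y, (n y : ℂ) * AddChar.FiniteField.primitiveChar_to_Complex F (∑ i, y i * a i) := by
  classical
  set t : (Fin m → F) → ℂ := fun a => θ (bh hF f (Multiplicative.ofAdd a)) with ht
  set e : AddChar F ℂ := AddChar.FiniteField.primitiveChar_to_Complex F with he
  have heprim : e.IsPrimitive := AddChar.FiniteField.primitiveChar_to_Complex_isPrimitive F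
  let χ : (Fin m → F) → Multiplicative (Fin m → F) →* ℂˣ := fun y =>
    MonoidHom.toHomUnits
      { toFun := fun a => e (∑ i, y i * Multiplicative.toAdd a i)
        map_one' := by simp
        map_mul' := fun a b => by
          rw [← AddChar.map_add_eq_mul, ← Finset.sum_add_distrib]
          congr 1
          refine Finset.sum_congr rfl fun i _ => ?_
          rw [toAdd_mul, Pi.add_apply, mul_add] }
  have hχ : ∀ y a, ((χ y (Multiplicative.ofAdd a) : ℂˣ) : ℂ) = e (∑ i, y i * a i) :=
    fun y a => rfl
  have hm' := fun y => hθ.mult_hom (sol_of_comm mul_comm) (bh hF f) (χ y)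
  choose n hn using hm'
  have hcardV : (Nat.card (Multiplicative (Fin m → F)) : ℂ) = (Fintype.card F : ℂ) ^ m := by
    rw [Nat.card_eq_fintype_card, Fintype.card_multiplicative, Fintype.card_fun, Fintype.card_fin]
    push_cast; rfl
  have hn' : ∀ y, ∑ a : Fin m → F, t a * e (-∑ i, y i * a i) = n y * (Fintype.card F : ℂ) ^ m := by
    intro y
    rw [← hcardV, ← hn y, ← Multiplicative.ofAdd.sum_comp]
    refine Finset.sum_congr rfl fun a _ => ?_
    rw [Units.val_inv_eq_inv_val, hχ, AddChar.map_neg_eq_inv]
  have hq : ((Fintype.card F : ℂ) ^ m) ≠ 0 := pow_ne_zero _ (by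
    exact_mod_cast Fintype.card_ne_zero)
  -- invariance of n
  have hinv : ∀ y z : Fin m → F, wt y = wt z → n y = n z := by
    intro y z hyz
    obtain ⟨u, σ, huσ, hs⟩ := exists_even_mono hm hF hyz
    have h1 : ∑ a : Fin m → F, t a * e (-∑ i, y i * a i)
        = ∑ a : Fin m → F, t a * e (-∑ i, z i * a i) := by
      let T : (Fin m → F) ≃ (Fin m → F) :=
        { toFun := fun a i => ((u i)⁻¹ : Fˣ) * a (σ i)
          invFun := fun a i => (u (σ⁻¹ i) : F) * a (σ⁻¹ i)
          left_inv := fun a => by
            ext i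
            simp only [perm_mul_inv_apply, Units.mul_inv_cancel_left]
          right_inv := fun a => by
            ext i
            simp only [perm_inv_mul_apply, Units.inv_mul_cancel_left] }
      rw [← T.sum_comp (fun a => t a * e (-∑ i, z i * a i))]
      refine Finset.sum_congr rfl fun a _ => ?_
      have h2 : t (T a) = t a := bh_mono hθ hF f u σ hs a
      have h3 : ∑ i, z i * (T a) i = ∑ i, y i * a i := by
        rw [← Equiv.sum_comp σ (fun i => y i * a i)]
        refine Finset.sum_congr rfl fun i _ => ?_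
        change z i * (((u i)⁻¹ : Fˣ) * a (σ i)) = _
        rw [huσ i]
        have : (u i : F) * (((u i)⁻¹ : Fˣ) : F) = 1 := Units.mul_inv _
        calc (u i : F) * y (σ i) * ((((u i)⁻¹ : Fˣ) : F) * a (σ i))
            = ((u i : F) * (((u i)⁻¹ : Fˣ) : F)) * (y (σ i) * a (σ i)) := by ring
          _ = y (σ i) * a (σ i) := by rw [this, one_mul]
      rw [h2, h3]
    rw [hn', hn'] at h1
    exact_mod_cast mul_right_cancel₀ hq h1
  -- orthogonality
  have horth : ∀ a : Fin m → F, ∑ y : Fin m → F, e (∑ i, y i * a i)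
      = if a = 0 then (Fintype.card F : ℂ) ^ m else 0 := by
    intro a
    have h3 : ∀ y : Fin m → F, e (∑ i, y i * a i) = ∏ i, e (y i * a i) := by
      intro y
      rw [addChar_sum]
    rw [Finset.sum_congr rfl (fun y _ => h3 y)]
    have h4 := Finset.prod_univ_sum (fun _ : Fin m => (Finset.univ : Finset F))
      (fun i x => e (x * a i))
    rw [Fintype.piFinset_univ] at h4
    rw [← h4]
    by_cases ha : a = 0
    · subst ha
      simp
    · rw [if_neg ha]
      obtain ⟨i, hi⟩ := Function.ne_iff.mp ha
      have h5 : ∑ x : F, e (x * a i) = 0 := by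
        rw [AddChar.sum_mulShift _ heprim, if_neg (by simpa using hi)]
        simp
      rw [Finset.prod_eq_zero (Finset.mem_univ i) h5]
  have hdec : ∀ a : Fin m → F, t a = ∑ y, (n y : ℂ) * e (∑ i, y i * a i) := by
    intro a
    apply mul_right_cancel₀ hq
    rw [Finset.sum_mul]
    have h1 : ∀ y : Fin m → F, (n y : ℂ) * e (∑ i, y i * a i) * (Fintype.card F : ℂ) ^ m
        = ∑ b : Fin m → F, t b * e (∑ i, y i * (a - b) i) := by
      intro y
      rw [mul_right_comm, ← hn' y, Finset.sum_mul]
      refine Finset.sum_congr rfl fun b _ => ?_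
      rw [mul_assoc, ← AddChar.map_add_eq_mul]
      congr 2
      rw [neg_add_eq_sub, ← Finset.sum_sub_distrib]
      refine Finset.sum_congr rfl fun i _ => ?_
      rw [Pi.sub_apply, mul_sub]
    rw [Finset.sum_congr rfl (fun y _ => h1 y), Finset.sum_comm]
    have h2 : ∀ b : Fin m → F, ∑ y : Fin m → F, t b * e (∑ i, y i * (a - b) i)
        = if b = a then t a * (Fintype.card F : ℂ) ^ m else 0 := by
      intro b
      rw [← Finset.mul_sum, horth]
      by_cases hb : b = a
      · subst hb; simp
      · rw [if_neg (fun h => hb (sub_eq_zero.mp h).symm), if_neg hb, mul_zero]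
    rw [Finset.sum_congr rfl (fun b _ => h2 b), Finset.sum_ite_eq' Finset.univ a]
    simp
  refine ⟨n, hinv, ?_, hdec⟩
  have h1 := hdec 0
  have h2 : t 0 = r := by
    rw [← hr, ht]
    simp only [ofAdd_zero, map_one]
  rw [h2] at h1
  have h3 : (r : ℂ) = ((∑ y, n y : ℕ) : ℂ) := by
    rw [h1]
    push_cast
    refine Finset.sum_congr rfl fun y _ => ?_
    simp
  exact_mod_cast h3.symm

/-- **Dichotomy.** -/
theorem block_dich (hθ : IsSolHeilbronn θ) (hF : 3 ≤ Fintype.card F) (hm : 2 ≤ m)
    (f : Fin m × F ↪ α) {r : ℕ} (hr : θ 1 = r)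
    (h1 : r < 2 * ((Fintype.card F - 1) * m)) (h2 : r < (Fintype.card F - 1) ^ 2 * (m - 1)) :
    (∀ a, θ (bh hF f (Multiplicative.ofAdd a)) = θ 1) ∨
    ∀ a, θ (bh hF f (Multiplicative.ofAdd a)) = r - (Fintype.card F : ℂ) * wt a := by
  classical
  obtain ⟨n, hinv, hsum, hdec⟩ := block_decomp hθ hF hm f hr
  have hbig : ∀ y : Fin m → F, 2 ≤ wt y → n y = 0 := by
    intro y hy
    by_contra hcon
    have hwtm : wt y ≤ m := by
      rw [wt]
      exact (Finset.card_filter_le _ _).trans (by simp)
    have h3 := card_wt_ge_two (F := F) hF hy hwtm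
    have h4 : (Finset.univ.filter fun z : Fin m → F => wt z = wt y).card ≤ ∑ z, n z := by
      calc (Finset.univ.filter fun z : Fin m → F => wt z = wt y).card
          = ∑ z ∈ Finset.univ.filter (fun z : Fin m → F => wt z = wt y), 1 := by simp
        _ ≤ ∑ z ∈ Finset.univ.filter (fun z : Fin m → F => wt z = wt y), n z := by
            refine Finset.sum_le_sum fun z hz => ?_
            have := hinv y z (Finset.mem_filter.mp hz).2.symm
            omega
        _ ≤ ∑ z, n z := Finset.sum_le_sum_of_subset (Finset.filter_subset _ _)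
    omega
  have hm0 : 0 < m := by omega
  let y1 : Fin m → F := Pi.single ⟨0, hm0⟩ 1
  have hy1 : wt y1 = 1 := by
    rw [wt, Finset.card_eq_one]
    refine ⟨⟨0, hm0⟩, ?_⟩
    ext j
    simp only [Finset.mem_filter, Finset.mem_univ, true_and, Finset.mem_singleton, y1]
    constructor
    · intro h
      by_contra hj
      exact h (Pi.single_eq_of_ne hj _)
    · rintro rfl
      rw [Pi.single_eq_same]; exact one_ne_zero
  have hcard1 : (Finset.univ.filter fun z : Fin m → F => wt z = 1).card
      = (Fintype.card F - 1) * m := by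
    rw [card_wt_eq, Nat.choose_one_right, pow_one, mul_comm]
  have hn1 : n y1 * ((Fintype.card F - 1) * m) ≤ r := by
    rw [← hcard1, ← hsum]
    calc n y1 * (Finset.univ.filter fun z : Fin m → F => wt z = 1).card
        = ∑ z ∈ Finset.univ.filter (fun z : Fin m → F => wt z = 1), n y1 := by
          rw [Finset.sum_const, smul_eq_mul, mul_comm]
      _ = ∑ z ∈ Finset.univ.filter (fun z : Fin m → F => wt z = 1), n z := by
          refine Finset.sum_congr rfl fun z hz => ?_
          exact hinv _ _ (hy1.trans (Finset.mem_filter.mp hz).2.symm)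
      _ ≤ ∑ z, n z := Finset.sum_le_sum_of_subset (Finset.filter_subset _ _)
  have hn1' : n y1 ≤ 1 := by
    by_contra hcon
    push Not at hcon
    have : 2 * ((Fintype.card F - 1) * m) ≤ n y1 * ((Fintype.card F - 1) * m) :=
      Nat.mul_le_mul_right _ hcon
    omega
  -- the general form
  have hwt0 : ∀ w : Fin m → F, wt w = 0 ↔ w = 0 := by
    intro w
    rw [wt, Finset.card_eq_zero, Finset.filter_eq_empty_iff]
    constructor
    · intro h; ext i; simpa using h (Finset.mem_univ i)
    · rintro rfl; simp
  have hsplit : ∀ g : (Fin m → F) → ℂ, ∑ y, (n y : ℂ) * g y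
      = n 0 * g 0 + n y1 * ∑ y ∈ Finset.univ.filter (fun y : Fin m → F => wt y = 1), g y := by
    intro g
    have h3 : ∀ y : Fin m → F, (n y : ℂ) * g y = (if y = 0 then n 0 * g 0 else 0)
        + (if wt y = 1 then n y1 * g y else 0) := by
      intro y
      rcases Nat.lt_trichotomy (wt y) 1 with h | h | h
      · have h0 : y = 0 := (hwt0 y).mp (by omega)
        subst h0
        rw [if_pos rfl, if_neg (by omega), add_zero]
      · rw [if_pos h, if_neg (fun h0 => by rw [(hwt0 y).mpr h0] at h; omega), zero_add,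
          hinv y y1 (h.trans hy1.symm)]
      · rw [if_neg (fun h0 => by rw [(hwt0 y).mpr h0] at h; omega), if_neg (fun h0 => by omega),
          hbig y h, Nat.cast_zero, zero_mul, add_zero]
    rw [Finset.sum_congr rfl (fun y _ => h3 y), Finset.sum_add_distrib, Finset.sum_ite_eq',
      if_pos (Finset.mem_univ _), ← Finset.sum_filter, Finset.mul_sum]
  have hval : ∀ a, θ (bh hF f (Multiplicative.ofAdd a))
      = n 0 + n y1 * ((Fintype.card F : ℂ) * (m - wt a : ℂ) - m) := by
    intro a
    rw [hdec, hsplit, sum_wt_one]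
    simp
  have h0 : wt (0 : Fin m → F) = 0 := (hwt0 0).mpr rfl
  have hone : (r : ℂ) = n 0 + n y1 * ((Fintype.card F : ℂ) * m - m) := by
    have h3 := hval 0
    rw [ofAdd_zero, map_one, hr, h0, Nat.cast_zero, sub_zero] at h3
    exact h3
  rcases Nat.eq_zero_or_pos (n y1) with h3 | h3
  · left
    intro a
    rw [hval, hr, hone, h3]
    simp
  · right
    have h4 : n y1 = 1 := by omega
    intro a
    rw [hval, hone, h4]
    push_cast
    ring

end main

theorem alt_core {n k : ℕ} (hn : 5 ≤ n) (hk : 2 ≤ k) {θ : alternatingGroup (Fin n) → ℂ}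
    (hθ : IsSolHeilbronn θ) {r : ℕ} (hr : θ 1 = r) (hlt : r < (2 ^ k - 1) * (n / 2 ^ k))
    (g : alternatingGroup (Fin n)) : θ g = θ 1 := by
  classical
  set m := n / 2 ^ k with hm
  have hmpos : 0 < m := by
    rcases Nat.eq_zero_or_pos m with h | h
    · rw [h, mul_zero] at hlt; omega
    · exact h
  have : NeZero m := ⟨hmpos.ne'⟩
  have : Fact (Nat.Prime 2) := ⟨Nat.prime_two⟩
  let F := GaloisField 2 k
  have : Fintype F := Fintype.ofFinite F
  have hcardF : Fintype.card F = 2 ^ k := by
    rw [← Nat.card_eq_fintype_card]; exact GaloisField.card 2 k (by omega)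
  have h4 : 4 ≤ Fintype.card F := by
    rw [hcardF]
    calc 4 = 2 ^ 2 := by norm_num
      _ ≤ 2 ^ k := Nat.pow_le_pow_right (by norm_num) hk
  have heven : Even (Fintype.card F) := by
    rw [hcardF]; exact (Nat.even_pow.mpr ⟨even_two, by omega⟩)
  have hemb : Nonempty (Fin m × F ↪ Fin n) := by
    apply Function.Embedding.nonempty_of_card_le
    rw [Fintype.card_prod, Fintype.card_fin, Fintype.card_fin, hcardF, hm]
    exact Nat.div_mul_le_self n (2 ^ k)
  obtain ⟨f⟩ := hemb
  have hblock := block_kernel (F := F) (m := m) hθ h4 heven f hr (by rw [hcardF]; exact hlt)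
  -- the involution
  let a : Fin m → F := Pi.single 0 1
  set x : Perm (Fin n) := viaEmbeddingHom f (trans m F (Multiplicative.ofAdd a)) with hx
  have hxK : InK θ x := ⟨(blockHom h4 f (Multiplicative.ofAdd a)).2, hblock a⟩
  have hx2 : x * x = 1 := by
    rw [hx, ← map_mul, ← map_mul, ← ofAdd_add]
    have : a + a = 0 := by
      ext i
      simp only [Pi.add_apply, Pi.zero_apply]
      exact CharTwo.add_self_eq_zero _
    rw [this, ofAdd_zero, map_one, map_one]
  have hx1 : x ≠ 1 := by
    intro h
    have h1 : trans m F (Multiplicative.ofAdd a) = 1 := by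
      apply viaEmbeddingHom_injective f
      rw [map_one]; exact h
    have h2 := congrArg (fun π : Perm (Fin m × F) => π (0, 0)) h1
    simp [Pool.Agent.H302R2.trans, a] at h2
  have hD : HasDoubleSwaps θ := by
    intro a b c d hab hac had hbc hbd hcd
    exact hxK.double_swap hθ hx2 hx1 hab hac had hbc hbd hcd
  obtain ⟨h1, h2⟩ := InK.all hθ hD (by rw [Fintype.card_fin]; exact hn)
    (g := (g : Perm (Fin n))) (mem_alternatingGroup.mp g.2)
  exact h2

end Pool.Agent.U143.RG
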