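import Pool.Agent.U143.RG.SymA

/-!
# Functions with nonnegative multiplicities on solvable subgroups: long cycles of odd length

`tw`: the group of the permutations of `Ω × A`, `Ω = ZMod a` and `A` commutative, which commute with the
translations of `A` and induce maps `i ↦ ± i + c` on `Ω`; it is solvable.
-/

set_option autoImplicit false
set_option linter.unusedSectionVars false

namespace Pool.Agent.U143.RG

open Equiv Equiv.Perm Pool.Agent.H302R3
open Pool.Agent.H302R2 (viaEmb_apply viaEmb_notMem viaEmb_sign perm_mul_inv_apply perm_inv_mul_apply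
  affineEven odd_card_of_cycle exists_param signToC signToC_ne_one_iff)
open Pool.Agent.H302R4 (sol_of_commutators)
open Pool.Agent.U93 (tr tr_apply sh sh_apply mix mix_bij mix_succ)

section sol

lemma affine_sol (p : ℕ) [NeZero p] : Group.IsSolvable (affineEven p) := by
  refine sol_of_commutators (((MonoidHom.snd _ _).comp (affineEven p).subtype).ker) ?_ ?_
  · intro a b
    rw [MonoidHom.mem_ker, map_mul, map_mul, map_mul, map_inv, map_inv,
      mul_comm (((MonoidHom.snd _ _).comp (affineEven p).subtype) a), mul_inv_cancel_right,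
      mul_inv_cancel]
  · intro a ha b hb
    have key : ∀ e : affineEven p, e ∈ ((MonoidHom.snd _ _).comp (affineEven p).subtype).ker →
        e.1.2 = 1 ∧ ∀ x, e.1.1 x = x + e.1.1 0 := by
      rintro ⟨⟨π, u⟩, h1, h2⟩ he
      have hu : u = 1 := he
      subst hu
      refine ⟨rfl, fun x => ?_⟩
      have h3 := h1 x 0
      simp only [Units.val_one, one_mul, sub_zero] at h3
      change π x = x + π 0
      linear_combination h3
    obtain ⟨ha1, ha2⟩ := key a ha
    obtain ⟨hb1, hb2⟩ := key b hb
    apply Subtype.ext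
    apply Prod.ext
    · ext x
      change a.1.1 (b.1.1 x) = b.1.1 (a.1.1 x)
      rw [ha2 (b.1.1 x), hb2 x, hb2 (a.1.1 x), ha2 x]
      ring
    · change a.1.2 * b.1.2 = b.1.2 * a.1.2
      rw [ha1, hb1]

variable {a : ℕ} [NeZero a] {A : Type} [AddCommGroup A] [Fintype A] [DecidableEq A]

/-- even permutations of `ZMod a × A` which commute with the translations of `A` and induce
`i ↦ ε i + c` on `ZMod a` -/
def tw (a : ℕ) [NeZero a] (A : Type) [AddCommGroup A] [Fintype A] [DecidableEq A] :
    Subgroup (Perm (ZMod a × A) × ℤˣ) where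
  carrier := {e | (∀ i x t, e.1 (i, x + t) = ((e.1 (i, x)).1, (e.1 (i, x)).2 + t)) ∧
    (∀ i j x y, (e.1 (i, x)).1 - (e.1 (j, y)).1 = ((e.2 : ℤ) : ZMod a) * (i - j)) ∧
    Perm.sign e.1 = 1}
  mul_mem' := by
    rintro ⟨π, u⟩ ⟨ρ, v⟩ ⟨h1, h2, h3⟩ ⟨h4, h5, h6⟩
    simp only at h1 h2 h3 h4 h5 h6
    refine ⟨fun i x t => ?_, fun i j x y => ?_, ?_⟩
    · simp only [Prod.fst_mul, Perm.mul_apply]
      rw [h4]
      exact h1 _ _ _
    · simp only [Prod.fst_mul, Prod.snd_mul, Perm.mul_apply]
      have e1 := h2 (ρ (i, x)).1 (ρ (j, y)).1 (ρ (i, x)).2 (ρ (j, y)).2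
      rw [Prod.mk.eta, Prod.mk.eta] at e1
      rw [e1, h5]
      push_cast
      ring
    · simp only [Prod.fst_mul, Perm.sign_mul]
      rw [h3, h6, one_mul]
  one_mem' := ⟨fun i x t => rfl, fun i j x y => by simp, by simp⟩
  inv_mem' := by
    rintro ⟨π, u⟩ ⟨h1, h2, h3⟩
    simp only at h1 h2 h3
    refine ⟨fun i x t => ?_, fun i j x y => ?_, ?_⟩
    · simp only [Prod.fst_inv]
      rw [Perm.inv_eq_iff_eq, h1, Prod.mk.eta, perm_mul_inv_apply]
    · simp only [Prod.fst_inv, Prod.snd_inv]
      have e1 := h2 (π⁻¹ (i, x)).1 (π⁻¹ (j, y)).1 (π⁻¹ (i, x)).2 (π⁻¹ (j, y)).2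
      rw [Prod.mk.eta, Prod.mk.eta, perm_mul_inv_apply, perm_mul_inv_apply] at e1
      simp only at e1
      rw [e1]
      rcases Int.units_eq_one_or u with h | h
      · subst h; simp
      · subst h; simp
    · simp only [Prod.fst_inv, Perm.sign_inv]
      exact h3

lemma tw_sol : Group.IsSolvable (tw a A) := by
  set f : tw a A →* ℤˣ := (MonoidHom.snd _ _).comp (tw a A).subtype with hf
  have hker : ∀ e : f.ker, e.1.1.2 = 1 := fun e => e.2
  have hsolK : Group.IsSolvable f.ker := by
    -- the elements which fix the first coordinate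
    let N : Subgroup f.ker :=
      { carrier := {e | ∀ i x, (e.1.1.1 (i, x)).1 = i}
        one_mem' := fun i x => rfl
        mul_mem' := by
          intro e e' he he' i x
          change (e.1.1.1 (e'.1.1.1 (i, x))).1 = i
          have h1 := he (e'.1.1.1 (i, x)).1 (e'.1.1.1 (i, x)).2
          rw [Prod.mk.eta] at h1
          rw [h1]
          exact he' i x
        inv_mem' := by
          intro e he i x
          change ((e.1.1.1)⁻¹ (i, x)).1 = i
          have h1 := he ((e.1.1.1)⁻¹ (i, x)).1 ((e.1.1.1)⁻¹ (i, x)).2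
          rw [Prod.mk.eta, perm_mul_inv_apply] at h1
          exact h1.symm }
    have hsh : ∀ (e : f.ker) (i : ZMod a) (x : A), (e.1.1.1 (i, x)).1 = i + (e.1.1.1 (0, 0)).1 := by
      intro e i x
      have h1 := e.1.2.2.1 i 0 x 0
      rw [hker e] at h1
      simp only [Units.val_one, Int.cast_one, one_mul, sub_zero] at h1
      linear_combination h1
    refine sol_of_commutators N ?_ ?_
    · intro e e' i x
      change (e.1.1.1 (e'.1.1.1 ((e.1.1.1)⁻¹ ((e'.1.1.1)⁻¹ (i, x))))).1 = i
      have hinv : ∀ (d : f.ker) (p : ZMod a × A), ((d.1.1.1)⁻¹ p).1 = p.1 - (d.1.1.1 (0, 0)).1 := by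
        intro d p
        have h1 := hsh d ((d.1.1.1)⁻¹ p).1 ((d.1.1.1)⁻¹ p).2
        rw [Prod.mk.eta, perm_mul_inv_apply] at h1
        rw [h1]; ring
      have hsh' : ∀ (d : f.ker) (p : ZMod a × A), (d.1.1.1 p).1 = p.1 + (d.1.1.1 (0, 0)).1 := by
        intro d p
        have := hsh d p.1 p.2
        rwa [Prod.mk.eta] at this
      rw [hsh' e, hsh' e', hinv e, hinv e']
      ring
    · intro e he e' he'
      have hv : ∀ (d : f.ker), d ∈ N → ∀ p : ZMod a × A,
          d.1.1.1 p = (p.1, (d.1.1.1 (p.1, 0)).2 + p.2) := by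
        intro d hd p
        have h1 := d.1.2.1 p.1 0 p.2
        rw [zero_add, Prod.mk.eta] at h1
        rw [h1]
        apply Prod.ext
        · exact hd p.1 0
        · rfl
      apply Subtype.ext
      apply Subtype.ext
      apply Prod.ext
      · ext1 p
        change e.1.1.1 (e'.1.1.1 p) = e'.1.1.1 (e.1.1.1 p)
        rw [hv e he (e'.1.1.1 p), hv e' he' (e.1.1.1 p), hv e he p, hv e' he' p]
        simp only
        congr 1
        abel
      · change e.1.1.2 * e'.1.1.2 = e'.1.1.2 * e.1.1.2
        exact mul_comm _ _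
  have : Group.IsSolvable ℤˣ := sol_of_comm mul_comm
  exact Group.isSolvable_of_ker_le_range f.ker.subtype f (by rw [Subgroup.range_subtype])

/-- the sign of `x ↦ - x` on `ZMod m`, `m = 1` modulo `4` -/
lemma sign_neg_zmod {m : ℕ} [NeZero m] (hm : m % 4 = 1) : Perm.sign (Equiv.neg (ZMod m)) = 1 := by
  classical
  have h2 : (Equiv.neg (ZMod m)) ^ 2 = 1 := by
    ext x
    rw [pow_two, Perm.mul_apply]
    simp
  have hfix : Fintype.card (Function.fixedPoints (Equiv.neg (ZMod m))) = 1 := by
    rw [Fintype.card_eq_one_iff]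
    refine ⟨⟨0, by simp [Function.mem_fixedPoints, Function.IsFixedPt]⟩, ?_⟩
    rintro ⟨x, hx⟩
    apply Subtype.ext
    have h : -x = x := hx
    have h1 : (2 : ZMod m) * x = 0 := by linear_combination -h
    have hu : IsUnit (2 : ZMod m) := by
      have : ((2 : ℕ) : ZMod m) = (2 : ZMod m) := by norm_cast
      rw [← this, ZMod.isUnit_iff_coprime]
      rw [Nat.coprime_two_left]
      exact ⟨m / 2, by omega⟩
    exact hu.mul_left_cancel (by rw [h1, mul_zero])
  rw [sign_of_pow_two_eq_one h2, hfix, ZMod.card]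
  have h3 : Even ((m - 1) / 2) := ⟨m / 4, by omega⟩
  exact h3.neg_one_pow

end sol

section long

variable {α : Type*} [Fintype α] [DecidableEq α] {θ : alternatingGroup α → ℂ}

lemma InK.of_long_prime (hθ : IsSolHeilbronn θ) (hD : HasDoubleSwaps θ) {p : ℕ} [hp : Fact p.Prime]
    (hp5 : 5 ≤ p) (f : ZMod p ↪ α) : InK θ (viaEmbeddingHom f (Equiv.addRight (1 : ZMod p))) := by
  classical
  have hpodd : Odd p := hp.out.odd_of_ne_two (by omega)
  have h2 : (2 : ZMod p) ≠ 0 := by
    intro h
    have : ((2 : ℕ) : ZMod p) = 0 := by exact_mod_cast h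
    rw [ZMod.natCast_eq_zero_iff] at this
    exact absurd (Nat.le_of_dvd (by norm_num) this) (by omega)
  have h3 : (3 : ZMod p) ≠ 0 := by
    intro h
    have : ((3 : ℕ) : ZMod p) = 0 := by exact_mod_cast h
    rw [ZMod.natCast_eq_zero_iff] at this
    exact absurd (Nat.le_of_dvd (by norm_num) this) (by omega)
  let u : (ZMod p)ˣ := Units.mk0 2 h2
  have huu : u * u ≠ 1 := by
    intro h
    have h4 : ((u * u : (ZMod p)ˣ) : ZMod p) = 1 := by rw [h]; rfl
    have h5 : (2 : ZMod p) * 2 = 1 := h4
    apply h3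
    linear_combination h5
  obtain ⟨lam, hlam⟩ := CommGroup.exists_apply_ne_one_of_hasEnoughRootsOfUnity (ZMod p)ˣ ℂ huu
  let φ : affineEven p →* Perm α :=
    (viaEmbeddingHom f).comp ((MonoidHom.fst _ _).comp (affineEven p).subtype)
  let χ : affineEven p →* ℂˣ := lam.comp ((MonoidHom.snd _ _).comp (affineEven p).subtype)
  have hφs : ∀ e, Perm.sign (φ e) = 1 := by
    rintro ⟨⟨π, a⟩, h1, h2⟩
    simp only [φ, MonoidHom.comp_apply, Subgroup.coe_subtype, MonoidHom.coe_fst]
    rw [viaEmb_sign]; exact h2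
  let e₀ : affineEven p := ⟨(Units.mulLeft u * Units.mulLeft u, u * u), by
    refine ⟨fun x y => ?_, ?_⟩
    · simp only [Perm.mul_apply, Units.mulLeft_apply, Units.val_mul]
      ring
    · simp only [Perm.sign_mul]; exact Int.units_mul_self _⟩
  let e₁ : affineEven p := ⟨(Equiv.addRight (1 : ZMod p), 1), by
    refine ⟨fun x y => ?_, ?_⟩
    · simp
    · -- (x ↦ x + 1) has odd order
      have h5 : (Equiv.addRight (1 : ZMod p)) ^ p = 1 := by
        ext x
        have : ∀ k : ℕ, ((Equiv.addRight (1 : ZMod p)) ^ k) x = x + k := by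
          intro k
          induction k with
          | zero => simp
          | succ k ih =>
            rw [pow_succ', Perm.mul_apply, ih]
            simp only [Equiv.coe_addRight, Nat.cast_add, Nat.cast_one]; ring
        rw [this]; simp
      have h6 := congrArg Perm.sign h5
      rw [map_pow, map_one] at h6
      rcases Int.units_eq_one_or (Perm.sign (Equiv.addRight (1 : ZMod p))) with h7 | h7
      · exact h7
      · rw [h7, hpodd.neg_one_pow] at h6
        exact absurd h6 (by decide)⟩
  have key := InK.kernel hθ (affine_sol p) φ hφs χ (e₀ := e₀) hlam ?_ e₁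
  · exact key
  · rintro ⟨⟨π, a⟩, h1, hs⟩ hχ
    have ha : a ≠ 1 := by
      rintro rfl
      apply hχ
      simp [χ]
    simp only at h1 hs
    -- fixed point
    have ha' : (1 : ZMod p) - a ≠ 0 := by
      intro h
      apply ha
      rw [← Units.val_eq_one]
      exact (sub_eq_zero.mp h).symm
    have hfix : π (π 0 / (1 - a)) = π 0 / (1 - a) := by
      have h5 := h1 (π 0 / (1 - a)) 0
      rw [sub_zero] at h5
      have h6 : π (π 0 / (1 - a)) = a * (π 0 / (1 - a)) + π 0 := by
        linear_combination h5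
      rw [h6]
      field_simp
      ring
    apply InK.of_not_long hθ hD (hφs _)
    intro hcyc
    have hodd := odd_card_of_cycle hcyc (hφs _)
    set g := φ ⟨(π, a), h1, hs⟩ with hg
    have hgf : ∀ x, g (f x) = f (π x) := fun x => viaEmb_apply f π x
    have hgn : ∀ y, (∀ x, f x ≠ y) → g y = y := fun y hy => viaEmb_notMem f π hy
    have hsub : g.support ⊆ (Finset.univ.erase (π 0 / (1 - a))).map f := by
      intro y hy
      rw [mem_support] at hy
      by_cases hex : ∃ x, f x = y
      · obtain ⟨x, rfl⟩ := hex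
        rw [Finset.mem_map' f, Finset.mem_erase]
        refine ⟨?_, Finset.mem_univ _⟩
        intro hx
        apply hy
        rw [hgf, hx, hfix]
      · push Not at hex
        exact absurd (hgn y hex) hy
    have h5 := Finset.card_le_card hsub
    rw [Finset.card_map, Finset.card_erase_of_mem (Finset.mem_univ _), Finset.card_univ,
      ZMod.card] at h5
    have h6 : p ≤ Fintype.card α := by
      have := Fintype.card_le_of_embedding f
      rwa [ZMod.card] at this
    obtain ⟨k, hk⟩ := hodd
    obtain ⟨l, hl⟩ := hpodd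
    omega
/-- the case of length `1` modulo `4` -/
lemma InK.of_long_one (hθ : IsSolHeilbronn θ) (hD : HasDoubleSwaps θ) {N : ℕ} [NeZero N]
    (hN : N % 4 = 1) (f : ZMod N ↪ α) :
    InK θ (viaEmbeddingHom f (Equiv.addRight (1 : ZMod N))) := by
  classical
  have hNodd : Odd N := ⟨N / 2, by omega⟩
  have h1 : viaEmbeddingHom f (Equiv.neg (ZMod N)) * viaEmbeddingHom f (Equiv.neg (ZMod N)) = 1 := by
    rw [← map_mul]
    have : Equiv.neg (ZMod N) * Equiv.neg (ZMod N) = 1 := by
      ext x
      simp
    rw [this, map_one]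
  have h2 : (viaEmbeddingHom f (Equiv.neg (ZMod N)) * viaEmbeddingHom f (Equiv.addRight (1 : ZMod N)))
      * (viaEmbeddingHom f (Equiv.neg (ZMod N)) * viaEmbeddingHom f (Equiv.addRight (1 : ZMod N)))
      = 1 := by
    rw [← map_mul, ← map_mul]
    have : Equiv.neg (ZMod N) * Equiv.addRight (1 : ZMod N)
        * (Equiv.neg (ZMod N) * Equiv.addRight (1 : ZMod N)) = 1 := by
      ext x
      simp
    rw [this, map_one]
  refine InK.of_two_invol hθ hD h1 h2 ?_ ?_
  · rw [viaEmb_sign, sign_neg_zmod hN]
  · rw [viaEmb_sign]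
    have h5 : (Equiv.addRight (1 : ZMod N)) ^ N = 1 := by
      ext x
      rw [Pool.Agent.U93.addRight_pow]
      simp
    have h6 := congrArg Perm.sign h5
    rw [map_pow, map_one] at h6
    rcases Int.units_eq_one_or (Perm.sign (Equiv.addRight (1 : ZMod N))) with h7 | h7
    · exact h7
    · rw [h7, hNodd.neg_one_pow] at h6
      exact absurd h6 (by decide)

/-- the composite case: `N = a b` with `a = 1` modulo `4` -/
lemma InK.of_long_composite (hθ : IsSolHeilbronn θ) (hD : HasDoubleSwaps θ) {N a b : ℕ} [NeZero N]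
    [NeZero a] [NeZero b] (hab : N = a * b) (ha4 : a % 4 = 1) (ha1 : 1 < a) (hNodd : Odd N)
    (f : ZMod N ↪ α) :
    InK θ (viaEmbeddingHom f (Equiv.addRight (1 : ZMod N))) := by
  classical
  have ha3 : 3 ≤ a := by omega
  have : Fact (1 < a) := ⟨by omega⟩
  let D : ZMod b × ZMod a ≃ ZMod N := Equiv.ofBijective _ (mix_bij hab)
  let g : ZMod a × ZMod b ↪ α :=
    ⟨fun q => f (D (q.2, q.1)), by
      rintro ⟨i, u⟩ ⟨i', u'⟩ h
      have h1 := D.injective (f.injective h)
      simp only [Prod.mk.injEq] at h1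
      rw [h1.1, h1.2]⟩
  have hg : ∀ i u, g (i, u) = f (D (u, i)) := fun i u => rfl
  let c : ZMod a → ZMod b := fun i => if i = 0 then 1 else 0
  set w : Perm (ZMod a × ZMod b) := tr (ZMod a) (ZMod b) (Multiplicative.ofAdd c)
    * sh (ZMod b) (Equiv.addRight (1 : ZMod a)) with hw
  have hwap : ∀ i u, w (i, u) = (i + 1, u + c (i + 1)) := fun i u => rfl
  have hvw : viaEmbeddingHom f (Equiv.addRight (1 : ZMod N)) = viaEmbeddingHom g w := by
    ext1 y
    by_cases hy : ∃ x, f x = y
    · obtain ⟨x, rfl⟩ := hy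
      obtain ⟨⟨u, i⟩, rfl⟩ := D.surjective x
      rw [viaEmb_apply, ← hg, viaEmb_apply, hwap, hg]
      congr 1
      change mix b a N (u, i) + 1 = mix b a N (u + c (i + 1), i + 1)
      rw [mix_succ hab (by omega)]
    · push Not at hy
      rw [viaEmb_notMem f _ hy, viaEmb_notMem g _ (fun q hq => hy _ hq)]
  have hws : Perm.sign w = 1 := by
    have h1 : Perm.sign (viaEmbeddingHom f (Equiv.addRight (1 : ZMod N))) = 1 := by
      rw [viaEmb_sign]
      have h5 : (Equiv.addRight (1 : ZMod N)) ^ N = 1 := by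
        ext x
        rw [Pool.Agent.U93.addRight_pow]
        simp
      have h6 := congrArg Perm.sign h5
      rw [map_pow, map_one] at h6
      rcases Int.units_eq_one_or (Perm.sign (Equiv.addRight (1 : ZMod N))) with h7 | h7
      · exact h7
      · rw [h7, hNodd.neg_one_pow] at h6
        exact absurd h6 (by decide)
    rw [hvw, viaEmb_sign] at h1
    exact h1
  let φ : tw a (ZMod b) →* Perm α :=
    (viaEmbeddingHom g).comp ((MonoidHom.fst _ _).comp (tw a (ZMod b)).subtype)
  let χ : tw a (ZMod b) →* ℤˣ := (MonoidHom.snd _ _).comp (tw a (ZMod b)).subtype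
  have hφs : ∀ e, Perm.sign (φ e) = 1 := by
    rintro ⟨⟨π, ε⟩, h1, h2, h3⟩
    simp only [φ, MonoidHom.comp_apply, Subgroup.coe_subtype, MonoidHom.coe_fst]
    rw [viaEmb_sign]; exact h3
  -- the reflection of the blocks
  let e₀ : tw a (ZMod b) := ⟨(sh (ZMod b) (Equiv.neg (ZMod a)), -1), by
    refine ⟨fun i x t => rfl, fun i j x y => ?_, ?_⟩
    · change -i - -j = _
      simp
      ring
    · change Perm.sign (sh (ZMod b) (Equiv.neg (ZMod a))) = 1
      rw [Pool.Agent.U93.sign_sh, sign_neg_zmod ha4, one_pow]⟩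
  have he₀ : χ e₀ = -1 := rfl
  let e₁ : tw a (ZMod b) := ⟨(w, 1), by
    refine ⟨fun i x t => ?_, fun i j x y => ?_, hws⟩
    · simp only [hwap]
      congr 1
      ring
    · simp only [hwap, Units.val_one, Int.cast_one, one_mul]
      ring⟩
  have key := InK.kernel hθ tw_sol φ hφs (signToC.comp χ) (e₀ := e₀)
    (by rw [MonoidHom.comp_apply, signToC_ne_one_iff]; exact he₀) ?_ e₁
  · rw [hvw]; exact key
  · intro e hχ
    rw [MonoidHom.comp_apply, signToC_ne_one_iff] at hχ
    apply InK.of_not_long hθ hD (hφs _)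
    intro hcyc
    exfalso
    have hodd := odd_card_of_cycle hcyc (hφs _)
    have hord : orderOf (φ e) = (φ e).support.card := hcyc.orderOf
    set L := (φ e).support.card with hL
    have hpow : (φ e) ^ L = 1 := by rw [← hord]; exact pow_orderOf_eq_one _
    have hπL : (e.1.1) ^ L = 1 := by
      apply viaEmbeddingHom_injective g
      rw [map_pow, map_one]; exact hpow
    have hmem := (e ^ L).2.2.1 1 0 0 0
    have e1 : ((e ^ L : tw a (ZMod b)) : Perm (ZMod a × ZMod b) × ℤˣ).1 = 1 := by
      rw [Subgroup.coe_pow, Prod.pow_fst, hπL]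
    have e2 : ((e ^ L : tw a (ZMod b)) : Perm (ZMod a × ZMod b) × ℤˣ).2 = -1 := by
      rw [Subgroup.coe_pow, Prod.pow_snd]
      have h7 : e.1.2 = -1 := hχ
      rw [h7, hodd.neg_one_pow]
    rw [e1, e2] at hmem
    simp only [Perm.one_apply, sub_zero, Units.val_neg, Units.val_one, Int.cast_neg, Int.cast_one,
      mul_one] at hmem
    have h8 : ((2 : ℕ) : ZMod a) = 0 := by
      push_cast
      linear_combination hmem
    rw [ZMod.natCast_eq_zero_iff] at h8
    exact absurd (Nat.le_of_dvd (by norm_num) h8) (by omega)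

/-- All even permutations are in the kernel once the products of two transpositions are. -/
theorem InK.all (hθ : IsSolHeilbronn θ) (hD : HasDoubleSwaps θ) (hcard : 5 ≤ Fintype.card α)
    {g : Perm α} (hg : Perm.sign g = 1) : InK θ g := by
  classical
  by_cases hlong : g.IsCycle → g.support.card + 2 ≤ Fintype.card α
  · exact InK.of_not_long hθ hD hg hlong
  push Not at hlong
  obtain ⟨hcyc, hlen⟩ := hlong
  have hodd := odd_card_of_cycle hcyc hg
  obtain ⟨f, hf, hsupp⟩ := exists_param hcyc
  have hN5 : 5 ≤ g.support.card := by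
    obtain ⟨k, hk⟩ := hodd
    omega
  have : NeZero g.support.card := ⟨by omega⟩
  have hgf : g = viaEmbeddingHom f (Equiv.addRight (1 : ZMod g.support.card)) := by
    ext y
    by_cases hy : y ∈ g.support
    · obtain ⟨k, rfl⟩ := (hsupp y).mp hy
      rw [hf, viaEmb_apply]; rfl
    · rw [viaEmb_notMem f _ (fun x hx => hy ((hsupp y).mpr ⟨x, hx⟩))]
      simpa using hy
  have hgoal : InK θ (viaEmbeddingHom f (Equiv.addRight (1 : ZMod g.support.card))) := by
    by_cases h1 : g.support.card % 4 = 1
    · exact InK.of_long_one hθ hD h1 f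
    by_cases hprime : g.support.card.Prime
    · have : Fact g.support.card.Prime := ⟨hprime⟩
      exact InK.of_long_prime hθ hD hN5 f
    · have haprime : g.support.card.minFac.Prime := Nat.minFac_prime (by omega)
      obtain ⟨b, hb⟩ := Nat.minFac_dvd g.support.card
      have hboth : ∀ a b : ℕ, Odd (a * b) → (a * b) % 4 ≠ 1 → a % 4 = 1 ∨ b % 4 = 1 := by
        intro a b h2 h3
        obtain ⟨h4, h5⟩ := Nat.odd_mul.mp h2
        by_contra hcon
        push Not at hcon
        have h6 : a % 4 = 3 := by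
          obtain ⟨k, hk⟩ := h4
          have := hcon.1
          omega
        have h7 : b % 4 = 3 := by
          obtain ⟨k, hk⟩ := h5
          have := hcon.2
          omega
        apply h3
        rw [Nat.mul_mod, h6, h7]
      have hp1 : 1 < g.support.card.minFac := haprime.one_lt
      have hb1 : 1 < b := by
        rcases Nat.lt_or_ge 1 b with h | h
        · exact h
        · exfalso
          have h0 : b ≠ 0 := by
            rintro rfl
            rw [mul_zero] at hb
            omega
          have h2 : b = 1 := by omega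
          rw [h2, mul_one] at hb
          exact hprime (hb ▸ haprime)
      have : NeZero g.support.card.minFac := ⟨by omega⟩
      have : NeZero b := ⟨by omega⟩
      rcases hboth g.support.card.minFac b (by rw [← hb]; exact hodd) (by rw [← hb]; exact h1)
        with h2 | h2
      · exact InK.of_long_composite hθ hD hb h2 hp1 hodd f
      · exact InK.of_long_composite hθ hD (hb.trans (mul_comm _ _)) h2 hb1 hodd f
  rwa [← hgf] at hgoal
end long

end Pool.Agent.U143.RG
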