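import Pool.Agent.U143.RG.Good
import Pool.Agent.U143.SH.RelOrd

/-!
# Sums of functions of small degree with nonnegative multiplicities on solvable subgroups
-/

set_option autoImplicit false
set_option linter.unusedSectionVars false

namespace Pool.Agent.U143.RG

open Pool.Agent.H302R2 Pool.Agent.H302R3 Pool.Agent.H302R5 Pool.Agent.U143.SH

variable {G : Type} [Group G] [Finite G] {θ : G → ℂ}

/-- The multiplicity of `ψ` in the restriction of `θ` to `U` is a natural number, at most the one of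
the restriction of `ψ` to any solvable subgroup of `U`. -/
def Pos (U : Subgroup G) (ψ : U →* ℂˣ) (θ : G → ℂ) : Prop :=
  ∃ n : ℕ, ∑ᶠ g : U, θ g * (((ψ g)⁻¹ : ℂˣ) : ℂ) = n * Nat.card U ∧
    ∀ (V : Subgroup G) (h : V ≤ U), Group.IsSolvable V → ∃ k : ℕ,
      ∑ᶠ g : V, θ g * (((ψ (Subgroup.inclusion h g))⁻¹ : ℂˣ) : ℂ) = k * Nat.card V ∧ n ≤ k

lemma Pos.add {U : Subgroup G} {ψ : U →* ℂˣ} {θ η : G → ℂ} (hθ : Pos U ψ θ) (hη : Pos U ψ η) :
    Pos U ψ (fun g => θ g + η g) := by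
  classical
  have : Fintype U := Fintype.ofFinite _
  obtain ⟨n, hn, hV⟩ := hθ
  obtain ⟨n', hn', hV'⟩ := hη
  refine ⟨n + n', ?_, fun V h hs => ?_⟩
  · rw [finsum_eq_sum_of_fintype] at hn hn' ⊢
    simp only [add_mul, Finset.sum_add_distrib, hn, hn']
    push_cast
    ring
  · have : Fintype V := Fintype.ofFinite _
    obtain ⟨k, hk, hle⟩ := hV V h hs
    obtain ⟨k', hk', hle'⟩ := hV' V h hs
    refine ⟨k + k', ?_, by omega⟩
    rw [finsum_eq_sum_of_fintype] at hk hk' ⊢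
    simp only [add_mul, Finset.sum_add_distrib, hk, hk']
    push_cast
    ring

/-- the case `N ≤ U` with `N = ⊥`: a good group and a linear character -/
lemma pos_good (hθ : IsSolHeilbronn θ) {r s : ℕ} (hs : s ≤ r) (h1 : θ 1 = s) (U : Subgroup G)
    (hU : GoodD r U) (ψ : U →* ℂˣ) : Pos U ψ θ := by
  have hη := (hθ.comp U.subtype).twist ψ
  obtain ⟨n, hn, hV⟩ := hU _ hη s hs (by simp [h1])
  refine ⟨n, hn, fun V h hVs => ?_⟩
  have : Fintype V := Fintype.ofFinite _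
  obtain ⟨k, hk⟩ := hθ.mult_hom hVs V.subtype (ψ.comp (Subgroup.inclusion h))
  let e := Subgroup.subgroupOfEquivOfLe h
  have hVs' : Group.IsSolvable (V.subgroupOf U) :=
    Group.isSolvable_of_isSolvable_injective (f := e.toMonoidHom) e.injective
  refine ⟨k, ?_, hV (V.subgroupOf U) hVs' k ?_⟩
  · rw [finsum_eq_sum_of_fintype]
    exact hk
  · rw [Nat.card_congr e.toEquiv, ← hk, ← finsum_eq_sum_of_fintype
      (f := fun v : V => θ (V.subtype v) * ((((ψ.comp (Subgroup.inclusion h)) v)⁻¹ : ℂˣ) : ℂ))]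
    exact finsum_eq_of_bijective (fun g => e g) e.bijective fun g => rfl

/-- a linear character which is not trivial on `U ∩ N` does not occur -/
lemma sum_zero_of_const {N U : Subgroup G} (hc : ∀ n ∈ N, ∀ x, θ (n * x) = θ x) (ψ : U →* ℂˣ)
    (k : U) (hk : (k : G) ∈ N) (hψ : ψ k ≠ 1) :
    ∑ᶠ g : U, θ g * (((ψ g)⁻¹ : ℂˣ) : ℂ) = 0 := by
  classical
  have : Fintype U := Fintype.ofFinite _
  rw [finsum_eq_sum_of_fintype]
  have h1 : ∑ e : U, θ e * (((ψ e)⁻¹ : ℂˣ) : ℂ)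
      = ∑ e : U, θ (k * e : U) * (((ψ (k * e))⁻¹ : ℂˣ) : ℂ) :=
    (Equiv.sum_comp (Equiv.mulLeft k)
      (fun e : U => θ e * (((ψ e)⁻¹ : ℂˣ) : ℂ))).symm
  have h2 : ∑ e : U, θ (k * e : U) * (((ψ (k * e))⁻¹ : ℂˣ) : ℂ)
      = (((ψ k)⁻¹ : ℂˣ) : ℂ) * ∑ e : U, θ e * (((ψ e)⁻¹ : ℂˣ) : ℂ) := by
    rw [Finset.mul_sum]
    refine Finset.sum_congr rfl fun e _ => ?_
    rw [Subgroup.coe_mul, hc _ hk, map_mul, mul_inv_rev]
    push_cast; ring
  have h3 : (((ψ k)⁻¹ : ℂˣ) : ℂ) ≠ 1 := by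
    intro h
    apply hψ
    rw [← inv_eq_one, ← Units.val_eq_one]; exact h
  have h4 : (1 - (((ψ k)⁻¹ : ℂˣ) : ℂ)) * ∑ e : U, θ e * (((ψ e)⁻¹ : ℂˣ) : ℂ) = 0 := by
    rw [sub_mul, one_mul, ← h2, ← h1, sub_self]
  rcases mul_eq_zero.mp h4 with h5 | h5
  · exact absurd (sub_eq_zero.mp h5).symm h3
  · exact h5

/-- extension of a linear character of `U` which is trivial on `U ∩ N` to `U N` -/
lemma exists_ext (N U : Subgroup G) [N.Normal] (ψ : U →* ℂˣ)
    (hψ : ∀ k : U, (k : G) ∈ N → ψ k = 1) :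
    ∃ ψ' : (U ⊔ N : Subgroup G) →* ℂˣ, (∀ u : U, ψ' (Subgroup.inclusion le_sup_left u) = ψ u) ∧
      ∀ x : (U ⊔ N : Subgroup G), (x : G) ∈ N → ψ' x = 1 := by
  let e := QuotientGroup.quotientInfEquivProdNormalQuotient U N
  let l : U ⧸ N.subgroupOf U →* ℂˣ := QuotientGroup.lift (N.subgroupOf U) ψ
    (fun x hx => hψ x (Subgroup.mem_subgroupOf.mp hx))
  refine ⟨(l.comp e.symm.toMonoidHom).comp (QuotientGroup.mk' (N.subgroupOf (U ⊔ N))),
    fun u => ?_, fun x hx => ?_⟩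
  · change l (e.symm (QuotientGroup.mk' _ (Subgroup.inclusion le_sup_left u))) = ψ u
    have h1 : e (QuotientGroup.mk' _ u)
        = QuotientGroup.mk' (N.subgroupOf (U ⊔ N)) (Subgroup.inclusion le_sup_left u) := rfl
    rw [← h1, e.symm_apply_apply]
    rfl
  · have h1 : QuotientGroup.mk' (N.subgroupOf (U ⊔ N)) x = 1 := by
      rw [QuotientGroup.mk'_apply, QuotientGroup.eq_one_iff]
      exact hx
    change l (e.symm (QuotientGroup.mk' (N.subgroupOf (U ⊔ N)) x)) = 1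
    rw [h1, map_one, map_one]

/-- the sum over `U` from the sum over `U N` -/
lemma sum_of_const {N U W : Subgroup G} [N.Normal] (hW : W = U ⊔ N) (hUW : U ≤ W)
    (hc : ∀ n ∈ N, ∀ x, θ (n * x) = θ x) (ψ : W →* ℂˣ) (hψ : ∀ x : W, (x : G) ∈ N → ψ x = 1)
    {n : ℕ} (h : ∑ᶠ g : W, θ g * (((ψ g)⁻¹ : ℂˣ) : ℂ) = n * Nat.card W) :
    ∑ᶠ g : U, θ g * (((ψ (Subgroup.inclusion hUW g))⁻¹ : ℂˣ) : ℂ) = n * Nat.card U := by
  have hWc : (Nat.card W : ℂ) ≠ 0 := by exact_mod_cast Nat.card_pos.ne'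
  have hN0 : (Nat.card N : ℂ) ≠ 0 := by exact_mod_cast Nat.card_pos.ne'
  have h1 := sum_av_eq (θ := θ) N U W hW hUW ψ hψ
  have hNn : N.Normal := inferInstance
  have h2 : ∀ g : G, av N θ g = θ g := by
    intro g
    have : Fintype N := Fintype.ofFinite _
    rw [av_apply, finsum_eq_sum_of_fintype]
    have h3 : ∀ x : N, θ (g * x) = θ g := by
      intro x
      have h4 : g * (x : G) = (g * x * g⁻¹) * g := by group
      rw [h4, hc _ (hNn.conj_mem _ x.2 g)]
    rw [Finset.sum_congr rfl (fun x _ => h3 x), Finset.sum_const, Finset.card_univ, nsmul_eq_mul,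
      ← Nat.card_eq_fintype_card, inv_mul_cancel_left₀ hN0]
  simp only [h2] at h1
  rw [h] at h1
  apply mul_left_cancel₀ hWc
  rw [h1]
  ring

/-- **The main lemma.** -/
theorem pos_of_const (hθ : IsSolHeilbronn θ) {r s : ℕ} (hs : s ≤ r) (h1 : θ 1 = s)
    (N : Subgroup G) [N.Normal] (hc : ∀ n ∈ N, ∀ x, θ (n * x) = θ x) (U : Subgroup G)
    (hU : GoodD r (U ⊔ N : Subgroup G)) (ψ : U →* ℂˣ) : Pos U ψ θ := by
  by_cases hψ : ∀ k : U, (k : G) ∈ N → ψ k = 1
  · obtain ⟨ψ', h2, h3⟩ := exists_ext N U ψ hψ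
    obtain ⟨n, hn, hV⟩ := pos_good hθ hs h1 (U ⊔ N) hU ψ'
    refine ⟨n, ?_, fun V h hVs => ?_⟩
    · have h4 := sum_of_const (W := U ⊔ N) rfl le_sup_left hc ψ' h3 hn
      rw [← h4]
      exact finsum_congr fun u => by rw [h2]
    · obtain ⟨k, hk, hle⟩ := hV V (h.trans le_sup_left) hVs
      refine ⟨k, ?_, hle⟩
      rw [← hk]
      refine finsum_congr fun v => ?_
      rw [← h2]
      rfl
  · push Not at hψ
    obtain ⟨k, hk, hk1⟩ := hψ
    refine ⟨0, ?_, fun V h hVs => ?_⟩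
    · rw [sum_zero_of_const hc ψ k hk hk1]; simp
    · have : Fintype V := Fintype.ofFinite _
      obtain ⟨k, hk⟩ := hθ.mult_hom hVs V.subtype (ψ.comp (Subgroup.inclusion h))
      refine ⟨k, ?_, Nat.zero_le _⟩
      rw [finsum_eq_sum_of_fintype]
      exact hk

/-- **Chains.** A function which grows by at most `r` in each step of a chain of solvable normal
subgroups is a sum of functions of degree at most `r`. -/
theorem chain_sum (hθ : IsSolHeilbronn θ) (r : ℕ) (C : ℕ → Subgroup G) (hC : Monotone C)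
    (hn : ∀ i, (C i).Normal) (h0 : C 0 = ⊥) (t : ℕ) (hs : Group.IsSolvable (C t))
    (hg : ∀ i < t, (av (C i) θ 1 - av (C (i + 1)) θ 1).re ≤ r) (hl : (av (C t) θ 1).re ≤ r)
    (P : (G → ℂ) → Prop) (hadd : ∀ a b : G → ℂ, P a → P b → P (fun g => a g + b g))
    (hP : ∀ η : G → ℂ, IsSolHeilbronn η → ∀ s : ℕ, s ≤ r → η 1 = s → P η) : P θ := by
  have hP' : ∀ η : G → ℂ, IsSolHeilbronn η → (η 1).re ≤ r → P η := by
    intro η hη hle
    obtain ⟨s, hs⟩ := hη.exists_deg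
    refine hP η hη s ?_ hs
    rw [hs, Complex.natCast_re] at hle
    exact_mod_cast hle
  have key : ∀ t : ℕ, Group.IsSolvable (C t) →
      (∀ i < t, (av (C i) θ 1 - av (C (i + 1)) θ 1).re ≤ r) →
      P (fun g => θ g - av (C t) θ g) := by
    intro t
    induction t with
    | zero =>
      intro _ _
      rw [h0, av_bot]
      have hz : IsSolHeilbronn (fun _ : G => (0 : ℂ)) :=
        { conj := fun _ _ => rfl
          mult := fun _ _ _ => ⟨0, by simp⟩ }
      have := hP' _ hz (by simp)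
      simpa using this
    | succ t ih =>
      intro hs hg
      have hle : C t ≤ C (t + 1) := hC (Nat.le_succ t)
      have hs' : Group.IsSolvable (C t) := normal_solvable_of_le hle hs
      have h1 := ih hs' (fun i hi => hg i (by omega))
      have := hn t
      have := hn (t + 1)
      have h2 : IsSolHeilbronn (av (C t) θ) := av_sol hθ (C t) hs'
      have h3 : (av (C t) θ 1 - av (C (t + 1)) (av (C t) θ) 1).re ≤ r := by
        rw [av_av hle]
        exact hg t (Nat.lt_succ_self t)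
      have h4 := hP' _ (new_sol h2 (C (t + 1)) hs) h3
      rw [av_av hle] at h4
      have h5 := hadd _ _ h1 h4
      have h6 : (fun g => θ g - av (C t) θ g + (av (C t) θ g - av (C (t + 1)) θ g))
          = fun g => θ g - av (C (t + 1)) θ g := by
        funext g
        ring
      rw [← h6]
      exact h5
  have h1 := key t hs hg
  have := hn t
  have h2 := hP' _ (av_sol hθ (C t) hs) hl
  have h3 := hadd _ _ h1 h2
  have h4 : (fun g => θ g - av (C t) θ g + av (C t) θ g) = θ := by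
    funext g
    ring
  rwa [h4] at h3

/-- a normal subgroup which is the image of a product of rigid groups -/
theorem const_of_prod (hθ : IsSolHeilbronn θ) {r s : ℕ} (hs : s ≤ r) (h1 : θ 1 = s)
    (N : Subgroup G) [N.Normal] {l : ℕ} {S : Fin l → Type} [∀ j, Group (S j)] [∀ j, Finite (S j)]
    (hS : ∀ j, SRigid r (S j)) (φ : (∀ j, S j) →* G) (hφ : ∀ n ∈ N, ∃ y, φ y = n) :
    ∀ n ∈ N, ∀ x, θ (n * x) = θ x := by
  refine const_of_kernel hθ N fun n hn => ?_
  obtain ⟨y, rfl⟩ := hφ n hn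
  exact ker_prod hθ hs h1 hS φ y

end Pool.Agent.U143.RG
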