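import Pool.Agent.U143.RG.Orb
import Pool.Agent.R389.SmallMain
import Pool.Agent.R389.TwoMain
import Pool.Agent.R389.NewMain
import Pool.Agent.R389.Simple

/-!
# Deligne's conjecture for Artin twists from the twists over solvable layers
-/

set_option autoImplicit false
set_option linter.unusedSectionVars false

namespace Pool.Agent.U143.RG

open Pool.Agent.R389 Pool.Agent.H302R2 Pool.Agent.H302R3 Pool.Agent.H541R3.ART Pool.Agent.W446.AS
  Filter Topology

section layers

variable {G : Type} [Group G] [Finite G] {θ : G → ℂ}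

/-- constancy on cosets passes to the next layer -/
theorem const_step (hθ : IsSolHeilbronn θ) {s : ℕ} (h1 : θ 1 = s) (M N : Subgroup G) [M.Normal]
    (hM : ∀ n ∈ M, ∀ x, θ (n * x) = θ x)
    (hL : ∀ η : G ⧸ M → ℂ, IsSolHeilbronn η → η 1 = s →
      ∀ n ∈ N.map (QuotientGroup.mk' M), ∀ x, η (n * x) = η x) :
    ∀ n ∈ N, ∀ x, θ (n * x) = θ x := by
  classical
  have : Fintype G := Fintype.ofFinite G
  let π := QuotientGroup.mk' M
  have hπ : Function.Surjective π := QuotientGroup.mk'_surjective M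
  have hMn : M.Normal := inferInstance
  have hc : ∀ a b, π a = π b → θ a = θ b := by
    intro a b hab
    have h2 : a⁻¹ * b ∈ M := QuotientGroup.eq.mp hab
    have h3 : b * a⁻¹ ∈ M := by
      have h4 := hMn.conj_mem _ h2 a
      have h5 : a * (a⁻¹ * b) * a⁻¹ = b * a⁻¹ := by group
      rwa [h5] at h4
    have h4 := hM _ h3 a
    rw [inv_mul_cancel_right] at h4
    exact h4.symm
  have h2 := push_sol_const hπ hθ hc
  have h3 := push_of_const π hc
  have h4 := hL (Pool.Agent.H302R5.push π θ) h2 (by rw [← map_one π, h3, h1])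
  intro n hn x
  rw [← h3 (n * x), ← h3 x, map_mul]
  exact h4 _ (Subgroup.mem_map_of_mem _ hn) _

/-- constancy on the cosets passes up a chain -/
theorem const_chain (hθ : IsSolHeilbronn θ) {s : ℕ} (h1 : θ 1 = s) (t : ℕ) (C : ℕ → Subgroup G)
    (hn : ∀ i, (C i).Normal) (h0 : C 0 = ⊥)
    (hl : ∀ i < t, ∀ η : G ⧸ C i → ℂ, IsSolHeilbronn η → η 1 = s →
      ∀ n ∈ (C (i + 1)).map (QuotientGroup.mk' (C i)), ∀ x, η (n * x) = η x) :
    ∀ n ∈ C t, ∀ x, θ (n * x) = θ x := by
  induction t with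
  | zero =>
    intro n hn x
    rw [h0, Subgroup.mem_bot] at hn
    rw [hn, one_mul]
  | succ t ih =>
    exact const_step hθ h1 (C t) (C (t + 1)) (ih fun i hi => hl i (by omega)) (hl t (by omega))

end layers

section inv

variable {G : Type} [Group G] [Finite G]

/-- the average of a function induced from a linear character which is nontrivial on `U ∩ K` -/
lemma inv_ind_new (K : Subgroup G) [K.Normal] (U : Subgroup G) (ψ : U →* ℂˣ) (u : U)
    (hu : (u : G) ∈ K) (hψu : ψ u ≠ 1) : inv K (ind U (fun h => ((ψ h : ℂˣ) : ℂ))) = 0 := by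
  classical
  have : Fintype G := Fintype.ofFinite G
  have : Fintype K := Fintype.ofFinite K
  funext g
  rw [inv_ind, Finset.sum_eq_zero, mul_zero, mul_zero]
  · rfl
  intro x _
  have h2 : ∀ z : G, ext U (fun h => ((ψ h : ℂˣ) : ℂ)) (z * u)
      = ext U (fun h => ((ψ h : ℂˣ) : ℂ)) z * ((ψ u : ℂˣ) : ℂ) := by
    intro z
    by_cases hz : z ∈ U
    · have hz' : z * u ∈ U := U.mul_mem hz u.2
      rw [ext_mem _ _ hz', ext_mem _ _ hz, ← Units.val_mul, ← map_mul]
      rfl
    · have hz' : z * u ∉ U := fun h => hz (by simpa using U.mul_mem h (U.inv_mem u.2))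
      rw [ext_not _ _ hz', ext_not _ _ hz, zero_mul]
  have h3 : ∑ k : K, ext U (fun h => ((ψ h : ℂˣ) : ℂ)) (x⁻¹ * g * x * k)
      = (∑ k : K, ext U (fun h => ((ψ h : ℂˣ) : ℂ)) (x⁻¹ * g * x * k)) * ((ψ u : ℂˣ) : ℂ) := by
    rw [Finset.sum_mul, ← Equiv.sum_comp (Equiv.mulRight (⟨u, hu⟩ : K))
      (fun k : K => ext U (fun h => ((ψ h : ℂˣ) : ℂ)) (x⁻¹ * g * x * k))]
    refine Finset.sum_congr rfl fun k _ => ?_
    rw [← h2]
    congr 1
    simp only [Equiv.coe_mulRight, Subgroup.coe_mul]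
    group
  have h4 : (∑ k : K, ext U (fun h => ((ψ h : ℂˣ) : ℂ)) (x⁻¹ * g * x * k))
      * (((ψ u : ℂˣ) : ℂ) - 1) = 0 := by
    rw [mul_sub, mul_one, ← h3, sub_self]
  rcases mul_eq_zero.mp h4 with h5 | h5
  · exact h5
  · exfalso
    apply hψu
    exact Units.ext (sub_eq_zero.mp h5)

/-- the average of a function induced from a linear character which extends to `U K` -/
lemma inv_ind_lin (K U : Subgroup G) [K.Normal] (ψ : (U ⊔ K : Subgroup G) →* ℂˣ)
    (hψ : ∀ x : (U ⊔ K : Subgroup G), (x : G) ∈ K → ψ x = 1) :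
    inv K (ind U (fun u => ((ψ (Subgroup.inclusion le_sup_left u) : ℂˣ) : ℂ)))
      = ind (U ⊔ K) (fun w => ((ψ w : ℂˣ) : ℂ)) := by
  classical
  have : Fintype G := Fintype.ofFinite G
  have : Fintype K := Fintype.ofFinite K
  set f : U → ℂ := fun u => ((ψ (Subgroup.inclusion le_sup_left u) : ℂˣ) : ℂ) with hf
  set F : (U ⊔ K : Subgroup G) → ℂ := fun w => ((ψ w : ℂˣ) : ℂ) with hF
  have hcard : (Nat.card (K.subgroupOf U) : ℂ) * Nat.card (U ⊔ K : Subgroup G)
      = Nat.card U * Nat.card K := by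
    have e := Nat.card_congr (QuotientGroup.quotientInfEquivProdNormalQuotient U K).toEquiv
    have h1 : Nat.card U = Nat.card (U ⧸ K.subgroupOf U) * Nat.card (K.subgroupOf U) :=
      Subgroup.card_eq_card_quotient_mul_card_subgroup _
    have h2 : Nat.card (U ⊔ K : Subgroup G) = Nat.card ((U ⊔ K : Subgroup G) ⧸
        K.subgroupOf (U ⊔ K)) * Nat.card (K.subgroupOf (U ⊔ K)) :=
      Subgroup.card_eq_card_quotient_mul_card_subgroup _
    have h3 : Nat.card (K.subgroupOf (U ⊔ K)) = Nat.card K :=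
      Nat.card_congr (Subgroup.subgroupOfEquivOfLe le_sup_right).toEquiv
    have h4 : Nat.card (K.subgroupOf U) * Nat.card (U ⊔ K : Subgroup G)
        = Nat.card U * Nat.card K := by
      rw [h2, h1, h3, e]; ring
    exact_mod_cast h4
  have key : ∀ y : G, ∑ k : K, ext U f (y * k) = Nat.card (K.subgroupOf U) * ext (U ⊔ K) F y := by
    intro y
    by_cases hy : y ∈ U ⊔ K
    · rw [ext_mem _ _ hy]
      obtain ⟨u, hu, n, hn, rfl⟩ := Subgroup.mem_sup_of_normal_right.mp hy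
      have h1 : F ⟨u * n, hy⟩ = f ⟨u, hu⟩ := by
        have h2 : (⟨u * n, hy⟩ : (U ⊔ K : Subgroup G))
            = Subgroup.inclusion le_sup_left ⟨u, hu⟩ * ⟨n, le_sup_right (a := U) hn⟩ := rfl
        simp only [hF, hf]
        rw [h2, map_mul, hψ ⟨n, le_sup_right (a := U) hn⟩ hn, mul_one]
      rw [h1, ← Equiv.sum_comp (Equiv.mulLeft (⟨n, hn⟩ : K)⁻¹) (fun k : K => ext U f (u * n * k))]
      have h2 : ∀ k : K, ext U f (u * n * ((Equiv.mulLeft (⟨n, hn⟩ : K)⁻¹) k : K))
          = if (k : G) ∈ U then f ⟨u, hu⟩ else 0 := by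
        intro k
        have h3 : u * n * (((Equiv.mulLeft (⟨n, hn⟩ : K)⁻¹) k : K) : G) = u * k := by
          simp only [Equiv.coe_mulLeft, Subgroup.coe_mul, Subgroup.coe_inv]
          group
        rw [h3]
        by_cases hk : (k : G) ∈ U
        · rw [if_pos hk, ext_mem _ _ (U.mul_mem hu hk)]
          simp only [hf]
          have h4 : Subgroup.inclusion (le_sup_left : U ≤ U ⊔ K) ⟨u * k, U.mul_mem hu hk⟩
              = Subgroup.inclusion le_sup_left ⟨u, hu⟩ * ⟨k, le_sup_right (a := U) k.2⟩ := rfl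
          rw [h4, map_mul, hψ ⟨k, le_sup_right (a := U) k.2⟩ k.2, mul_one]
        · rw [if_neg hk, ext_not]
          intro h
          exact hk (by simpa using U.mul_mem (U.inv_mem hu) h)
      rw [Finset.sum_congr rfl (fun k _ => h2 k), ← Finset.sum_filter, Finset.sum_const,
        nsmul_eq_mul]
      congr 2
      rw [← Fintype.card_subtype, ← Nat.card_eq_fintype_card]
      exact Nat.card_congr ⟨fun k => ⟨⟨k.1, k.2⟩, Subgroup.mem_subgroupOf.mpr k.1.2⟩,
        fun m => ⟨⟨m.1, Subgroup.mem_subgroupOf.mp m.2⟩, m.1.2⟩, fun _ => rfl, fun _ => rfl⟩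
    · rw [ext_not _ _ hy, mul_zero]
      refine Finset.sum_eq_zero fun k _ => ext_not _ _ fun h => hy ?_
      have h1 := (U ⊔ K).mul_mem (le_sup_left (b := K) h)
        ((U ⊔ K).inv_mem (le_sup_right (a := U) k.2))
      rwa [mul_inv_cancel_right] at h1
  funext g
  rw [inv_ind, ind_eq, Finset.sum_congr rfl (fun x _ => key _), ← Finset.mul_sum]
  have hK0 : (Nat.card K : ℂ) ≠ 0 := card_ne
  have hU0 : (Nat.card U : ℂ) ≠ 0 := card_ne
  have hW0 : (Nat.card (U ⊔ K : Subgroup G) : ℂ) ≠ 0 := card_ne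
  field_simp
  linear_combination (∑ x : G, ext (U ⊔ K) F (x⁻¹ * g * x)) * hcard

/-- induced linear characters are virtual characters -/
lemma ind_virt (U : Subgroup G) (ψ : U →* ℂˣ) : Virt (ind U (fun h => ((ψ h : ℂˣ) : ℂ))) := by
  obtain ⟨m, hm⟩ := ind_isDecomp U ψ
  have h1 : (ind U (fun h => ((ψ h : ℂˣ) : ℂ))) = theta (fun χ => (m χ : ℤ)) := by
    funext g
    have h2 := hm g
    rw [finsum_irr (fun χ => (m χ : ℂ) * χ g)] at h2
    refine h2.trans ?_
    rw [theta]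
    simp
  rw [h1]
  exact theta_virt _

end inv

section del

variable {G : Type} [Group G] [Finite G] {E : Type} [Field E]
  {L : (E →+* ℂ) → (G → ℂ) → ℂ → ℂ} {P : (E →+* ℂ) → (G → ℂ) → ℂ} {c : ℂ}

/-- abelian-by-nilpotent groups are solvable -/
lemma an_solvable {Q : Type} [Group Q] (h : AN Q) : Group.IsSolvable Q := by
  obtain ⟨A, hA, hc, hn⟩ := h
  have h1 : Group.IsSolvable A := sol_of_comm hc
  have h2 : Group.IsSolvable (Q ⧸ A) := inferInstance
  exact Group.isSolvable_of_ker_le_range A.subtype (QuotientGroup.mk' A) (by simp)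

/-- the orders of the solvable monomial twists are nonnegative -/
lemma nonneg_ords {ζ : E} (hζ : IsPrimitiveRoot ζ (Monoid.exponent G))
    (hL : ∀ τ, ∀ χ ∈ Irr G, MeromorphicAt (L τ χ) c ∧ meromorphicOrderAt (L τ χ) c ≠ ⊤)
    (hmon : ∀ (U : Subgroup G) (ψ : U →* Eˣ), Group.IsSolvable U →
      Deligne L P c (ind U (fun u => ((ψ u : Eˣ) : E)))) (τ : E →+* ℂ) :
    ∀ U : Subgroup G, Group.IsSolvable U → ∀ (ψ : U →* ℂˣ) (m : (G → ℂ) → ℕ),
      IsDecomp (ind U (fun h => ((ψ h : ℂˣ) : ℂ))) m →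
        0 ≤ meromorphicOrderAt (fun s => ∏ᶠ χ ∈ Irr G, L τ χ s ^ m χ) c := by
  classical
  intro U hU ψ m hm
  obtain ⟨ψE, hψE⟩ := lift_char hζ τ U ψ
  obtain ⟨e, he⟩ := hmon U ψE hU
  have h1 : (fun g => τ (ind U (fun u => ((ψE u : Eˣ) : E)) g))
      = ind U (fun h => ((ψ h : ℂˣ) : ℂ)) := by
    funext g
    rw [ind_map]
    congr 1
    funext u
    exact hψE u
  have h2 := he τ m (by rw [h1]; exact hm)
  have h3 := order_prod (hL τ) (irrF G) subset_rfl (fun χ => (m χ : ℤ))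
  have h4 : (fun s => ∏ᶠ χ ∈ Irr G, L τ χ s ^ m χ)
      = fun z => ∏ χ ∈ irrF G, L τ χ z ^ ((m χ : ℕ) : ℤ) := by
    funext s
    rw [finprod_irr (fun χ => L τ χ s ^ m χ)]
    exact Finset.prod_congr rfl fun χ _ => by rw [zpow_natCast]
  rw [h4] at h2 ⊢
  exact (tendsto_nhds_iff_meromorphicOrderAt_nonneg h3.1).mp ⟨_, h2⟩

/-- **Monomial twists.** -/
theorem mono_deligne {ζ : E} (hζ : IsPrimitiveRoot ζ (Monoid.exponent G))
    (hL : ∀ τ, ∀ χ ∈ Irr G, MeromorphicAt (L τ χ) c ∧ meromorphicOrderAt (L τ χ) c ≠ ⊤)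
    (hP : ∀ τ, ∀ χ ∈ Irr G, P τ χ ≠ 0)
    (hmon : ∀ (U : Subgroup G) (ψ : U →* Eˣ), Group.IsSolvable U →
      Deligne L P c (ind U (fun u => ((ψ u : Eˣ) : E)))) (τ₀ : E →+* ℂ)
    (K : Subgroup G) [K.Normal]
    (hK : ∀ k ∈ K, (theta (ords (L τ₀) c) : G → ℂ) k = (theta (ords (L τ₀) c) : G → ℂ) 1)
    (U : Subgroup G) (hU : Group.IsSolvable (U.map (QuotientGroup.mk' K))) (ψ : U →* Eˣ) :
    Deligne L P c (ind U (fun u => ((ψ u : Eˣ) : E))) := by
  classical
  have hKth : ∀ k ∈ K, (theta (ords (L τ₀) c) : G → ℂ) k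
      = (((1 : G →* ℂˣ) k : ℂˣ) : ℂ) * (theta (ords (L τ₀) c) : G → ℂ) 1 := by
    intro k hk
    rw [hK k hk]
    simp
  have hunit : ∀ f : G → ℂ, Virt f → inv K f = 0 →
      ∃ (F : G → E) (e : E), (∀ g, τ₀ (F g) = f g) ∧ e ≠ 0 ∧ DelZ L P c F e := by
    intro f hf h0
    have h1 := relative_brauer K hf h0
    have h2 := new_twistT K 1 h1
    have hback : twHom 1 f = f := by
      funext g
      change f g * (((1 : G →* ℂˣ) g : ℂˣ) : ℂ) = f g
      simp
    rw [AddSubgroup.mem_comap, hback] at h2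
    exact new_unitT hζ hL hP (fun U ψ hU => hmon U ψ hU.solvable) τ₀ (lam := 1) hKth h2
  let ψ₀ : U →* ℂˣ := (Units.map τ₀.toMonoidHom).comp ψ
  have hψ₀ : ∀ g, τ₀ (ind U (fun u => ((ψ u : Eˣ) : E)) g)
      = ind U (fun h => ((ψ₀ h : ℂˣ) : ℂ)) g := fun g => ind_map τ₀ U _ g
  by_cases h : ∀ k : U, (k : G) ∈ K → ψ₀ k = 1
  · -- a solvable supplement
    let π : U →* U.map (QuotientGroup.mk' K) :=
      { toFun := fun u => ⟨QuotientGroup.mk' K u, Subgroup.mem_map_of_mem _ u.2⟩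
        map_one' := Subtype.ext (map_one _)
        map_mul' := fun a b => Subtype.ext (map_mul _ _ _) }
    have hπ : Function.Surjective π := by
      rintro ⟨y, u, hu, rfl⟩
      exact ⟨⟨u, hu⟩, rfl⟩
    obtain ⟨L', hL', hLs⟩ := exists_sol_supp π hπ hU
    let V : Subgroup G := L'.map U.subtype
    have hVU : V ≤ U := by
      rintro x ⟨y, -, rfl⟩
      exact y.2
    have hVs : Group.IsSolvable V :=
      Group.isSolvable_of_isSolvable_injective
        (f := (L'.equivMapOfInjective U.subtype U.subtype_injective).symm.toMonoidHom)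
        (L'.equivMapOfInjective U.subtype U.subtype_injective).symm.injective
    have hUV : U ≤ V ⊔ K := by
      intro u hu
      obtain ⟨x, hx, hxu⟩ := hLs (π ⟨u, hu⟩)
      have h1 : (QuotientGroup.mk (x : G) : G ⧸ K) = QuotientGroup.mk u :=
        congrArg Subtype.val hxu
      have h2 : ((x : U) : G)⁻¹ * u ∈ K := QuotientGroup.eq.mp h1
      have h3 : u = (x : G) * ((x : G)⁻¹ * u) := by group
      rw [h3]
      exact (V ⊔ K).mul_mem (le_sup_left (b := K) ⟨x, hx, rfl⟩) (le_sup_right (a := V) h2)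
    have hW : V ⊔ K = U ⊔ K :=
      le_antisymm (sup_le_sup_right hVU K) (sup_le hUV le_sup_right)
    obtain ⟨ψ', hψ', hψK⟩ := exists_ext K U ψ₀ h
    have hinvU := inv_ind_lin K U ψ' hψK
    let ψV : (V ⊔ K : Subgroup G) →* ℂˣ := ψ'.comp (Subgroup.inclusion hW.le)
    have hinvV := inv_ind_lin K V ψV (fun x hx => hψK _ hx)
    have hsame : ind (V ⊔ K) (fun w => ((ψV w : ℂˣ) : ℂ))
        = ind (U ⊔ K) (fun w => ((ψ' w : ℂˣ) : ℂ)) :=
      ind_congr_ext (by rw [hW]) (fun x => by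
        by_cases hx : x ∈ V ⊔ K
        · have hx' : x ∈ U ⊔ K := hW ▸ hx
          rw [ext_mem _ _ hx, ext_mem _ _ hx']
          rfl
        · have hx' : x ∉ U ⊔ K := hW ▸ hx
          rw [ext_not _ _ hx, ext_not _ _ hx'])
    -- the restriction to the supplement
    let ψE : V →* Eˣ := ψ.comp (Subgroup.inclusion hVU)
    have hψE : ∀ g, τ₀ (ind V (fun u => ((ψE u : Eˣ) : E)) g)
        = ind V (fun u => ((ψV (Subgroup.inclusion le_sup_left u) : ℂˣ) : ℂ)) g := by
      intro g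
      rw [ind_map]
      congr 1
      funext u
      have h1 : ψV (Subgroup.inclusion le_sup_left u) = ψ₀ (Subgroup.inclusion hVU u) := by
        rw [← hψ']
        rfl
      rw [h1]
      rfl
    have hU' : ind U (fun h => ((ψ₀ h : ℂˣ) : ℂ))
        = ind U (fun u => ((ψ' (Subgroup.inclusion le_sup_left u) : ℂˣ) : ℂ)) := by
      congr 1
      funext u
      rw [hψ']
    have hV1 : Virt (ind V (fun u => ((ψV (Subgroup.inclusion le_sup_left u) : ℂˣ) : ℂ))) :=
      ind_virt V (ψV.comp (Subgroup.inclusion le_sup_left))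
    obtain ⟨F, e, hF, -, hFe⟩ := hunit (ind U (fun h => ((ψ₀ h : ℂˣ) : ℂ))
      - ind V (fun u => ((ψV (Subgroup.inclusion le_sup_left u) : ℂˣ) : ℂ)))
      (sub_mem (S := AddSubgroup (G → ℂ)) (ind_virt U ψ₀) hV1) (by
        have h1 : ∀ a b : G → ℂ, inv K (a - b) = inv K a - inv K b := map_sub (invHom K)
        rw [h1, hU', hinvU, hinvV, hsame, sub_self])
    obtain ⟨e', he'⟩ := delZ_ind (hmon V ψE hVs)
    have h1 : ind U (fun u => ((ψ u : Eˣ) : E)) = F + ind V (fun u => ((ψE u : Eˣ) : E)) := by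
      funext g
      apply τ₀.injective
      rw [Pi.add_apply, map_add, hF, hψ₀, hψE, Pi.sub_apply, sub_add_cancel]
    rw [h1]
    exact (hFe.add hL hP he').deligne
  · push Not at h
    obtain ⟨k, hk, hk1⟩ := h
    obtain ⟨F, e, hF, -, hFe⟩ := hunit _ (ind_virt U ψ₀) (inv_ind_new K U ψ₀ k hk hk1)
    have h1 : ind U (fun u => ((ψ u : Eˣ) : E)) = F := by
      funext g
      apply τ₀.injective
      rw [hF, hψ₀]
    rw [h1]
    exact hFe.deligne

/-- the invariants of a normal subgroup in a character -/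
lemma inv_mem (K : Subgroup G) [K.Normal] (hQ : AN (G ⧸ K)) {f : G → ℂ}
    (hf : f ∈ AddSubmonoid.closure (Irr G)) : inv K f ∈ MonPA G := by
  classical
  induction hf using AddSubmonoid.closure_induction with
  | zero =>
    rw [← invHom_apply, map_zero]
    exact zero_mem _
  | add a b _ _ ha hb =>
    have h3 : inv K (a + b) = inv K a + inv K b := map_add (invHom K) a b
    rw [h3]
    exact add_mem ha hb
  | mem χ hχ =>
    rcases irr_inv K hχ with h | ⟨-, h⟩
    · have h1 := inv_of_const K h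
      rw [h1]
      obtain ⟨d, hd, hd1⟩ := irr_deg_pos hχ
      have h2 : inv K χ ≠ 0 := by
        rw [h1]
        intro h0
        have h3 := congrFun h0 1
        rw [hd1] at h3
        have h4 : (d : ℂ) = 0 := h3
        have : d = 0 := by exact_mod_cast h4
        omega
      obtain ⟨U, ψ, hU⟩ := mono_of_quot K hQ hχ h2
      exact AddSubmonoid.subset_closure ⟨U, ψ, hU⟩
    · rw [h]
      exact zero_mem _

/-- representations of an abelian-by-nilpotent quotient -/
theorem old_deligne {ζ : E} (hζ : IsPrimitiveRoot ζ (Monoid.exponent G))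
    (hL : ∀ τ, ∀ χ ∈ Irr G, MeromorphicAt (L τ χ) c ∧ meromorphicOrderAt (L τ χ) c ≠ ⊤)
    (hP : ∀ τ, ∀ χ ∈ Irr G, P τ χ ≠ 0)
    (hmon : ∀ (U : Subgroup G) (ψ : U →* Eˣ),
      Deligne L P c (ind U (fun u => ((ψ u : Eˣ) : E)))) (τ₀ : E →+* ℂ)
    (K : Subgroup G) [K.Normal] (hQ : AN (G ⧸ K))
    {V : Type} [AddCommGroup V] [Module E V] [FiniteDimensional E V] (ρ : Representation E G V)
    (hρ : ∀ k ∈ K, ∀ v, ρ k v = v) : Deligne L P c ρ.character := by
  classical
  have h1 := inv_mem K hQ (base_change τ₀ ρ)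
  have h2 : inv K (fun g => τ₀ (ρ.character g)) = fun g => τ₀ (ρ.character g) := by
    refine inv_of_const K fun g k hk => ?_
    have h3 : ρ k = 1 := LinearMap.ext fun v => hρ k hk v
    change τ₀ (LinearMap.trace E V (ρ (g * k))) = τ₀ (LinearMap.trace E V (ρ g))
    rw [map_mul, h3, mul_one]
  rw [h2] at h1
  obtain ⟨fa, ea, ha1, ha2⟩ := monA_del hζ hL hP hmon τ₀ h1
  have h4 : ρ.character = fa := by
    funext g
    exact τ₀.injective (ha1 g).symm
  rw [h4]
  exact ha2.deligne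

/-- **The characters without invariants.** -/
theorem new_deligne {ζ : E} (hζ : IsPrimitiveRoot ζ (Monoid.exponent G))
    (hL : ∀ τ, ∀ χ ∈ Irr G, MeromorphicAt (L τ χ) c ∧ meromorphicOrderAt (L τ χ) c ≠ ⊤)
    (hP : ∀ τ, ∀ χ ∈ Irr G, P τ χ ≠ 0)
    (hmon : ∀ (U : Subgroup G) (ψ : U →* Eˣ), Tame U →
      Deligne L P c (ind U (fun u => ((ψ u : Eˣ) : E)))) (τ₀ : E →+* ℂ)
    (K : Subgroup G) [K.Normal]
    (hK : ∀ k ∈ K, (theta (ords (L τ₀) c) : G → ℂ) k = (theta (ords (L τ₀) c) : G → ℂ) 1)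
    {V : Type} [AddCommGroup V] [Module E V] [FiniteDimensional E V] (ρ : Representation E G V)
    (hρ : ∀ v, (∀ k ∈ K, ρ k v = v) → v = 0) :
    ∃ e : E, e ≠ 0 ∧ ∀ (τ : E →+* ℂ) (m : (G → ℂ) → ℕ),
      IsDecomp (fun g => τ (ρ.character g)) m →
      Tendsto (fun s => ∏ᶠ χ ∈ Irr G, L τ χ s ^ m χ) (𝓝[≠] c)
        (𝓝 (τ e * ∏ᶠ χ ∈ Irr G, P τ χ ^ m χ)) := by
  classical
  have : Fintype K := Fintype.ofFinite K
  have hb := base_change τ₀ ρ
  -- the averaging operator vanishes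
  have hav : ∀ g : G, ∑ k : K, ρ (g * k) = 0 := by
    intro g
    refine LinearMap.ext fun v => ?_
    have h1 : ∑ k : K, ρ k v = 0 := by
      refine hρ _ fun h hh => ?_
      rw [map_sum]
      refine Fintype.sum_equiv (Equiv.mulLeft (⟨h, hh⟩ : K)) _ _ fun k => ?_
      change ρ h (ρ k v) = ρ ((h : G) * (k : G)) v
      rw [map_mul]
      rfl
    have h2 : ∀ k : K, ρ (g * k) v = ρ g (ρ k v) := fun k => by
      rw [map_mul]
      rfl
    rw [LinearMap.sum_apply, Finset.sum_congr rfl (fun k _ => h2 k), ← map_sum, h1, map_zero]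
    rfl
  have h0 : inv K (fun g => τ₀ (ρ.character g)) = 0 := by
    funext g
    rw [inv_eq]
    have h1 : ∑ k : K, τ₀ (ρ.character (g * k)) = 0 := by
      rw [← map_sum]
      have h2 : ∑ k : K, ρ.character (g * k) = LinearMap.trace E V (∑ k : K, ρ (g * k)) := by
        rw [map_sum]
        rfl
      rw [h2, hav g, map_zero, map_zero]
    rw [h1, mul_zero]
    rfl
  have hVirt : Virt (fun g => τ₀ (ρ.character g)) := by
    have h3 : AddSubmonoid.closure (Irr G) ≤ (AddSubgroup.closure (Irr G)).toAddSubmonoid := by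
      rw [AddSubmonoid.closure_le]
      exact AddSubgroup.subset_closure
    exact h3 hb
  have h1 := relative_brauer K hVirt h0
  have h2 := new_twistT K 1 h1
  have hback : twHom 1 (fun g => τ₀ (ρ.character g)) = fun g => τ₀ (ρ.character g) := by
    funext g
    change τ₀ (ρ.character g) * (((1 : G →* ℂˣ) g : ℂˣ) : ℂ) = τ₀ (ρ.character g)
    simp
  rw [AddSubgroup.mem_comap, hback] at h2
  obtain ⟨f, e, hf, he0, hfe⟩ := new_unitT hζ hL hP hmon τ₀ (lam := 1)
    (fun k hk => by rw [hK k hk]; simp) h2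
  have h3 : ρ.character = f := by
    funext g
    exact τ₀.injective (hf g).symm
  rw [h3]
  exact ⟨e, he0, fun τ m hm => hfe.spec τ m hm⟩

/-- **All twists from those of the quotient.** -/
theorem all_deligne {ζ : E} (hζ : IsPrimitiveRoot ζ (Monoid.exponent G))
    (hL : ∀ τ, ∀ χ ∈ Irr G, MeromorphicAt (L τ χ) c ∧ meromorphicOrderAt (L τ χ) c ≠ ⊤)
    (hP : ∀ τ, ∀ χ ∈ Irr G, P τ χ ≠ 0)
    (hmon : ∀ (U : Subgroup G) (ψ : U →* Eˣ), Tame U →
      Deligne L P c (ind U (fun u => ((ψ u : Eˣ) : E)))) (τ₀ : E →+* ℂ)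
    (K : Subgroup G) [K.Normal]
    (hK : ∀ k ∈ K, (theta (ords (L τ₀) c) : G → ℂ) k = (theta (ords (L τ₀) c) : G → ℂ) 1)
    (hold : ∀ (W : Type) [AddCommGroup W] [Module E W] [FiniteDimensional E W]
      (σ : Representation E G W), (∀ k ∈ K, ∀ w, σ k w = w) → Deligne L P c σ.character)
    {V : Type} [AddCommGroup V] [Module E V] [FiniteDimensional E V] (ρ : Representation E G V) :
    Deligne L P c ρ.character := by
  refine main_grow' hζ hL hP hmon τ₀ K 1 ?_ ?_ ρ
  · intro W _ _ _ σ hσ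
    exact hold W σ (fun k hk w => by have := hσ k hk w; simpa using this)
  · intro k hk
    rw [hK k hk]
    simp

end del

end Pool.Agent.U143.RG
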