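import Pool.Agent.U143.RG.Del
import Pool.Agent.U143.SH.Ord
import Pool.Agent.R389.RatMain2

/-!
# Zeros of order at most two: Deligne's conjecture for Artin twists from the solvable layers
-/

set_option autoImplicit false
set_option linter.unusedSectionVars false

namespace Pool.Agent.U143.RG

open Pool.Agent.R389 Pool.Agent.H302R2 Pool.Agent.H302R3 Pool.Agent.H541R3.ART Pool.Agent.W446.AS
  Filter Topology

section two

variable {G : Type} [Group G] [Finite G] {E : Type} [Field E]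
  {L : (E →+* ℂ) → (G → ℂ) → ℂ → ℂ} {P : (E →+* ℂ) → (G → ℂ) → ℂ} {c : ℂ}

/-- the function of the orders is a Heilbronn function -/
lemma heil_sol {ζ : E} (hζ : IsPrimitiveRoot ζ (Monoid.exponent G))
    (hL : ∀ τ, ∀ χ ∈ Irr G, MeromorphicAt (L τ χ) c ∧ meromorphicOrderAt (L τ χ) c ≠ ⊤)
    (hmon : ∀ (U : Subgroup G) (ψ : U →* Eˣ), Group.IsSolvable U →
      Deligne L P c (ind U (fun u => ((ψ u : Eˣ) : E)))) (τ₀ : E →+* ℂ)
    {deg : (G → ℂ) → ℕ} (hdeg : ∀ χ ∈ Irr G, χ 1 = deg χ)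
    (hz : meromorphicOrderAt (fun s => ∏ᶠ χ ∈ Irr G, L τ₀ χ s ^ deg χ) c ≤ 2) :
    IsHeilbronn (theta (ords (L τ₀) c) : G → ℂ) :=
  (Pool.Agent.U143.SH.heil (hL τ₀) (nonneg_ords hζ hL hmon τ₀) hdeg hz).1

/-- **Order at most two.** -/
theorem main_two_sol {ζ : E} (hζ : IsPrimitiveRoot ζ (Monoid.exponent G))
    (hL : ∀ τ, ∀ χ ∈ Irr G, MeromorphicAt (L τ χ) c ∧ meromorphicOrderAt (L τ χ) c ≠ ⊤)
    (hP : ∀ τ, ∀ χ ∈ Irr G, P τ χ ≠ 0)
    (hmon : ∀ (U : Subgroup G) (ψ : U →* Eˣ), Group.IsSolvable U →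
      Deligne L P c (ind U (fun u => ((ψ u : Eˣ) : E)))) (τ₀ : E →+* ℂ)
    {deg : (G → ℂ) → ℕ} (hdeg : ∀ χ ∈ Irr G, χ 1 = deg χ)
    (hz : meromorphicOrderAt (fun s => ∏ᶠ χ ∈ Irr G, L τ₀ χ s ^ deg χ) c ≤ 2)
    (hquat : ∀ (H : Subgroup G) (f : H →* QuaternionGroup 2), Function.Surjective f →
      ∀ m : (G → ℂ) → ℕ, IsDecomp (ind H (fun h => quatChar (f h))) m →
        meromorphicOrderAt (fun s => ∏ᶠ χ ∈ Irr G, L τ₀ χ s ^ m χ) c ≠ 1)
    {V : Type} [AddCommGroup V] [Module E V] [FiniteDimensional E V] (ρ : Representation E G V) :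
    Deligne L P c ρ.character := by
  classical
  have hmon' : ∀ (U : Subgroup G) (ψ : U →* Eˣ), Hyper U →
      Deligne L P c (ind U (fun u => ((ψ u : Eˣ) : E))) := fun U ψ hU => hmon U ψ hU.solvable
  have hθ := hh_ords hζ hL hmon' τ₀
  have hθH := heil_sol hζ hL hmon τ₀ hdeg hz
  have htop := top_order (hL τ₀) deg
  have hone := theta_one_eq (c := c) (l := L τ₀) hdeg
  obtain ⟨r, hr⟩ := hθ.deg
  have h1 : (∑ χ ∈ irrF G, (deg χ : ℤ) * ords (L τ₀) c χ) = (r : ℤ) := by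
    rw [hone] at hr
    exact_mod_cast hr
  rw [h1] at htop
  have htopP : IsPGroup 2 (G ⧸ (⊤ : Subgroup G)) := by
    intro q
    refine ⟨0, ?_⟩
    obtain ⟨g, rfl⟩ := QuotientGroup.mk_surjective q
    rw [pow_zero, pow_one]
    exact (QuotientGroup.eq_one_iff g).mpr (Subgroup.mem_top g)
  by_cases hr1 : r ≤ 1
  · obtain ⟨lam, hlam⟩ := hθ.deg_le_one (theta_virt _) hr hr1
    exact old_main hζ hL hP hmon' τ₀ Nat.prime_two ⊤ htopP lam (fun k _ => hlam k) ρ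
  have hr2 : r = 2 := by
    rw [htop] at hz
    have h2 : ((r : ℤ) : WithTop ℤ) ≤ ((2 : ℤ) : WithTop ℤ) := hz
    have h3 : (r : ℤ) ≤ 2 := WithTop.coe_le_coe.mp h2
    omega
  rw [hr2] at hr
  have hr' : (theta (ords (L τ₀) c) : G → ℂ) 1 = 2 := by rw [hr]; norm_num
  have hb := base_change τ₀ ρ
  have hbV := virt_of_closure hb
  rcases classify hθH hr' (qf_ords hL hquat) with ⟨l₁, l₂, hs⟩ | ⟨N, a, b, himp, hab⟩
  · by_cases hl : l₁ = l₂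
    · refine old_main hζ hL hP hmon' τ₀ Nat.prime_two ⊤ htopP l₁ (fun k _ => ?_) ρ
      rw [hs k, hr', hl]; ring
    · obtain ⟨Z, hZ, h2⟩ := split_decomp hθ hs hl
      obtain ⟨k₁, k₂, h3, h4, h5⟩ := h2 _ hbV
      have hlin : ∀ l : G →* ℂˣ, ∃ n : ℕ, pr (fun g => τ₀ (ρ.character g)) (lc l) = n := by
        intro l
        refine nat_closure (fun η hη => ?_) hb
        by_cases he : η = lc l
        · exact ⟨1, by rw [he, pr_self (lin_irr l)]; simp⟩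
        · exact ⟨0, by rw [pr_ne hη (lin_irr l) he]; simp⟩
      obtain ⟨n₁, hn₁⟩ := hlin l₁
      obtain ⟨n₂, hn₂⟩ := hlin l₂
      have e1 : k₁ = n₁ := by
        rw [hn₁] at h3; exact_mod_cast h3.symm
      have e2 : k₂ = n₂ := by
        rw [hn₂] at h4; exact_mod_cast h4.symm
      rw [e1, e2, natCast_zsmul, natCast_zsmul] at h5
      exact finish hζ hL hP hmon' τ₀ (add_mem (nsmul_mem (mono_memP hZ _) n₁)
        (nsmul_mem (mono_memP hZ _) n₂)) h5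
  · obtain ⟨Z, ω, hZ, h2⟩ := imp_decomp hθ himp hab
    obtain ⟨k, h3, h4⟩ := h2 _ hbV
    obtain ⟨n, hn⟩ := nat_closure (fun χ hχ => himp.nat hχ) hb
    have e1 : k = n := by
      rw [hn] at h3; exact_mod_cast h3.symm
    rw [e1, natCast_zsmul] at h4
    exact finish hζ hL hP hmon' τ₀ (nsmul_mem (mono_memP hZ _) n) h4

end two

section rat

variable {G : Type} [Group G] [Finite G] {E : Type} [Field E]
  {ℓ : (G → ℂ) → ℂ → ℂ} {P : (E →+* ℂ) → (G → ℂ) → ℂ} {c : ℂ}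

/-- the support of the orders is stable under complex conjugation -/
lemma supp_conj_sol {ζ : E} (hζ : IsPrimitiveRoot ζ (Monoid.exponent G))
    (hL : ∀ χ ∈ Irr G, MeromorphicAt (ℓ χ) c ∧ meromorphicOrderAt (ℓ χ) c ≠ ⊤)
    (hP : ∀ τ, ∀ χ ∈ Irr G, P τ χ ≠ 0)
    (hmon : ∀ (U : Subgroup G) (ψ : U →* Eˣ), Group.IsSolvable U →
      Deligne (fun _ => ℓ) P c (ind U (fun u => ((ψ u : Eˣ) : E)))) (τ₀ : E →+* ℂ)
    (U : Subgroup G) (hU : Group.IsSolvable U) (ψ : U →* ℂˣ) :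
    pr (theta (ords ℓ c) : G → ℂ) (ind U (lc ψ)) = 0 ↔
      pr (theta (ords ℓ c) : G → ℂ) (ind U (lc ψ⁻¹)) = 0 := by
  obtain ⟨ψE, hψE⟩ := lift_char hζ τ₀ U ψ
  obtain ⟨e, he⟩ := delZ_ind (hmon U ψE hU)
  rw [unit_iff hL hP he τ₀ hψE, unit_iff hL hP he ((starRingEnd ℂ).comp τ₀)]
  intro u
  rw [RingHom.comp_apply, hψE, conj_char]
  rfl

/-- reality outside the kernel of the determinant -/
lemma real_out_sol {θ : G → ℂ} (hθ : IsHeilbronn θ) (h1 : θ 1 = 2)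
    (hc : ∀ (U : Subgroup G), Group.IsSolvable U → ∀ (ψ : U →* ℂˣ), pr θ (ind U (lc ψ)) = 0 ↔
      pr θ (ind U (lc ψ⁻¹)) = 0) (g : G) (hg : dd θ g ≠ 1) : θ g = 0 ∧ θ (g * g) = 2 := by
  classical
  -- the general statement for a function which is used only on the cyclic subgroup of `g`
  have hcyc : ∀ ψ : Subgroup.zpowers g →* ℂˣ, pr θ (ind (Subgroup.zpowers g) (lc ψ)) = 0 ↔
      pr θ (ind (Subgroup.zpowers g) (lc ψ⁻¹)) = 0 := fun ψ =>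
    hc _ (sol_of_comm fun a b => by
      obtain ⟨x, i, rfl⟩ := a
      obtain ⟨y, j, rfl⟩ := b
      apply Subtype.ext
      change g ^ i * g ^ j = g ^ j * g ^ i
      rw [← zpow_add, ← zpow_add, add_comm]) ψ
  obtain ⟨ψ, φ, hs⟩ := (hθ.comp (Subgroup.zpowers g).subtype).comm_two (zpowers_comm g)
    (by simpa using h1)
  let x : Subgroup.zpowers g := ⟨g, Subgroup.mem_zpowers g⟩
  have hs' : ∀ e : Subgroup.zpowers g, θ e = ((ψ e : ℂˣ) : ℂ) + ((φ e : ℂˣ) : ℂ) := hs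
  have hdd : dd θ g = ((ψ x : ℂˣ) : ℂ) * ((φ x : ℂˣ) : ℂ) :=
    dd_of_sum (θ := fun e : Subgroup.zpowers g => θ e) hs' x
  have hpr : ∀ ω : Subgroup.zpowers g →* ℂˣ, pr θ (ind (Subgroup.zpowers g) (lc ω))
      = (if ψ = ω then 1 else 0) + (if φ = ω then 1 else 0) := by
    intro ω
    rw [frob' _ _ hθ.conj, pr_two ψ φ ω hs']
  have hz : ∀ ω : Subgroup.zpowers g →* ℂˣ,
      ((if ψ = ω then (1 : ℂ) else 0) + (if φ = ω then 1 else 0) = 0) ↔ ¬ (ψ = ω ∨ φ = ω) := by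
    intro ω
    by_cases a1 : ψ = ω
    · rw [if_pos a1]
      refine ⟨fun h => ?_, fun h => absurd (Or.inl a1) h⟩
      by_cases a2 : φ = ω
      · rw [if_pos a2] at h; norm_num at h
      · rw [if_neg a2] at h; norm_num at h
    · rw [if_neg a1]
      by_cases a2 : φ = ω
      · rw [if_pos a2]
        exact ⟨fun h => by norm_num at h, fun h => absurd (Or.inr a2) h⟩
      · rw [if_neg a2]
        exact ⟨fun _ h => h.elim a1 a2, fun _ => by norm_num⟩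
  have hii : ∀ ω : Subgroup.zpowers g →* ℂˣ, ω⁻¹⁻¹ = ω := by
    intro ω
    ext y
    simp
  have hmem : ∀ ω : Subgroup.zpowers g →* ℂˣ, (ψ = ω ∨ φ = ω) ↔ (ψ = ω⁻¹ ∨ φ = ω⁻¹) := by
    intro ω
    have h2 := hcyc ω
    rw [hpr, hpr, hz, hz, not_iff_not] at h2
    exact h2
  have hne : ψ⁻¹ ≠ φ := by
    intro h2
    apply hg
    rw [hdd, ← h2, MonoidHom.inv_apply, ← Units.val_mul, mul_inv_cancel, Units.val_one]
  have hψ : ψ = ψ⁻¹ := by
    rcases (hmem ψ).mp (Or.inl rfl) with h2 | h2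
    · exact h2
    · exact absurd h2.symm hne
  have hφ : φ = φ⁻¹ := by
    rcases (hmem φ).mp (Or.inr rfl) with h2 | h2
    · exact absurd (by rw [h2, hii]) hne
    · exact h2
  have hsq : ∀ ω : Subgroup.zpowers g →* ℂˣ, ω = ω⁻¹ →
      ((ω x : ℂˣ) : ℂ) = 1 ∨ ((ω x : ℂˣ) : ℂ) = -1 := by
    intro ω hω
    have h2 : ω x * ω x = 1 := by
      have h4 : ω x = (ω x)⁻¹ := congrArg (fun f : Subgroup.zpowers g →* ℂˣ => f x) hω
      conv_lhs => rw [h4]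
      rw [← h4]
      conv_lhs =>
        enter [1]
        rw [h4]
      exact inv_mul_cancel _
    have h3 : ((ω x : ℂˣ) : ℂ) * ((ω x : ℂˣ) : ℂ) = 1 := by
      rw [← Units.val_mul, h2, Units.val_one]
    exact mul_self_eq_one_iff.mp h3
  have e1 : θ g = ((ψ x : ℂˣ) : ℂ) + ((φ x : ℂˣ) : ℂ) := hs' x
  have e2 : θ (g * g) = ((ψ x : ℂˣ) : ℂ) * ((ψ x : ℂˣ) : ℂ)
      + ((φ x : ℂˣ) : ℂ) * ((φ x : ℂˣ) : ℂ) := by
    have h2 := hs' (x * x)
    rw [map_mul, map_mul, Units.val_mul, Units.val_mul] at h2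
    exact h2
  rw [hdd] at hg
  rcases hsq ψ hψ with h2 | h2 <;> rcases hsq φ hφ with h3 | h3 <;> rw [h2, h3] at hg e1 e2
  · exact absurd (by norm_num) hg
  · exact ⟨by rw [e1]; norm_num, by rw [e2]; norm_num⟩
  · exact ⟨by rw [e1]; norm_num, by rw [e2]; norm_num⟩
  · exact absurd (by norm_num) hg

/-- **Order at most two, rational coefficients.** -/
theorem main_rat_sol [NumberField E] {ζ : E} (hζ : IsPrimitiveRoot ζ (Monoid.exponent G))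
    (hL : ∀ χ ∈ Irr G, MeromorphicAt (ℓ χ) c ∧ meromorphicOrderAt (ℓ χ) c ≠ ⊤)
    (hP : ∀ τ, ∀ χ ∈ Irr G, P τ χ ≠ 0)
    (hmon : ∀ (U : Subgroup G) (ψ : U →* Eˣ), Group.IsSolvable U →
      Deligne (fun _ => ℓ) P c (ind U (fun u => ((ψ u : Eˣ) : E))))
    {deg : (G → ℂ) → ℕ} (hdeg : ∀ χ ∈ Irr G, χ 1 = deg χ)
    (hz : meromorphicOrderAt (fun s => ∏ᶠ χ ∈ Irr G, ℓ χ s ^ deg χ) c ≤ 2)
    {V : Type} [AddCommGroup V] [Module ℚ V] [FiniteDimensional ℚ V] (ρ : Representation ℚ G V)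
    {m : (G → ℂ) → ℕ} (hm : IsDecomp (cch ρ) m)
    (hpole : 0 ≤ meromorphicOrderAt (fun s => ∏ᶠ χ ∈ Irr G, ℓ χ s ^ m χ) c) :
    Deligne (fun _ => ℓ) P c (fun g => algebraMap ℚ E (ρ.character g)) := by
  classical
  obtain ⟨τ₀⟩ : Nonempty (E →+* ℂ) := inferInstance
  have hL' : ∀ τ : E →+* ℂ, ∀ χ ∈ Irr G, MeromorphicAt ((fun _ : E →+* ℂ => ℓ) τ χ) c ∧
      meromorphicOrderAt ((fun _ : E →+* ℂ => ℓ) τ χ) c ≠ ⊤ := fun _ => hL
  have hmon' : ∀ (U : Subgroup G) (ψ : U →* Eˣ), Hyper U →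
      Deligne (fun _ => ℓ) P c (ind U (fun u => ((ψ u : Eˣ) : E))) := fun U ψ hU => hmon U ψ hU.solvable
  have hF : (fun g => τ₀ (algebraMap ℚ E (ρ.character g))) = cch ρ := by
    funext g
    rw [eq_ratCast, map_ratCast]
    rfl
  have hb : (fun g => τ₀ (algebraMap ℚ E (ρ.character g))) ∈ AddSubmonoid.closure (Irr G) := by
    rw [hF]; exact cch_mem ρ
  have hθ : HH (theta (ords ℓ c) : G → ℂ) := hh_ords hζ hL' hmon' τ₀
  have hθH : IsHeilbronn (theta (ords ℓ c) : G → ℂ) := heil_sol hζ hL' hmon τ₀ hdeg hz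
  have htop := top_order hL deg
  have hone := theta_one_eq (c := c) (l := ℓ) hdeg
  obtain ⟨r, hr⟩ := hθ.deg
  have h1 : (∑ χ ∈ irrF G, (deg χ : ℤ) * ords ℓ c χ) = (r : ℤ) := by
    rw [hone] at hr
    exact_mod_cast hr
  rw [h1] at htop
  by_cases hr1 : r ≤ 1
  · obtain ⟨lam, hlam⟩ := hθ.deg_le_one (theta_virt _) hr hr1
    exact old_main' hζ hL' hP hmon' τ₀ Nat.prime_two ⊤ top_pgroup lam (fun k _ => hlam k) hb
  have hr2 : r = 2 := by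
    rw [htop] at hz
    have h2 : ((r : ℤ) : WithTop ℤ) ≤ ((2 : ℤ) : WithTop ℤ) := hz
    have h3 : (r : ℤ) ≤ 2 := WithTop.coe_le_coe.mp h2
    omega
  rw [hr2] at hr
  have hr' : (theta (ords ℓ c) : G → ℂ) 1 = 2 := by rw [hr]; norm_num
  obtain ⟨D, hD⟩ := hθH.exists_det hr'
  by_cases hne : ∃ g, D g ≠ 1
  · have hreal : ∀ g, D g ≠ 1 → (theta (ords ℓ c) : G → ℂ) g = 0 ∧
        (theta (ords ℓ c) : G → ℂ) (g * g) = 2 := by
      intro g hg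
      refine real_out_sol hθH hr' (fun U hU ψ => supp_conj_sol hζ hL hP hmon τ₀ U hU ψ) g ?_
      rw [← hD]
      intro h2
      exact hg (Units.ext h2)
    rcases real_case hθH hr' hD hreal hne with hs | ⟨N, a, b, himp, hab⟩
    · exact main_split hζ hL' hP hmon' τ₀ hr' hs hb
    · exact main_imp hζ hL' hP hmon' τ₀ himp hab hb
  · have hd : ∀ g, dd (theta (ords ℓ c) : G → ℂ) g = 1 := by
      intro g
      by_contra h2
      apply hne
      refine ⟨g, fun h3 => h2 ?_⟩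
      rw [← hD, h3, Units.val_one]
    obtain ⟨k, hk, hgood⟩ := rat_decomp ρ hθH hr' hd
    have hk0 : 0 ≤ k := by
      have h3 := order_prod hL (irrF G) subset_rfl (fun χ => (m χ : ℤ))
      have h4 : (fun s => ∏ᶠ χ ∈ Irr G, ℓ χ s ^ m χ)
          = fun z => ∏ χ ∈ irrF G, ℓ χ z ^ ((m χ : ℕ) : ℤ) := by
        funext s
        rw [finprod_irr (fun χ => ℓ χ s ^ m χ)]
        exact Finset.prod_congr rfl fun χ _ => by rw [zpow_natCast]
      rw [h4, h3.2] at hpole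
      have h5 := pr_ords (l := ℓ) (c := c) (m := fun χ => (m χ : ℤ))
        (fun χ hχ => by rw [hm.pr hχ]; simp)
      rw [pr_comm, hk] at h5
      have h6 : (0 : ℤ) ≤ ∑ χ ∈ irrF G, (m χ : ℤ) * ords ℓ c χ := by exact_mod_cast hpole
      have h7 : 2 * k = ∑ χ ∈ irrF G, (m χ : ℤ) * ords ℓ c χ := by exact_mod_cast h5
      omega
    obtain ⟨n, rfl⟩ := Int.eq_ofNat_of_zero_le hk0
    refine finish hζ hL' hP hmon' τ₀ (a := (n : ℕ) • ind (⊥ : Subgroup G) (fun _ => (1 : ℂ))) ?_ ?_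
    · refine nsmul_mem ?_ n
      have h3 := mono_memP (G := G) hyper_bot (1 : (⊥ : Subgroup G) →* ℂˣ)
      exact h3
    · rw [hF, ← natCast_zsmul]
      exact hgood

/-- **The rational form.** -/
theorem main_rat_sol' [NumberField E] {ζ : E} (hζ : IsPrimitiveRoot ζ (Monoid.exponent G))
    (hL : ∀ χ ∈ Irr G, MeromorphicAt (ℓ χ) c ∧ meromorphicOrderAt (ℓ χ) c ≠ ⊤)
    (hP : ∀ τ, ∀ χ ∈ Irr G, P τ χ ≠ 0)
    (hmon : ∀ (U : Subgroup G) (ψ : U →* Eˣ), Group.IsSolvable U →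
      Deligne (fun _ => ℓ) P c (ind U (fun u => ((ψ u : Eˣ) : E))))
    {deg : (G → ℂ) → ℕ} (hdeg : ∀ χ ∈ Irr G, χ 1 = deg χ)
    (hz : meromorphicOrderAt (fun s => ∏ᶠ χ ∈ Irr G, ℓ χ s ^ deg χ) c ≤ 2)
    {V : Type} [AddCommGroup V] [Module ℚ V] [FiniteDimensional ℚ V] (ρ : Representation ℚ G V)
    {m : (G → ℂ) → ℕ} (hm : IsDecomp (fun g => ((ρ.character g : ℚ) : ℂ)) m)
    (hpole : 0 ≤ meromorphicOrderAt (fun s => ∏ᶠ χ ∈ Irr G, ℓ χ s ^ m χ) c)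
    {Ω : ℂ} {u : E} (hΩ : ∀ τ : E →+* ℂ, ∏ᶠ χ ∈ Irr G, P τ χ ^ m χ = τ u * Ω) :
    ∃ q : ℚ, Tendsto (fun s => ∏ᶠ χ ∈ Irr G, ℓ χ s ^ m χ) (𝓝[≠] c) (𝓝 (q * Ω)) := by
  classical
  obtain ⟨e, he⟩ := main_rat_sol hζ hL hP hmon hdeg hz ρ hm hpole
  have hF : ∀ τ : E →+* ℂ, (fun g => τ (algebraMap ℚ E (ρ.character g)))
      = fun g => ((ρ.character g : ℚ) : ℂ) := by
    intro τ
    funext g
    rw [eq_ratCast, map_ratCast]
  have h1 : ∀ τ : E →+* ℂ, Tendsto (fun s => ∏ᶠ χ ∈ Irr G, ℓ χ s ^ m χ) (𝓝[≠] c)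
      (𝓝 (τ (e * u) * Ω)) := by
    intro τ
    have h2 := he τ m (by rw [hF]; exact hm)
    rw [hΩ, ← mul_assoc, ← map_mul] at h2
    exact h2
  obtain ⟨τ₀⟩ : Nonempty (E →+* ℂ) := inferInstance
  have hΩ0 : Ω ≠ 0 := by
    intro h0
    have h2 := hΩ τ₀
    rw [h0, mul_zero, finprod_irr (fun χ => P τ₀ χ ^ m χ)] at h2
    exact Finset.prod_ne_zero_iff.mpr (fun χ hχ => pow_ne_zero _ (hP τ₀ χ (mem_irrF.mp hχ))) h2
  obtain ⟨q, hq⟩ := rat_of_embeddings (e * u) (τ₀ (e * u)) (fun τ => by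
    have h2 := tendsto_nhds_unique (h1 τ) (h1 τ₀)
    exact mul_right_cancel₀ hΩ0 h2)
  refine ⟨q, ?_⟩
  have h2 := h1 τ₀
  rw [← hq, eq_ratCast, map_ratCast] at h2
  exact h2


end rat

end Pool.Agent.U143.RG
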