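import Pool.Agent.U143.RG.Del2

/-!
# Rational coefficients
-/

set_option autoImplicit false
set_option linter.unusedSectionVars false

namespace Pool.Agent.U143.RG

open Pool.Agent.R389 Pool.Agent.H302R2 Pool.Agent.H302R3 Pool.Agent.H541R3.ART Pool.Agent.W446.AS
  Filter Topology

/-- a function with a functional equation `s ↔ 2 c - s` of sign one has an even order at `c` -/
theorem even_order {f γ : ℂ → ℂ} {c : ℂ} (hf : MeromorphicAt f c)
    (hne : meromorphicOrderAt f c ≠ ⊤) (hγ : ContinuousAt γ c) (h1 : γ c = 1)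
    (h : ∀ᶠ s in 𝓝[≠] c, f s = γ s * f (2 * c - s)) :
    Even (meromorphicOrderAt f c).untop₀ := by
  obtain ⟨g, hg, hg0, hgf⟩ := (meromorphicOrderAt_ne_top_iff hf).mp hne
  set n : ℤ := (meromorphicOrderAt f c).untop₀ with hn
  have hmap : Tendsto (fun s : ℂ => 2 * c - s) (𝓝[≠] c) (𝓝[≠] c) := by
    refine tendsto_nhdsWithin_iff.mpr ⟨?_, ?_⟩
    · have h2 : Tendsto (fun s : ℂ => 2 * c - s) (𝓝 c) (𝓝 (2 * c - c)) :=
        (continuous_const.sub continuous_id).tendsto c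
      have h3 : 2 * c - c = c := by ring
      rw [h3] at h2
      exact h2.mono_left nhdsWithin_le_nhds
    · filter_upwards [self_mem_nhdsWithin] with s hs
      intro h4
      apply hs
      have h5 : 2 * c - s = c := h4
      change s = c
      linear_combination -h5
  have h2 : ∀ᶠ s in 𝓝[≠] c, g s = (-1) ^ n * (γ s * g (2 * c - s)) := by
    filter_upwards [h, hgf, hmap.eventually hgf, self_mem_nhdsWithin] with s h3 h4 h5 h6
    have h7 : s - c ≠ 0 := sub_ne_zero.mpr h6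
    have h8 : (2 * c - s - c) ^ n = (-1) ^ n * (s - c) ^ n := by
      rw [← mul_zpow]
      congr 1
      ring
    rw [h4, h5, h8, smul_eq_mul, smul_eq_mul] at h3
    have h9 : (s - c) ^ n ≠ 0 := zpow_ne_zero _ h7
    apply mul_left_cancel₀ h9
    rw [h3]
    ring
  have h3 : Tendsto g (𝓝[≠] c) (𝓝 (g c)) := hg.continuousAt.tendsto.mono_left nhdsWithin_le_nhds
  have h4 : Tendsto (fun s => (-1 : ℂ) ^ n * (γ s * g (2 * c - s))) (𝓝[≠] c)
      (𝓝 ((-1) ^ n * (1 * g c))) := by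
    refine (Tendsto.mul ?_ (h3.comp hmap)).const_mul _
    rw [← h1]
    exact hγ.tendsto.mono_left nhdsWithin_le_nhds
  have h5 : g c = (-1) ^ n * (1 * g c) := tendsto_nhds_unique (h3.congr' h2) h4
  have h6 : ((-1 : ℂ)) ^ n = 1 := by
    have h7 : (1 - (-1 : ℂ) ^ n) * g c = 0 := by linear_combination h5
    rcases mul_eq_zero.mp h7 with h8 | h8
    · linear_combination -h8
    · exact absurd h8 hg0
  by_contra hcon
  rw [Int.not_even_iff_odd] at hcon
  rw [hcon.neg_one_zpow] at h6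
  norm_num at h6

section gen

variable {G : Type} [Group G] [Finite G] {E : Type} [Field E]
  {L : (E →+* ℂ) → (G → ℂ) → ℂ → ℂ} {P : (E →+* ℂ) → (G → ℂ) → ℂ} {c : ℂ}

/-- functions without invariants -/
theorem new_of_inv {ζ : E} (hζ : IsPrimitiveRoot ζ (Monoid.exponent G))
    (hL : ∀ τ, ∀ χ ∈ Irr G, MeromorphicAt (L τ χ) c ∧ meromorphicOrderAt (L τ χ) c ≠ ⊤)
    (hP : ∀ τ, ∀ χ ∈ Irr G, P τ χ ≠ 0)
    (hmon : ∀ (U : Subgroup G) (ψ : U →* Eˣ), Tame U →
      Deligne L P c (ind U (fun u => ((ψ u : Eˣ) : E)))) (τ₀ : E →+* ℂ)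
    (K : Subgroup G) [K.Normal]
    (hK : ∀ k ∈ K, (theta (ords (L τ₀) c) : G → ℂ) k = (theta (ords (L τ₀) c) : G → ℂ) 1)
    {f : G → E} (hV : Virt (fun g => τ₀ (f g))) (h0 : inv K (fun g => τ₀ (f g)) = 0) :
    ∃ e : E, e ≠ 0 ∧ DelZ L P c f e := by
  have h1 := relative_brauer K hV h0
  have h2 := new_twistT K 1 h1
  have hback : twHom 1 (fun g => τ₀ (f g)) = fun g => τ₀ (f g) := by
    funext g
    change τ₀ (f g) * (((1 : G →* ℂˣ) g : ℂˣ) : ℂ) = τ₀ (f g)
    simp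
  rw [AddSubgroup.mem_comap, hback] at h2
  obtain ⟨F, e, hF, he0, hFe⟩ := new_unitT hζ hL hP hmon τ₀ (lam := 1)
    (fun k hk => by rw [hK k hk]; simp) h2
  have h3 : f = F := by
    funext g
    exact τ₀.injective (hF g).symm
  rw [h3]
  exact ⟨e, he0, hFe⟩

/-- the mean over the cosets of `K` of the character of a representation without vectors fixed by `K` -/
lemma inv_char_zero {k : Type} [Field k] [CharZero k] (j : k →+* ℂ) (K : Subgroup G)
    {V : Type} [AddCommGroup V] [Module k V] [FiniteDimensional k V] (ρ : Representation k G V)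
    (hρ : ∀ v, (∀ k ∈ K, ρ k v = v) → v = 0) : inv K (fun g => j (ρ.character g)) = 0 := by
  classical
  have : Fintype K := Fintype.ofFinite K
  have hav : ∀ g : G, ∑ k : K, ρ (g * k) = 0 := by
    intro g
    refine LinearMap.ext fun v => ?_
    have h1 : ∑ k : K, ρ k v = 0 := by
      refine hρ _ fun h hh => ?_
      rw [map_sum]
      refine Fintype.sum_equiv (Equiv.mulLeft (⟨h, hh⟩ : K)) _ _ fun k => ?_
      change ρ h (ρ k v) = ρ ((h : G) * (k : G)) v
      rw [map_mul]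
      rfl
    have h2 : ∀ k : K, ρ (g * k) v = ρ g (ρ k v) := fun k => by
      rw [map_mul]
      rfl
    rw [LinearMap.sum_apply, Finset.sum_congr rfl (fun k _ => h2 k), ← map_sum, h1, map_zero]
    rfl
  funext g
  rw [inv_eq]
  have h1 : ∑ k : K, j (ρ.character (g * k)) = 0 := by
    rw [← map_sum]
    have h2 : ∑ k : K, ρ.character (g * k) = LinearMap.trace _ V (∑ k : K, ρ (g * k)) := by
      rw [map_sum]
      rfl
    rw [h2, hav g, map_zero, map_zero]
  rw [h1, mul_zero]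
  rfl

/-- the order from a limit -/
lemma order_of_limit {τ : E →+* ℂ}
    (hL : ∀ χ ∈ Irr G, MeromorphicAt (L τ χ) c ∧ meromorphicOrderAt (L τ χ) c ≠ ⊤)
    {m : (G → ℂ) → ℕ} {a : ℂ}
    (h : Tendsto (fun s => ∏ᶠ χ ∈ Irr G, L τ χ s ^ m χ) (𝓝[≠] c) (𝓝 a)) :
    0 ≤ meromorphicOrderAt (fun s => ∏ᶠ χ ∈ Irr G, L τ χ s ^ m χ) c ∧
    (a ≠ 0 → meromorphicOrderAt (fun s => ∏ᶠ χ ∈ Irr G, L τ χ s ^ m χ) c = 0) := by
  classical
  have h3 := order_prod hL (irrF G) subset_rfl (fun χ => (m χ : ℤ))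
  have h4 : (fun s => ∏ᶠ χ ∈ Irr G, L τ χ s ^ m χ)
      = fun z => ∏ χ ∈ irrF G, L τ χ z ^ ((m χ : ℕ) : ℤ) := by
    funext s
    rw [finprod_irr (fun χ => L τ χ s ^ m χ)]
    exact Finset.prod_congr rfl fun χ _ => by rw [zpow_natCast]
  rw [h4] at h ⊢
  exact ⟨(tendsto_nhds_iff_meromorphicOrderAt_nonneg h3.1).mp ⟨_, h⟩, fun ha =>
    (tendsto_ne_zero_iff_meromorphicOrderAt_eq_zero h3.1).mp ⟨_, ha, h⟩⟩

end gen

section rat

variable {G : Type} [Group G] [Finite G] {E : Type} [Field E]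
  {ℓ : (G → ℂ) → ℂ → ℂ} {P : (E →+* ℂ) → (G → ℂ) → ℂ} {c : ℂ}

/-- descent of the coefficients to `ℚ` -/
theorem rat_of_deligne [NumberField E] (hP : ∀ τ, ∀ χ ∈ Irr G, P τ χ ≠ 0) {f : G → E} {F : G → ℂ}
    (hF : ∀ (τ : E →+* ℂ) (g : G), τ (f g) = F g) (hD : Deligne (fun _ => ℓ) P c f)
    {m : (G → ℂ) → ℕ} (hm : IsDecomp F m) {Ω : ℂ} {u : E}
    (hΩ : ∀ τ : E →+* ℂ, ∏ᶠ χ ∈ Irr G, P τ χ ^ m χ = τ u * Ω) :
    ∃ q : ℚ, Tendsto (fun s => ∏ᶠ χ ∈ Irr G, ℓ χ s ^ m χ) (𝓝[≠] c) (𝓝 (q * Ω)) := by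
  classical
  obtain ⟨e, he⟩ := hD
  have h1 : ∀ τ : E →+* ℂ, Tendsto (fun s => ∏ᶠ χ ∈ Irr G, ℓ χ s ^ m χ) (𝓝[≠] c)
      (𝓝 (τ (e * u) * Ω)) := by
    intro τ
    have h2 := he τ m (by
      have h3 : (fun g => τ (f g)) = F := funext (hF τ)
      rw [h3]; exact hm)
    rw [hΩ, ← mul_assoc, ← map_mul] at h2
    exact h2
  obtain ⟨τ₀⟩ : Nonempty (E →+* ℂ) := inferInstance
  have hΩ0 : Ω ≠ 0 := by
    intro h0
    have h2 := hΩ τ₀
    rw [h0, mul_zero, finprod_irr (fun χ => P τ₀ χ ^ m χ)] at h2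
    exact Finset.prod_ne_zero_iff.mpr (fun χ hχ => pow_ne_zero _ (hP τ₀ χ (mem_irrF.mp hχ))) h2
  obtain ⟨q, hq⟩ := rat_of_embeddings (e * u) (τ₀ (e * u)) (fun τ => by
    have h2 := tendsto_nhds_unique (h1 τ) (h1 τ₀)
    exact mul_right_cancel₀ hΩ0 h2)
  refine ⟨q, ?_⟩
  have h2 := h1 τ₀
  rw [← hq, eq_ratCast, map_ratCast] at h2
  exact h2

/-- base change of a rational representation to `E` -/
lemma exists_base [CharZero E] {V : Type} [AddCommGroup V] [Module ℚ V] [FiniteDimensional ℚ V]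
    (ρ : Representation ℚ G V) : ∃ σ : Representation E G (Fin (Module.finrank ℚ V) → E),
      ∀ g, σ.character g = algebraMap ℚ E (ρ.character g) := by
  classical
  let b := Module.finBasis ℚ V
  let M : G →* Matrix (Fin (Module.finrank ℚ V)) (Fin (Module.finrank ℚ V)) ℚ :=
    { toFun := fun g => LinearMap.toMatrix b b (ρ g)
      map_one' := by rw [map_one]; exact LinearMap.toMatrix_one b
      map_mul' := by intro x y; rw [map_mul]; exact LinearMap.toMatrix_mul b _ _ }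
  let τ := algebraMap ℚ E
  let σ : Representation E G (Fin (Module.finrank ℚ V) → E) :=
    { toFun := fun g => Matrix.toLin' ((M g).map τ)
      map_one' := by
        rw [map_one, Matrix.map_one τ (map_zero τ) (map_one τ), Matrix.toLin'_one]
        rfl
      map_mul' := by
        intro x y
        rw [map_mul, Matrix.map_mul, Matrix.toLin'_mul]
        rfl }
  refine ⟨σ, fun g => ?_⟩
  change LinearMap.trace E _ (Matrix.toLin' ((M g).map τ)) = τ (LinearMap.trace ℚ V (ρ g))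
  rw [LinearMap.trace_eq_matrix_trace ℚ b (ρ g), Matrix.trace_toLin'_eq, Matrix.trace,
    Matrix.trace, map_sum]
  rfl

/-- the permutation representation on the cosets of `U` -/
lemma exists_perm (U : Subgroup G) : ∃ ρ : Representation ℚ G (G ⧸ U → ℚ),
    ∀ g, ((ρ.character g : ℚ) : ℂ) = ind U (fun _ => (1 : ℂ)) g := by
  classical
  have : Fintype G := Fintype.ofFinite G
  have : Fintype U := Fintype.ofFinite U
  have : Fintype (G ⧸ U) := Fintype.ofFinite _
  let ρ : Representation ℚ G (G ⧸ U → ℚ) :=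
    { toFun := fun g => LinearMap.funLeft ℚ ℚ (fun q : G ⧸ U => g⁻¹ • q)
      map_one' := by
        refine LinearMap.ext fun v => funext fun q => ?_
        change v ((1 : G)⁻¹ • q) = v q
        rw [inv_one, one_smul]
      map_mul' := by
        intro x y
        refine LinearMap.ext fun v => funext fun q => ?_
        change v ((x * y)⁻¹ • q) = v (y⁻¹ • x⁻¹ • q)
        rw [mul_inv_rev, mul_smul] }
  refine ⟨ρ, fun g => ?_⟩
  have h1 : ρ.character g = ∑ q : G ⧸ U, if g⁻¹ • q = q then (1 : ℚ) else 0 := by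
    change LinearMap.trace ℚ (G ⧸ U → ℚ) (LinearMap.funLeft ℚ ℚ (fun q : G ⧸ U => g⁻¹ • q)) = _
    rw [LinearMap.trace_eq_matrix_trace ℚ (Pi.basisFun ℚ (G ⧸ U)), Matrix.trace]
    refine Finset.sum_congr rfl fun q _ => ?_
    rw [Matrix.diag_apply, LinearMap.toMatrix_apply]
    change (Pi.basisFun ℚ (G ⧸ U)).repr (LinearMap.funLeft ℚ ℚ (fun q : G ⧸ U => g⁻¹ • q)
      (Pi.basisFun ℚ (G ⧸ U) q)) q = _
    rw [Pi.basisFun_repr, Pi.basisFun_apply, LinearMap.funLeft_apply, Pi.single_apply]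
  rw [h1, ind_eq]
  have hU0 : (Nat.card U : ℂ) ≠ 0 := card_ne
  have h2 : ∑ x : G, ext U (fun _ => (1 : ℂ)) (x⁻¹ * g * x)
      = ∑ x : G, if g⁻¹ • (QuotientGroup.mk x : G ⧸ U) = QuotientGroup.mk x then (1 : ℂ) else 0 := by
    refine Finset.sum_congr rfl fun x _ => ?_
    have h3 : g⁻¹ • (QuotientGroup.mk x : G ⧸ U) = QuotientGroup.mk x ↔ x⁻¹ * g * x ∈ U := by
      change (QuotientGroup.mk (g⁻¹ * x) : G ⧸ U) = QuotientGroup.mk x ↔ _
      rw [QuotientGroup.eq]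
      have h4 : (g⁻¹ * x)⁻¹ * x = x⁻¹ * g * x := by group
      rw [h4]
    by_cases hx : x⁻¹ * g * x ∈ U
    · rw [ext_mem _ _ hx, if_pos (h3.mpr hx)]
    · rw [ext_not _ _ hx, if_neg (fun h => hx (h3.mp h))]
  rw [h2]
  have h3 : ∑ x : G, (if g⁻¹ • (QuotientGroup.mk x : G ⧸ U) = QuotientGroup.mk x then (1 : ℂ) else 0)
      = Nat.card U * ∑ q : G ⧸ U, if g⁻¹ • q = q then (1 : ℂ) else 0 := by
    rw [← Finset.sum_fiberwise (Finset.univ : Finset G) (fun x => (QuotientGroup.mk x : G ⧸ U)),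
      Finset.mul_sum]
    refine Finset.sum_congr rfl fun q _ => ?_
    have h5 : ∀ x ∈ Finset.univ.filter (fun x : G => (QuotientGroup.mk x : G ⧸ U) = q),
        (if g⁻¹ • (QuotientGroup.mk x : G ⧸ U) = QuotientGroup.mk x then (1 : ℂ) else 0)
          = if g⁻¹ • q = q then 1 else 0 := by
      intro x hx
      rw [(Finset.mem_filter.mp hx).2]
    rw [Finset.sum_congr rfl h5, Finset.sum_const, nsmul_eq_mul]
    congr 2
    obtain ⟨y, rfl⟩ := QuotientGroup.mk_surjective q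
    rw [← Fintype.card_subtype, ← Nat.card_eq_fintype_card]
    refine Nat.card_congr ⟨fun x => ⟨y⁻¹ * x.1, QuotientGroup.eq.mp x.2.symm⟩,
      fun u => ⟨y * u.1, ?_⟩, fun x => ?_, fun u => ?_⟩
    · rw [eq_comm, QuotientGroup.eq]; simp
    · apply Subtype.ext; simp
    · apply Subtype.ext; simp
  rw [h3, ← mul_assoc, inv_mul_cancel₀ hU0, one_mul]
  rw [Rat.cast_sum]
  exact Finset.sum_congr rfl fun q _ => by split_ifs <;> simp

end rat

end Pool.Agent.U143.RG
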