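import Pool.Agent.U143.RG.Good

/-!
# `SL_2` over a finite field of characteristic two is rigid up to degree `q - 2`
-/

set_option autoImplicit false
set_option linter.unusedSectionVars false

namespace Pool.Agent.U143.RG

open Pool.Agent.H302R2 Pool.Agent.H302R3 Pool.Agent.H302R5 Matrix

section sl2

variable {k : Type} [Field k] [CharP k 2]

/-- the upper unipotent matrices -/
def upp : Multiplicative k →* Matrix.SpecialLinearGroup (Fin 2) k where
  toFun b := ⟨!![1, Multiplicative.toAdd b; 0, 1], by simp [Matrix.det_fin_two]⟩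
  map_one' := by
    apply Subtype.ext
    ext i j
    fin_cases i <;> fin_cases j <;> simp
  map_mul' a b := by
    apply Subtype.ext
    change !![1, Multiplicative.toAdd a + Multiplicative.toAdd b; 0, 1]
      = !![1, Multiplicative.toAdd a; 0, 1] * !![1, Multiplicative.toAdd b; 0, 1]
    rw [Matrix.mul_fin_two]
    simp [add_comm]

lemma upp_coe (b : k) : ((upp (Multiplicative.ofAdd b) : Matrix.SpecialLinearGroup (Fin 2) k) :
    Matrix (Fin 2) (Fin 2) k) = !![1, b; 0, 1] := rfl

/-- a matrix with trace zero -/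
def inv2 (x y z : k) (h : x * x + y * z = 1) : Matrix.SpecialLinearGroup (Fin 2) k :=
  ⟨!![x, y; z, x], by rw [Matrix.det_fin_two_of, CharTwo.sub_eq_add]; exact h⟩

lemma inv2_coe (x y z : k) (h : x * x + y * z = 1) :
    ((inv2 x y z h : Matrix.SpecialLinearGroup (Fin 2) k) : Matrix (Fin 2) (Fin 2) k)
      = !![x, y; z, x] := rfl

lemma inv2_sq (x y z : k) (h : x * x + y * z = 1) : inv2 x y z h * inv2 x y z h = 1 := by
  apply Subtype.ext
  rw [Matrix.SpecialLinearGroup.coe_mul, inv2_coe]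
  ext i j
  fin_cases i <;> fin_cases j <;> simp [Matrix.mul_apply, Fin.sum_univ_two]
  · exact h
  · rw [mul_comm y x]; exact CharTwo.add_self_eq_zero _
  · rw [mul_comm z x]; exact CharTwo.add_self_eq_zero _
  · rw [mul_comm z y, add_comm]; exact h

variable {θ : Matrix.SpecialLinearGroup (Fin 2) k → ℂ}

lemma upp_conj [Finite k] (hθ : IsSolHeilbronn θ) {b : k} (hb : b ≠ 0) :
    θ (upp (Multiplicative.ofAdd b)) = θ (upp (Multiplicative.ofAdd 1)) := by
  have : Fact (Nat.Prime 2) := ⟨Nat.prime_two⟩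
  have hbij : Function.Bijective (frobenius k 2) :=
    Finite.injective_iff_bijective.mp (frobenius_inj k 2)
  obtain ⟨a, ha⟩ := hbij.2 b
  rw [frobenius_def] at ha
  have ha0 : a ≠ 0 := by
    rintro rfl
    apply hb
    rw [← ha]; simp
  let t : Matrix.SpecialLinearGroup (Fin 2) k := ⟨!![a, 0; 0, a⁻¹], by
    rw [Matrix.det_fin_two_of, mul_inv_cancel₀ ha0]; ring⟩
  have h1 : t * upp (Multiplicative.ofAdd 1) * t⁻¹ = upp (Multiplicative.ofAdd b) := by
    rw [mul_inv_eq_iff_eq_mul]
    apply Subtype.ext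
    rw [Matrix.SpecialLinearGroup.coe_mul, Matrix.SpecialLinearGroup.coe_mul, upp_coe, upp_coe]
    have h2 : b * a⁻¹ = a := by rw [← ha]; field_simp
    ext i j
    fin_cases i <;> fin_cases j <;> simp [t, Matrix.mul_apply, Fin.sum_univ_two, h2]
  rw [← h1, hθ.conj]

lemma upp_ker [Finite k] (hθ : IsSolHeilbronn θ) {s : ℕ} (h1 : θ 1 = s) (hs : s + 2 ≤ Nat.card k)
    (b : k) : θ (upp (Multiplicative.ofAdd b)) = θ 1 := by
  classical
  have : Fintype k := Fintype.ofFinite k
  by_cases hb : b = 0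
  · subst hb
    rw [ofAdd_zero, map_one]
  rw [upp_conj hθ hb]
  set c := θ (upp (Multiplicative.ofAdd (1 : k))) with hc
  have hval : ∀ m : Multiplicative k, θ (upp m) = c + if m = 1 then (s : ℂ) - c else 0 := by
    intro m
    by_cases hm : m = 1
    · rw [if_pos hm, hm, map_one, h1]; ring
    · rw [if_neg hm, add_zero]
      exact upp_conj hθ (b := Multiplicative.toAdd m) (fun h => hm (by
        apply Multiplicative.toAdd.injective; exact h))
  have hsolM : Group.IsSolvable (Multiplicative k) := sol_of_comm mul_comm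
  obtain ⟨n0, hn0⟩ := hθ.mult_hom hsolM upp 1
  have hne : Multiplicative.ofAdd (1 : k) ≠ 1 := fun h => one_ne_zero (Multiplicative.ofAdd.injective h)
  obtain ⟨l, hl⟩ := CommGroup.exists_apply_ne_one_of_hasEnoughRootsOfUnity
    (Multiplicative k) ℂ hne
  have hl1 : l ≠ 1 := fun h => hl (by rw [h]; rfl)
  obtain ⟨n1, hn1⟩ := hθ.mult_hom hsolM upp l
  simp only [hval, MonoidHom.one_apply, inv_one, Units.val_one, mul_one] at hn0
  simp only [hval] at hn1
  rw [Finset.sum_add_distrib, Finset.sum_ite_eq' Finset.univ, if_pos (Finset.mem_univ _),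
    Finset.sum_const, Finset.card_univ, nsmul_eq_mul, Nat.card_eq_fintype_card] at hn0
  simp only [add_mul, ite_mul, zero_mul] at hn1
  rw [Finset.sum_add_distrib, Finset.sum_ite_eq' Finset.univ, if_pos (Finset.mem_univ _),
    ← Finset.mul_sum, Pool.Agent.U93.sum_inv_char l hl1, mul_zero, zero_add, map_one, inv_one,
    Units.val_one, mul_one, Nat.card_eq_fintype_card] at hn1
  set q : ℕ := Fintype.card (Multiplicative k) with hq
  have hqk : Nat.card k = q := by rw [hq, Fintype.card_multiplicative, Nat.card_eq_fintype_card]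
  rw [hqk] at hs
  have hq0 : (q : ℂ) ≠ 0 := by exact_mod_cast (by omega : q ≠ 0)
  have h2 : (s : ℂ) = n0 + (q - 1) * n1 := by
    apply mul_left_cancel₀ hq0
    linear_combination hn0 - (1 - (q : ℂ)) * hn1
  have h3 : s = n0 + (q - 1) * n1 := by
    have h4 : ((q - 1 : ℕ) : ℂ) = (q : ℂ) - 1 := by
      rw [Nat.cast_sub (by omega)]; simp
    rw [← h4] at h2
    exact_mod_cast h2
  have h5 : n1 = 0 := by
    rcases Nat.eq_zero_or_pos n1 with h | h
    · exact h
    · have : (q - 1) * 1 ≤ (q - 1) * n1 := Nat.mul_le_mul_left _ h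
      omega
  rw [h5] at hn1
  rw [h1]
  push_cast at hn1
  linear_combination -hn1

lemma inv2_ker [Finite k] (hθ : IsSolHeilbronn θ) {s : ℕ} (h1 : θ 1 = s)
    (hs : s + 2 ≤ Nat.card k) (x y z : k) (h : x * x + y * z = 1) : θ (inv2 x y z h) = θ 1 := by
  by_cases hz : z = 0
  · have hx : x = 1 := by
      have h2 : (x + 1) * (x + 1) = 0 := by
        rw [hz, mul_zero, add_zero] at h
        have h3 : (x + 1) * (x + 1) = x * x + 1 + (x + x) := by ring
        rw [h3, h, CharTwo.add_self_eq_zero, CharTwo.add_self_eq_zero, add_zero]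
      have h4 := mul_self_eq_zero.mp h2
      exact CharTwo.add_eq_zero.mp h4
    have h2 : inv2 x y z h = upp (Multiplicative.ofAdd y) := by
      apply Subtype.ext
      rw [inv2_coe, upp_coe, hx, hz]
    rw [h2]
    exact upp_ker hθ h1 hs y
  · let g : Matrix.SpecialLinearGroup (Fin 2) k := ⟨!![x + 1, z⁻¹; z, 0], by
      rw [Matrix.det_fin_two_of, mul_zero, zero_sub, inv_mul_cancel₀ hz]
      exact CharTwo.neg_eq 1⟩
    have h2 : g * upp (Multiplicative.ofAdd z⁻¹) * g⁻¹ = inv2 x y z h := by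
      rw [mul_inv_eq_iff_eq_mul]
      apply Subtype.ext
      rw [Matrix.SpecialLinearGroup.coe_mul, Matrix.SpecialLinearGroup.coe_mul, upp_coe, inv2_coe]
      have e1 : x * (x + 1) + y * z = x + 1 := by linear_combination h
      have e2 : z * (x + 1) + x * z = z := by
        have : z * (x + 1) + x * z = z + (x * z + x * z) := by ring
        rw [this, CharTwo.add_self_eq_zero, add_zero]
      have e3 : (x + 1) * z⁻¹ + z⁻¹ = x * z⁻¹ := by
        have : (x + 1) * z⁻¹ + z⁻¹ = x * z⁻¹ + (z⁻¹ + z⁻¹) := by ring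
        rw [this, CharTwo.add_self_eq_zero, add_zero]
      ext i j
      fin_cases i <;> fin_cases j <;>
        simp [g, Matrix.mul_apply, Fin.sum_univ_two, e1, e2, e3, hz]
    rw [← h2, hθ.conj]
    exact upp_ker hθ h1 hs _

/-- **Rigidity of `SL_2(q)`, `q` even.** -/
theorem sl2_rigid [Finite k] {r : ℕ} (hr : r + 2 ≤ Nat.card k) :
    SRigid r (Matrix.SpecialLinearGroup (Fin 2) k) := by
  intro θ hθ s hs h1 g
  have hs2 : s + 2 ≤ Nat.card k := by omega
  -- an involution inverting `g`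
  obtain ⟨x, y, z, h, ht⟩ : ∃ x y z : k, x * x + y * z = 1 ∧
      x * (g.1 0 0) + y * (g.1 1 0) + (z * (g.1 0 1) + x * (g.1 1 1)) = 0 := by
    by_cases hc : g.1 1 0 = 0
    · by_cases hb : g.1 0 1 = 0
      · exact ⟨0, 1, 1, by ring, by rw [hc, hb]; ring⟩
      · refine ⟨1, 0, (g.1 0 0 + g.1 1 1) / g.1 0 1, by ring, ?_⟩
        rw [hc, div_mul_cancel₀ _ hb]
        have : 1 * g.1 0 0 + 0 * 0 + (g.1 0 0 + g.1 1 1 + 1 * g.1 1 1)
            = (g.1 0 0 + g.1 0 0) + (g.1 1 1 + g.1 1 1) := by ring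
        rw [this, CharTwo.add_self_eq_zero, CharTwo.add_self_eq_zero, add_zero]
    · refine ⟨1, (g.1 0 0 + g.1 1 1) / g.1 1 0, 0, by ring, ?_⟩
      rw [div_mul_cancel₀ _ hc]
      have : 1 * g.1 0 0 + (g.1 0 0 + g.1 1 1) + (0 * g.1 0 1 + 1 * g.1 1 1)
          = (g.1 0 0 + g.1 0 0) + (g.1 1 1 + g.1 1 1) := by ring
      rw [this, CharTwo.add_self_eq_zero, CharTwo.add_self_eq_zero, add_zero]
  set i := inv2 x y z h with hi
  -- `i * g` has trace zero
  set t := i * g with htg
  have htr : t.1 1 1 = t.1 0 0 := by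
    have h2 : t.1 0 0 + t.1 1 1 = 0 := by
      rw [htg, hi, Matrix.SpecialLinearGroup.coe_mul, inv2_coe]
      simp only [Matrix.mul_apply, Fin.sum_univ_two, Matrix.of_apply, Matrix.cons_val', Matrix.cons_val_zero,
        Matrix.cons_val_one, Matrix.cons_val_fin_one]
      exact ht
    exact (CharTwo.add_eq_zero.mp h2).symm
  have hdet : t.1 0 0 * t.1 0 0 + t.1 0 1 * t.1 1 0 = 1 := by
    have h2 := t.2
    rw [Matrix.det_fin_two, htr, CharTwo.sub_eq_add] at h2
    exact h2
  have ht' : t = inv2 (t.1 0 0) (t.1 0 1) (t.1 1 0) hdet := by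
    apply Subtype.ext
    rw [inv2_coe]
    ext a b
    fin_cases a <;> fin_cases b <;> simp [htr]
  have hii : i * i = 1 := inv2_sq x y z h
  have htt : t * t = 1 := by rw [ht']; exact inv2_sq _ _ _ hdet
  have hg : g = i * t := by rw [htg, ← mul_assoc, hii, one_mul]
  have hki : θ i = θ 1 := inv2_ker hθ h1 hs2 x y z h
  have hkt : θ t = θ 1 := by
    rw [ht']
    exact inv2_ker hθ h1 hs2 _ _ _ hdet
  rw [hg]
  exact hθ.mul_of_invol hii htt hki hkt

end sl2

end Pool.Agent.U143.RG
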