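import Pool.Agent.U143.RG.Core
import Pool.Agent.U143.RG.SL2

/-!
# Orders of L-functions which are sums of functions of small degree
-/

set_option autoImplicit false
set_option linter.unusedSectionVars false

namespace Pool.Agent.U143.RG

open Pool.Agent.H302R2 Pool.Agent.H302R3 Pool.Agent.H302R5 Pool.Agent.U143.SH
  Pool.Agent.H541R3.ART Pool.Agent.W446.AS Pool.Agent.R389 Filter Topology

variable {G : Type} [Group G] [Finite G] {L : (G → ℂ) → ℂ → ℂ} {c : ℂ}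

lemma le_of_order (hL : ∀ χ ∈ Irr G, MeromorphicAt (L χ) c ∧ meromorphicOrderAt (L χ) c ≠ ⊤)
    {m m' : (G → ℂ) → ℕ} {r : ℕ}
    (h : meromorphicOrderAt (fun s => ∏ᶠ χ ∈ Irr G, L χ s ^ m χ) c
      ≤ meromorphicOrderAt (fun s => ∏ᶠ χ ∈ Irr G, L χ s ^ m' χ) c + (r : WithTop ℤ)) :
    oo L c m ≤ oo L c m' + r := by
  rw [order_eq hL, order_eq hL] at h
  have h3 : ((oo L c m' : ℤ) : WithTop ℤ) + (r : WithTop ℤ) = ((oo L c m' + r : ℤ) : WithTop ℤ) := rfl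
  rw [h3] at h
  exact WithTop.coe_le_coe.mp h

/-- every property which is closed under sums and holds for the functions of degree at most `r` with
nonnegative multiplicities on solvable subgroups holds for the function of the orders -/
theorem ords_prop (hL : ∀ χ ∈ Irr G, MeromorphicAt (L χ) c ∧ meromorphicOrderAt (L χ) c ≠ ⊤)
    (hsol : ∀ U : Subgroup G, Group.IsSolvable U → ∀ (ψ : U →* ℂˣ) (m : (G → ℂ) → ℕ),
      IsDecomp (ind U (fun h => ((ψ h : ℂˣ) : ℂ))) m →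
        0 ≤ meromorphicOrderAt (fun s => ∏ᶠ χ ∈ Irr G, L χ s ^ m χ) c)
    (r t : ℕ) (C : ℕ → Subgroup G) (hC : Monotone C) (hn : ∀ i, (C i).Normal) (h0 : C 0 = ⊥)
    (hs : Group.IsSolvable (C t))
    (hg : ∀ i < t, ∀ m m' : (G → ℂ) → ℕ, IsDecomp (ind (C i) (fun _ => 1)) m →
      IsDecomp (ind (C (i + 1)) (fun _ => 1)) m' →
        meromorphicOrderAt (fun s => ∏ᶠ χ ∈ Irr G, L χ s ^ m χ) c
          ≤ meromorphicOrderAt (fun s => ∏ᶠ χ ∈ Irr G, L χ s ^ m' χ) c + (r : WithTop ℤ))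
    (hl : ∀ m : (G → ℂ) → ℕ, IsDecomp (ind (C t) (fun _ => 1)) m →
      meromorphicOrderAt (fun s => ∏ᶠ χ ∈ Irr G, L χ s ^ m χ) c ≤ (r : WithTop ℤ))
    (P : (G → ℂ) → Prop) (hadd : ∀ a b : G → ℂ, P a → P b → P (fun g => a g + b g))
    (hP : ∀ η : G → ℂ, IsSolHeilbronn η → ∀ s : ℕ, s ≤ r → η 1 = s → P η) :
    P (theta (ords L c)) := by
  refine chain_sum (sol_ords hL hsol) r C hC hn h0 t hs (fun i hi => ?_) ?_ P hadd hP
  · obtain ⟨m, hm⟩ := one_decomp (C i)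
    obtain ⟨m', hm'⟩ := one_decomp (C (i + 1))
    have h1 := le_of_order hL (hg i hi m m' hm hm')
    rw [av_one (C i) hm, av_one (C (i + 1)) hm', ← Int.cast_sub, Complex.intCast_re]
    have h4 : oo L c m - oo L c m' ≤ r := by omega
    exact_mod_cast h4
  · obtain ⟨m, hm⟩ := one_decomp (C t)
    have h1 := hl m hm
    rw [order_eq hL] at h1
    have h3 : (r : WithTop ℤ) = ((r : ℤ) : WithTop ℤ) := rfl
    rw [h3] at h1
    have h2 : oo L c m ≤ r := WithTop.coe_le_coe.mp h1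
    rw [av_one (C t) hm, Complex.intCast_re]
    exact_mod_cast h2

/-- the orders -/
theorem order_of_pos (hL : ∀ χ ∈ Irr G, MeromorphicAt (L χ) c ∧ meromorphicOrderAt (L χ) c ≠ ⊤)
    {U : Subgroup G} {ψ : U →* ℂˣ} (h : Pos U ψ (theta (ords L c))) {m : (G → ℂ) → ℕ}
    (hm : IsDecomp (ind U (fun h => ((ψ h : ℂˣ) : ℂ))) m) :
    0 ≤ meromorphicOrderAt (fun s => ∏ᶠ χ ∈ Irr G, L χ s ^ m χ) c ∧
    ∀ (V : Subgroup G) (hV : V ≤ U), Group.IsSolvable V → ∀ m' : (G → ℂ) → ℕ,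
      IsDecomp (ind V (fun h => ((ψ (Subgroup.inclusion hV h) : ℂˣ) : ℂ))) m' →
        meromorphicOrderAt (fun s => ∏ᶠ χ ∈ Irr G, L χ s ^ m χ) c
          ≤ meromorphicOrderAt (fun s => ∏ᶠ χ ∈ Irr G, L χ s ^ m' χ) c := by
  obtain ⟨n, hn, hVn⟩ := h
  have h8 : (Nat.card U : ℂ) ≠ 0 := card_ne
  rw [sum_eq U ψ hm] at hn
  have h1 : (∑ χ ∈ irrF G, (m χ : ℤ) * ords L c χ) = n := by
    exact_mod_cast mul_right_cancel₀ h8 hn
  refine ⟨?_, fun V hV hVs m' hm' => ?_⟩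
  · rw [ordm_eq hL, h1]
    exact_mod_cast Nat.zero_le n
  · obtain ⟨k, hk, hle⟩ := hVn V hV hVs
    have h9 : (Nat.card V : ℂ) ≠ 0 := card_ne
    have h2 := sum_eq (L := L) (c := c) V (ψ.comp (Subgroup.inclusion hV)) hm'
    have h3 : ∑ᶠ g : V, (theta (ords L c) : G → ℂ) g
        * ((((ψ.comp (Subgroup.inclusion hV)) g)⁻¹ : ℂˣ) : ℂ) = k * Nat.card V := hk
    rw [h3] at h2
    have h4 : (∑ χ ∈ irrF G, (m' χ : ℤ) * ords L c χ) = k := by
      exact_mod_cast (mul_right_cancel₀ h9 h2).symm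
    rw [ordm_eq hL, ordm_eq hL, h1, h4]
    exact_mod_cast hle

/-- the order of an irreducible character which is not trivial on `N` -/
theorem order_zero (hL : ∀ χ ∈ Irr G, MeromorphicAt (L χ) c ∧ meromorphicOrderAt (L χ) c ≠ ⊤)
    (N : Subgroup G) [N.Normal]
    (hc : ∀ n ∈ N, ∀ x, (theta (ords L c) : G → ℂ) (n * x) = (theta (ords L c) : G → ℂ) x)
    {χ : G → ℂ} (hχ : χ ∈ Irr G) {n : G} (hn : n ∈ N) (hχn : χ n ≠ χ 1) :
    meromorphicOrderAt (L χ) c = 0 := by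
  classical
  have : Fintype G := Fintype.ofFinite G
  have h1 : pr (theta (ords L c) : G → ℂ) χ = ords L c χ := by
    rw [pr_eq, theta_pair _ hχ, mul_comm, mul_assoc, mul_inv_cancel₀ card_ne, mul_one]
  rw [pr_eq, pair_zero hχ N hc hn hχn, mul_zero] at h1
  have h2 : ords L c χ = 0 := by exact_mod_cast h1.symm
  have h3 : meromorphicOrderAt (L χ) c = ((ords L c χ : ℤ) : WithTop ℤ) :=
    (WithTop.coe_untop₀_of_ne_top (hL χ hχ).2).symm
  rw [h3, h2]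
  rfl

end Pool.Agent.U143.RG
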