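import Pool.Agent.TH820.Coset
import Pool.Agent.H302R2.TransferTwo
import Pool.Agent.H302R6.DedB
import Pool.Agent.H302R5.Weak2

/-!
# Normal subgroups on which a function with nonnegative multiplicities on solvable subgroups is constant

If `θ = θ 1` on a normal subgroup `N`, then `θ` is constant on the cosets of `N`.
-/

set_option autoImplicit false

universe u

namespace Pool.Agent.U143.RG

open Subgroup Pool.Agent.H302R2 Pool.Agent.H302R3 Pool.Agent.TH820

/-- Two elements `u z` and `u' z` of a coset of `N`, where `u` and `u'` are in a `p`-group `P` which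
commutes with `z`. -/
lemma nilp_const {G : Type u} [Group G] [Finite G] {θ : G → ℂ} (hθ : IsSolHeilbronn θ)
    (N : Subgroup G) [N.Normal] (hN : ∀ n ∈ N, θ n = θ 1) {p : ℕ} [Fact p.Prime] (P : Subgroup G)
    (hP : IsPGroup p P) (z : G) (hz : ∀ x ∈ P, x * z = z * x) {u v : G} (hu : u ∈ P) (hv : v ∈ P)
    (huv : v * u⁻¹ ∈ N) : θ (u * z) = θ (v * z) := by
  have hcomm : ∀ (m : P) (n : zpowers z), Commute (P.subtype m) ((zpowers z).subtype n) := by
    rintro ⟨m, hm⟩ ⟨n, hn⟩
    obtain ⟨k, rfl⟩ := mem_zpowers_iff.1 hn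
    exact Commute.zpow_right (hz m hm) k
  let φ : P × zpowers z →* G := MonoidHom.noncommCoprod P.subtype (zpowers z).subtype hcomm
  have hφ : ∀ (a : P) (b : zpowers z), φ (a, b) = a * b := fun a b => rfl
  have hnil : Group.IsNilpotent P := hP.isNilpotent
  have hsolP : Group.IsSolvable P := inferInstance
  have hsolE : Group.IsSolvable (P × zpowers z) := inferInstance
  have hθφ := hθ.comp_sol hsolE φ
  let M : Subgroup (P × zpowers z) := N.comap φ
  have hM : ∀ m ∈ M, (fun e => θ (φ e)) m = (fun e => θ (φ e)) 1 := by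
    intro m hm
    simp only [map_one]
    exact hN _ hm
  have h1 := Pool.Agent.H302R6.const_sol hθφ M inferInstance hM
    (⟨v * u⁻¹, P.mul_mem hv (P.inv_mem hu)⟩, 1) (by
      change φ (⟨v * u⁻¹, P.mul_mem hv (P.inv_mem hu)⟩, 1) ∈ N
      rw [hφ]
      simpa using huv) (⟨u, hu⟩, ⟨z, mem_zpowers z⟩)
  simp only [Prod.mk_mul_mk, hφ, Subgroup.coe_mul, one_mul, inv_mul_cancel_right] at h1
  exact h1.symm

/-- the exchange property -/
lemma exchange {G : Type u} [Group G] [Finite G] {θ : G → ℂ} (hθ : IsSolHeilbronn θ)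
    (N : Subgroup G) [N.Normal] (hab : ∀ g h : G, g * h * g⁻¹ * h⁻¹ ∈ N)
    (hN : ∀ n ∈ N, θ n = θ 1) {p : ℕ} [Fact p.Prime] {q : ℕ}
    {u v z : G} (huq : u ^ p ^ q = 1) (hvq : v ^ p ^ q = 1) (huz : u * z = z * u)
    (hvz : v * z = z * v) (huv : u⁻¹ * v ∈ N) : θ (u * z) = θ (v * z) := by
  classical
  let C : Subgroup G := centralizer {z}
  have huC : u ∈ C := mem_centralizer_singleton_iff.2 huz
  have hvC : v ∈ C := mem_centralizer_singleton_iff.2 hvz
  -- a Sylow subgroup of `C` containing `u`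
  have hu1 : IsPGroup p (zpowers (⟨u, huC⟩ : C)) :=
    zpowers_isPGroup (k := q) (by apply Subtype.ext; simpa using huq)
  obtain ⟨P, hP⟩ := hu1.exists_le_sylow
  obtain ⟨g, hg⟩ := exists_conj_mem P (x := (⟨v, hvC⟩ : C)) (k := q)
    (by apply Subtype.ext; simpa using hvq)
  let P' : Subgroup G := (P : Subgroup C).map C.subtype
  have hP' : IsPGroup p P' := P.2.map C.subtype
  have hPz : ∀ x ∈ P', x * z = z * x := by
    rintro x ⟨y, -, rfl⟩
    exact mem_centralizer_singleton_iff.1 y.2
  have huP : u ∈ P' := ⟨⟨u, huC⟩, hP (mem_zpowers _), rfl⟩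
  have hvP : (g : G) * v * (g : G)⁻¹ ∈ P' := ⟨g * ⟨v, hvC⟩ * g⁻¹, hg, rfl⟩
  have hgz : (g : G) * z = z * g := mem_centralizer_singleton_iff.1 g.2
  have h1 := nilp_const hθ N hN P' hP' z hPz huP hvP (by
    have h2 : (g : G) * v * (g : G)⁻¹ * u⁻¹ = ((g : G) * v * (g : G)⁻¹ * v⁻¹) * (u * (u⁻¹ * v) * u⁻¹) := by
      group
    rw [h2]
    exact N.mul_mem (hab _ _) (Subgroup.Normal.conj_mem inferInstance _ huv _))
  rw [h1]
  have h3 : (g : G) * v * (g : G)⁻¹ * z = g * (v * z) * (g : G)⁻¹ := by
    have h4 : (g : G)⁻¹ * z = z * (g : G)⁻¹ := (Commute.inv_left (show Commute (g : G) z from hgz)).eq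
    rw [mul_assoc (g * v : G), h4]
    group
  rw [h3, hθ.conj]

open Classical in
/-- the case of an abelian quotient -/
lemma const_of_kernel_abel {G : Type u} [Group G] [Finite G] {θ : G → ℂ} (hθ : IsSolHeilbronn θ)
    (N : Subgroup G) [hNn : N.Normal] (hab : ∀ g h : G, g * h * g⁻¹ * h⁻¹ ∈ N)
    (hN : ∀ n ∈ N, θ n = θ 1) (x y : G) (hxy : x⁻¹ * y ∈ N) : θ y = θ x := by
  classical
  have : Fintype G := Fintype.ofFinite G
  -- the number of elements of the coset with the same value
  let X : Finset G := Finset.univ.filter (fun w : G => x⁻¹ * w ∈ N ∧ θ w = θ x)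
  have hXle : X ⊆ Finset.univ.filter (fun w : G => x⁻¹ * w ∈ N) := by
    intro w hw
    simp only [X, Finset.mem_filter, Finset.mem_univ, true_and] at hw ⊢
    exact hw.1
  have hcoset : (Finset.univ.filter (fun w : G => x⁻¹ * w ∈ N)).card = Nat.card N := by
    rw [← Fintype.card_subtype, ← Nat.card_eq_fintype_card]
    exact Nat.card_congr ⟨fun w => ⟨x⁻¹ * w, w.2⟩, fun m => ⟨x * m, by simp⟩,
      fun w => by simp, fun m => by simp⟩
  have hNc : Nat.card N ≠ 0 := Nat.card_pos.ne'
  have hX0 : X.card ≠ 0 := by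
    rw [Finset.card_ne_zero]
    exact ⟨x, by simp [X]⟩
  have hdvd : Nat.card N ∣ X.card := by
    rw [← Nat.factorization_prime_le_iff_dvd hNc hX0]
    intro p hp
    rw [← hp.pow_dvd_iff_le_factorization hX0]
    have : Fact p.Prime := ⟨hp⟩
    obtain ⟨a, b, e, f, hcop, hpe, hef, he, hf, huz, haf⟩ := exists_parts G hp
    -- partition by the `p'`-part
    let cnt : G → ℕ := fun z =>
      Nat.card {u : G // u ^ p ^ a = 1 ∧ u * z = z * u ∧ x⁻¹ * (u * z) ∈ N ∧ θ (u * z) = θ x}
    have hXsum : X.card = ∑ z : G, (if z ^ b = 1 then cnt z else 0) := by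
      rw [Finset.card_eq_sum_card_fiberwise (f := fun y => y ^ f) (t := Finset.univ)
        (fun _ _ => Finset.mem_univ _)]
      refine Finset.sum_congr rfl fun z _ => ?_
      by_cases hz : z ^ b = 1
      · rw [if_pos hz]
        simp only [cnt]
        rw [Nat.card_eq_fintype_card, Fintype.card_subtype]
        refine Finset.card_bij' (fun y _ => y ^ e) (fun v _ => v * z) ?_ ?_ ?_ ?_
        · intro w hw
          simp only [X, Finset.mem_filter, Finset.mem_univ, true_and] at hw ⊢
          have h2 : w ^ e * z = w := by rw [← hw.2]; exact hef w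
          refine ⟨he w, ?_, ?_, ?_⟩
          · rw [← hw.2, ← pow_add, ← pow_add, add_comm]
          · rw [h2]; exact hw.1.1
          · rw [h2]; exact hw.1.2
        · intro v hv
          simp only [X, Finset.mem_filter, Finset.mem_univ, true_and] at hv ⊢
          exact ⟨⟨hv.2.2.1, hv.2.2.2⟩, (huz v z hv.2.1 hv.1 hz).2⟩
        · intro w hw
          simp only [X, Finset.mem_filter, Finset.mem_univ, true_and] at hw
          rw [← hw.2]; exact hef w
        · intro v hv
          simp only [Finset.mem_filter, Finset.mem_univ, true_and] at hv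
          exact (huz v z hv.2.1 hv.1 hz).1
      · rw [if_neg hz]
        rw [Finset.card_eq_zero, Finset.filter_eq_empty_iff]
        intro w hw hwz
        exact hz (hwz ▸ hf w)
    rw [hXsum]
    let _ := conjAct N
    apply orbit_sum_dvd (N := N)
    · intro m z
      change (if (m * z * (m : G)⁻¹) ^ b = 1 then cnt (m * z * (m : G)⁻¹) else 0) = _
      have h1 : (m * z * (m : G)⁻¹) ^ b = 1 ↔ z ^ b = 1 := by
        rw [conj_pow, mul_inv_eq_one, mul_eq_left]
      have h2 : cnt (m * z * (m : G)⁻¹) = cnt z := by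
        simp only [cnt]
        symm
        have key : ∀ (m : N) (z v : G), v ^ p ^ a = 1 ∧ v * z = z * v ∧ x⁻¹ * (v * z) ∈ N ∧
            θ (v * z) = θ x → (m * v * (m : G)⁻¹) ^ p ^ a = 1 ∧
            (m * v * (m : G)⁻¹) * (m * z * (m : G)⁻¹) = (m * z * (m : G)⁻¹) * (m * v * (m : G)⁻¹) ∧
            x⁻¹ * ((m * v * (m : G)⁻¹) * (m * z * (m : G)⁻¹)) ∈ N ∧
            θ ((m * v * (m : G)⁻¹) * (m * z * (m : G)⁻¹)) = θ x := by
          rintro m z v ⟨h3, h4, h5, h6⟩
          have h7 : (m * v * (m : G)⁻¹) * (m * z * (m : G)⁻¹) = m * (v * z) * (m : G)⁻¹ := by group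
          refine ⟨?_, ?_, ?_, ?_⟩
          · rw [conj_pow, h3, mul_one, mul_inv_cancel]
          · rw [h7, h4]; group
          · rw [h7]
            have h8 : x⁻¹ * (m * (v * z) * (m : G)⁻¹)
                = (x⁻¹ * m * x⁻¹⁻¹) * (x⁻¹ * (v * z)) * (m : G)⁻¹ := by group
            rw [h8]
            exact N.mul_mem (N.mul_mem (hNn.conj_mem _ m.2 _) h5) (N.inv_mem m.2)
          · rw [h7, hθ.conj]; exact h6
        refine Nat.card_congr ⟨fun v => ⟨m * v * (m : G)⁻¹, key m z v v.2⟩,
          fun v => ⟨(m : G)⁻¹ * v * m, ?_⟩, ?_, ?_⟩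
        · have h3 := key m⁻¹ (m * z * (m : G)⁻¹) v v.2
          have h4 : ((m⁻¹ : N) : G) * (m * z * (m : G)⁻¹) * ((m⁻¹ : N) : G)⁻¹ = z := by
            rw [Subgroup.coe_inv]; group
          rw [h4] at h3
          simpa using h3
        · intro v; apply Subtype.ext; simp [mul_assoc]
        · intro v; apply Subtype.ext; simp [mul_assoc]
      simp only [h1, h2]
    · intro z
      apply conj_orbit_card N z _
      by_cases hz : z ^ b = 1
      swap
      · rw [if_neg hz]; exact dvd_zero _
      rw [if_pos hz]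
      by_cases h0 : cnt z = 0
      · rw [h0]; exact dvd_zero _
      simp only [cnt] at h0
      rw [← ne_eq, Nat.card_ne_zero] at h0
      obtain ⟨⟨u, hu1, hu2, hu3, hu4⟩, -⟩ := h0
      have huC : u ∈ centralizer {z} := mem_centralizer_singleton_iff.2 hu2
      have hun : u ∈ normalizer ((N ⊓ centralizer {z} : Subgroup G) : Set G) := by
        rw [mem_normalizer_iff]
        intro w
        have h4 : w ∈ N ↔ u * w * u⁻¹ ∈ N := by
          constructor
          · intro h; exact hNn.conj_mem _ h _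
          · intro h
            have := hNn.conj_mem _ h u⁻¹
            simpa [mul_assoc] using this
        have h5 : w ∈ centralizer {z} ↔ u * w * u⁻¹ ∈ centralizer {z} := by
          constructor
          · intro h
            exact (centralizer {z}).mul_mem ((centralizer {z}).mul_mem huC h)
              ((centralizer {z}).inv_mem huC)
          · intro h
            have := (centralizer {z}).mul_mem ((centralizer {z}).mul_mem
              ((centralizer {z}).inv_mem huC) h) huC
            simpa [mul_assoc] using this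
        rw [Subgroup.mem_inf, Subgroup.mem_inf]
        exact and_congr h4 h5
      have h3 := frob_coset hp hcop hef he hf huz haf _ (N ⊓ centralizer {z}) u rfl hun hu1
      have h6 : cosetCount (N ⊓ centralizer {z}) (p ^ a) u 1 = cnt z := by
        simp only [cnt]
        unfold cosetCount
        refine Nat.card_congr (Equiv.subtypeEquivRight fun w => ?_)
        constructor
        · rintro ⟨h1, h2, -⟩
          have hwC : w ∈ centralizer {z} := by
            have h7 : w = u * (u⁻¹ * w) := by group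
            rw [h7]; exact (centralizer {z}).mul_mem huC h1.2
          have hwz := mem_centralizer_singleton_iff.1 hwC
          refine ⟨h2, hwz, ?_, ?_⟩
          · have h7 : x⁻¹ * (w * z) = (x⁻¹ * (u * z)) * (z⁻¹ * (u⁻¹ * w) * z⁻¹⁻¹) := by group
            rw [h7]; exact N.mul_mem hu3 (hNn.conj_mem _ h1.1 _)
          · rw [← hu4]
            exact (exchange hθ N hab hN hu1 h2 hu2 hwz h1.1).symm
        · rintro ⟨h1, h2, h3, h4⟩
          refine ⟨⟨?_, ?_⟩, h1, by simp⟩
          · have h7 : u⁻¹ * w = z * ((x⁻¹ * (u * z))⁻¹ * (x⁻¹ * (w * z))) * z⁻¹ := by group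
            rw [h7]; exact hNn.conj_mem _ (N.mul_mem (N.inv_mem hu3) h3) _
          · exact (centralizer {z}).mul_mem ((centralizer {z}).inv_mem huC)
              (mem_centralizer_singleton_iff.2 h2)
      rw [← h6]; exact h3
  -- conclusion
  have h1 : X = Finset.univ.filter (fun w : G => x⁻¹ * w ∈ N) := by
    apply Finset.eq_of_subset_of_card_le hXle
    rw [hcoset]
    exact Nat.le_of_dvd (Nat.pos_of_ne_zero hX0) hdvd
  have h2 : y ∈ X := by
    rw [h1]; simp [hxy]
  simp only [X, Finset.mem_filter] at h2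
  exact h2.2.2

/-- **Normal kernel theorem.** If `θ = θ 1` on a normal subgroup `N` then `θ` is constant on the
cosets of `N`. -/
theorem const_of_kernel {G : Type u} [Group G] [Finite G] {θ : G → ℂ} (hθ : IsSolHeilbronn θ)
    (N : Subgroup G) [hNn : N.Normal] (hN : ∀ n ∈ N, θ n = θ 1) :
    ∀ n ∈ N, ∀ x, θ (n * x) = θ x := by
  intro n hn x
  let E : Subgroup G := N ⊔ zpowers x
  have hxE : x ∈ E := mem_sup_right (mem_zpowers x)
  have hnE : n ∈ E := mem_sup_left hn
  let M : Subgroup E := N.subgroupOf E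
  have hab : ∀ g h : E, g * h * g⁻¹ * h⁻¹ ∈ M := by
    -- the quotient is cyclic
    have h1 : ∀ g : G, g ∈ E → ∃ m ∈ N, ∃ k : ℤ, g = m * x ^ k := by
      intro g hg
      obtain ⟨m, hm, w, hw, rfl⟩ := Subgroup.mem_sup_of_normal_left.1 hg
      obtain ⟨k, rfl⟩ := mem_zpowers_iff.1 hw
      exact ⟨m, hm, k, rfl⟩
    have h2 : ∀ g : G, g ∈ E → ∃ k : ℤ, (g : G ⧸ N) = (x : G ⧸ N) ^ k := by
      intro g hg
      obtain ⟨m, hm, k, rfl⟩ := h1 g hg
      refine ⟨k, ?_⟩
      rw [QuotientGroup.mk_mul, (QuotientGroup.eq_one_iff m).2 hm, one_mul, QuotientGroup.mk_zpow]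
    intro g h
    rw [Subgroup.mem_subgroupOf]
    obtain ⟨i, hi⟩ := h2 g g.2
    obtain ⟨j, hj⟩ := h2 h h.2
    rw [← QuotientGroup.eq_one_iff]
    simp only [Subgroup.coe_mul, Subgroup.coe_inv, QuotientGroup.mk_mul, QuotientGroup.mk_inv,
      hi, hj]
    group
  have h3 := const_of_kernel_abel (hθ.comp E.subtype) M hab (by
    rintro m hm
    simp only [coe_subtype, OneMemClass.coe_one]
    exact hN _ hm) ⟨x, hxE⟩ (⟨n, hnE⟩ * ⟨x, hxE⟩) (by
    rw [Subgroup.mem_subgroupOf]
    have h4 := hNn.conj_mem n hn x⁻¹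
    simpa [mul_assoc] using h4)
  exact h3


end Pool.Agent.U143.RG
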