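import Pool.Agent.U143.RG.Range
import Pool.Agent.U143.RG.NKer
import Pool.Agent.H302R5.Push

/-!
# Functions with nonnegative multiplicities on solvable subgroups: extensions

The multiplicity of the trivial character is a natural number for all groups with a series whose factors
are abelian or products of rigid groups.
-/

set_option autoImplicit false
set_option linter.unusedSectionVars false

namespace Pool.Agent.U143.RG

open Pool.Agent.H302R2 Pool.Agent.H302R3 Pool.Agent.H302R5

universe u v

section rigid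

lemma SRigid.of_surj {r : ℕ} {S : Type u} {T : Type v} [Group S] [Finite S] [Group T] [Finite T]
    (f : S →* T) (hf : Function.Surjective f) (h : SRigid r S) : SRigid r T := by
  intro θ hθ s hs h1 g
  obtain ⟨x, rfl⟩ := hf g
  have := h _ (hθ.comp f) s hs (by simpa using h1) x
  simpa using this

/-- a homomorphism from a product of rigid groups -/
lemma ker_prod {X : Type u} [Group X] [Finite X] {θ : X → ℂ} (hθ : IsSolHeilbronn θ) {r s : ℕ}
    (hs : s ≤ r) (h1 : θ 1 = s) {l : ℕ} {S : Fin l → Type v} [∀ j, Group (S j)]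
    [∀ j, Finite (S j)] (hS : ∀ j, SRigid r (S j)) (φ : (∀ j, S j) →* X) (y : ∀ j, S j) :
    θ (φ y) = θ 1 := by
  classical
  have key : ∀ t : Finset (Fin l), θ (φ (fun j => if j ∈ t then y j else 1)) = θ 1 := by
    intro t
    induction t using Finset.induction_on with
    | empty =>
      have h2 : (fun j => if j ∈ (∅ : Finset (Fin l)) then y j else 1) = (1 : ∀ j, S j) := by
        ext; simp
      rw [h2, map_one]
    | insert i t hi ih =>
      have h2 : (fun j => if j ∈ insert i t then y j else 1)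
          = (fun j => if j ∈ t then y j else 1) * (Pi.mulSingle i (y i) : ∀ j, S j) := by
        ext j
        by_cases hj : j = i
        · subst hj; simp [hi]
        · simp [hj]
      have hc : (fun j => if j ∈ t then y j else 1) * (Pi.mulSingle i (y i) : ∀ j, S j)
          = (Pi.mulSingle i (y i) : ∀ j, S j) * (fun j => if j ∈ t then y j else 1) := by
        ext j
        by_cases hj : j = i
        · subst hj; simp [hi]
        · simp [Pi.mulSingle_eq_of_ne hj]
      have h3 : θ (φ (Pi.mulSingle i (y i))) = θ 1 := by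
        have h4 := hS i _ (hθ.comp (φ.comp (MonoidHom.mulSingle S i))) s hs
          (by rw [map_one]; exact h1) (y i)
        rw [map_one] at h4
        exact h4
      rw [h2, map_mul, hθ.mul_of_comm (by rw [← map_mul, ← map_mul, hc]) h3]
      exact ih
  have h5 := key Finset.univ
  simpa using h5

end rigid

section supp

/-- a solvable supplement of the kernel -/
lemma exists_sol_supp {X : Type v} {Q : Type u} [Group X] [Finite X] [Group Q] (π : X →* Q)
    (hπ : Function.Surjective π) (hQ : Group.IsSolvable Q) :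
    ∃ L : Subgroup X, Group.IsSolvable L ∧ ∀ q : Q, ∃ x ∈ L, π x = q := by
  classical
  obtain ⟨L, hL⟩ := exists_minimal_of_wellFoundedLT
    (fun L : Subgroup X => ∀ q : Q, ∃ x ∈ L, π x = q) ⟨⊤, fun q => by
      obtain ⟨x, rfl⟩ := hπ q
      exact ⟨x, trivial, rfl⟩⟩
  refine ⟨L, ?_, hL.1⟩
  let ρ : L →* Q := π.comp L.subtype
  have hker : ρ.ker ≤ frattini L := by
    unfold frattini Order.radical
    simp only [le_iInf_iff]
    intro C hC
    by_contra hne
    have h1 : C ⊔ ρ.ker = ⊤ :=
      hC.2 _ (lt_of_le_of_ne le_sup_left (fun h => hne (h ▸ le_sup_right)))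
    have h2 : L ≤ C.map L.subtype := by
      refine hL.2 (fun q => ?_) (Subgroup.map_subtype_le C)
      obtain ⟨x, hx, rfl⟩ := hL.1 q
      have h3 : (⟨x, hx⟩ : L) ∈ C ⊔ ρ.ker := by rw [h1]; trivial
      obtain ⟨a, ha, b, hb, hab⟩ := Subgroup.mem_sup_of_normal_right.mp h3
      refine ⟨a, ⟨a, ha, rfl⟩, ?_⟩
      have h4 : ρ (a * b) = ρ ⟨x, hx⟩ := by rw [hab]
      rw [map_mul, MonoidHom.mem_ker.mp hb, mul_one] at h4
      exact h4
    apply hC.1
    rw [eq_top_iff]
    rintro ⟨x, hx⟩ -
    obtain ⟨y, hy, hyx⟩ := h2 hx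
    have h5 : y = ⟨x, hx⟩ := Subtype.ext hyx
    rwa [← h5]
  have h2 : Group.IsNilpotent (frattini L) := frattini_nilpotent
  have h4 : Group.IsSolvable (frattini L) := inferInstance
  have h3 : Group.IsSolvable ρ.ker :=
    Group.isSolvable_of_isSolvable_injective (Subgroup.inclusion_injective hker)
  exact Group.isSolvable_of_ker_le_range ρ.ker.subtype ρ (by simp)

lemma push_of_const {X : Type v} [Group X] [Fintype X] {Q : Type u} [Group Q] [Finite Q]
    (π : X →* Q) {f : X → ℂ} (hf : ∀ a b, π a = π b → f a = f b) (x : X) :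
    push π f (π x) = f x := by
  classical
  unfold push
  have h1 : ∑ g : X, (if π g = π x then f g else 0) = (Nat.card π.ker : ℂ) * f x := by
    have h2 : ∀ g : X, (if π g = π x then f g else 0) = if π g = π x then f x else 0 := by
      intro g
      split_ifs with h
      · exact hf _ _ h
      · rfl
    rw [Finset.sum_congr rfl (fun g _ => h2 g), ← Finset.sum_filter, Finset.sum_const, nsmul_eq_mul]
    congr 2
    rw [← Fintype.card_subtype, ← Nat.card_eq_fintype_card]
    refine Nat.card_congr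
      { toFun := fun g => ⟨g.1 * x⁻¹, by
          rw [MonoidHom.mem_ker, map_mul, g.2, map_inv, mul_inv_cancel]⟩
        invFun := fun k => ⟨k.1 * x, by rw [map_mul, MonoidHom.mem_ker.mp k.2, one_mul]⟩
        left_inv := fun g => by simp
        right_inv := fun k => by simp }
  rw [h1, ← mul_assoc, inv_mul_cancel₀, one_mul]
  exact_mod_cast Nat.card_pos.ne'

lemma sum_of_fibres {X : Type v} {Q : Type u} [Group X] [Finite X] [Group Q] [Finite Q]
    (π : X →* Q) (hπ : Function.Surjective π) (L : Subgroup X) (hL : ∀ q, ∃ x ∈ L, π x = q)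
    {f : X → ℂ} (hf : ∀ a b, π a = π b → f a = f b) {n : ℕ}
    (h : ∑ᶠ x : L, f x = n * Nat.card L) : ∑ᶠ x : X, f x = n * Nat.card X := by
  classical
  have : Fintype X := Fintype.ofFinite _
  have : Fintype L := Fintype.ofFinite _
  let ρ : L →* Q := π.comp L.subtype
  have hρ : Function.Surjective ρ := by
    intro q
    obtain ⟨x, hx, rfl⟩ := hL q
    exact ⟨⟨x, hx⟩, rfl⟩
  have h1 := sum_push_all π f
  have h2 := sum_push_all ρ (fun x : L => f x)
  have h3 : ∀ q, push ρ (fun x : L => f x) q = push π f q := by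
    intro q
    obtain ⟨x, hx, rfl⟩ := hL q
    rw [push_of_const π hf]
    exact push_of_const ρ (f := fun x : L => f x) (fun a b hab => hf _ _ hab) ⟨x, hx⟩
  rw [finsum_congr h3, h1, ← finsum_eq_sum_of_fintype (f := fun x : L => f x), h] at h2
  have h4 := card_eq_ker_mul hπ
  have h5 := card_eq_ker_mul hρ
  have hk : (Nat.card π.ker : ℂ) ≠ 0 := by exact_mod_cast Nat.card_pos.ne'
  have hk' : (Nat.card ρ.ker : ℂ) ≠ 0 := by exact_mod_cast Nat.card_pos.ne'
  rw [finsum_eq_sum_of_fintype, h4]
  rw [h5] at h2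
  push_cast at h2 ⊢
  field_simp at h2
  linear_combination h2

end supp

section good

variable {X : Type v} [Group X] [Finite X] {Y : Type u} [Group Y] [Finite Y]

/-- the average over the fibres of a surjection with solvable kernel -/
lemma push_sol_ker [Fintype X] {π : X →* Y} (hπ : Function.Surjective π)
    (hk : Group.IsSolvable π.ker) {θ : X → ℂ} (hθ : IsSolHeilbronn θ) :
    IsSolHeilbronn (push π θ) := by
  refine push_isSol hπ hθ.conj ?_
  intro V hV χ
  let ρ : V.comap π →* V :=
    { toFun := fun u => ⟨π u, u.2⟩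
      map_one' := Subtype.ext (map_one π)
      map_mul' := fun a b => Subtype.ext (map_mul π _ _) }
  have hs : Group.IsSolvable (V.comap π) := by
    let i : π.ker →* V.comap π :=
      { toFun := fun x => ⟨x.1, by
          rw [Subgroup.mem_comap, MonoidHom.mem_ker.mp x.2]; exact one_mem V⟩
        map_one' := rfl
        map_mul' := fun _ _ => rfl }
    refine Group.isSolvable_of_ker_le_range i ρ ?_
    intro x hx
    exact ⟨⟨x.1, congrArg Subtype.val hx⟩, rfl⟩
  have : Fintype (V.comap π) := Fintype.ofFinite _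
  obtain ⟨n, hn⟩ := hθ.mult_hom hs (V.comap π).subtype (χ.comp ρ)
  refine ⟨n, ?_⟩
  rw [finsum_eq_sum_of_fintype]
  exact hn

/-- the function induced on a quotient by a function which is constant on the fibres -/
lemma push_sol_const [Fintype X] {π : X →* Y} (hπ : Function.Surjective π) {θ : X → ℂ}
    (hθ : IsSolHeilbronn θ) (hc : ∀ a b, π a = π b → θ a = θ b) :
    IsSolHeilbronn (push π θ) := by
  refine push_isSol hπ hθ.conj ?_
  intro V hV χ
  let ρ : V.comap π →* V :=
    { toFun := fun u => ⟨π u, u.2⟩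
      map_one' := Subtype.ext (map_one π)
      map_mul' := fun a b => Subtype.ext (map_mul π _ _) }
  have hρ : Function.Surjective ρ := by
    rintro ⟨y, hy⟩
    obtain ⟨g, rfl⟩ := hπ y
    exact ⟨⟨g, hy⟩, rfl⟩
  obtain ⟨L, hL, hLs⟩ := exists_sol_supp ρ hρ hV
  have : Fintype L := Fintype.ofFinite _
  obtain ⟨n, hn⟩ := hθ.mult_hom hL ((V.comap π).subtype.comp L.subtype) ((χ.comp ρ).comp L.subtype)
  refine ⟨n, ?_⟩
  refine sum_of_fibres ρ hρ L hLs
    (f := fun u : V.comap π => θ u * (((χ ⟨π u, u.2⟩)⁻¹ : ℂˣ) : ℂ)) (fun a b hab => ?_) ?_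
  · have h1 : π a = π b := congrArg Subtype.val hab
    have h2 : χ (ρ a) = χ (ρ b) := congrArg χ hab
    change θ a * (((χ (ρ a))⁻¹ : ℂˣ) : ℂ) = θ b * (((χ (ρ b))⁻¹ : ℂˣ) : ℂ)
    rw [hc _ _ h1, h2]
  · rw [finsum_eq_sum_of_fintype]
    exact hn

/-- The multiplicity of the trivial character of `X` is a natural number, at most its multiplicity on
each solvable subgroup, for all functions of degree at most `r`. -/
def GoodD (r : ℕ) (X : Type*) [Group X] : Prop :=
  ∀ θ : X → ℂ, IsSolHeilbronn θ → ∀ r' ≤ r, θ 1 = (r' : ℕ) →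
    ∃ n : ℕ, ∑ᶠ x : X, θ x = n * Nat.card X ∧
      ∀ V : Subgroup X, Group.IsSolvable V → ∀ k : ℕ, ∑ᶠ v : V, θ v = k * Nat.card V → n ≤ k

lemma ded_in_sol {θ : X → ℂ} (hθ : IsSolHeilbronn θ) {V W : Subgroup X} (hVW : V ≤ W)
    (hW : Group.IsSolvable W) {a b : ℕ} (ha : ∑ᶠ v : V, θ v = a * Nat.card V)
    (hb : ∑ᶠ w : W, θ w = b * Nat.card W) : b ≤ a := by
  have hH := hθ.comp_sol hW W.subtype
  let e := Subgroup.subgroupOfEquivOfLe hVW
  have htop : Group.IsSolvable (⊤ : Subgroup W) := inferInstance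
  refine Pool.Agent.H302R6.ded_sol hH ⊤ (V.subgroupOf W) htop (a := a) (b := b) ?_ ?_
  · rw [Nat.card_congr e.toEquiv, ← ha]
    exact finsum_eq_of_bijective (fun g => e g) e.bijective fun g => rfl
  · rw [sup_top_eq, Nat.card_congr (Subgroup.topEquiv (G := W)).toEquiv, ← hb]
    exact finsum_eq_of_bijective (fun g : (⊤ : Subgroup W) => (g : W))
      (Subgroup.topEquiv (G := W)).bijective fun g => rfl

lemma sol_mult {θ : X → ℂ} (hθ : IsSolHeilbronn θ) (W : Subgroup X) (hW : Group.IsSolvable W) :
    ∃ k : ℕ, ∑ᶠ w : W, θ w = k * Nat.card W := by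
  have : Fintype W := Fintype.ofFinite _
  obtain ⟨n, hn⟩ := hθ.mult_hom hW W.subtype 1
  refine ⟨n, ?_⟩
  rw [finsum_eq_sum_of_fintype, ← hn]
  simp

lemma sum_push_one [Fintype X] (π : X →* Y) (θ : X → ℂ) (V : Subgroup Y) :
    ∑ᶠ y : V, push π θ y = (Nat.card π.ker : ℂ)⁻¹ * ∑ᶠ u : V.comap π, θ u := by
  have h := sum_push π θ V 1
  simpa using h

lemma GoodD.of_sol_ker {r : ℕ} {π : X →* Y} (hπ : Function.Surjective π)
    (hk : Group.IsSolvable π.ker) (h : GoodD r Y) : GoodD r X := by
  classical
  intro θ hθ r' hr' h1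
  have : Fintype X := Fintype.ofFinite _
  have hpush := push_sol_ker hπ hk hθ
  obtain ⟨r'', hr''⟩ := hpush.exists_deg
  have hle : r'' ≤ r' := by
    have h1 : ‖(push π θ) 1‖ ≤ r' := by
      refine norm_push_one_le π fun g => ?_
      have := hθ.norm_le g
      rwa [h1, Complex.natCast_re] at this
    rw [hr'', Complex.norm_natCast] at h1
    exact_mod_cast h1
  obtain ⟨n, hn, hV⟩ := h _ hpush r'' (hle.trans hr') hr''
  have hk0 : (Nat.card π.ker : ℂ) ≠ 0 := by exact_mod_cast Nat.card_pos.ne'
  refine ⟨n, ?_, fun V hVs k hVk => ?_⟩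
  · rw [finsum_eq_sum_of_fintype, card_eq_ker_mul hπ]
    rw [sum_push_all π θ] at hn
    push_cast
    rw [inv_mul_eq_iff_eq_mul₀ hk0] at hn
    rw [hn]
    ring
  · -- the subgroup `W` generated by `V` and the kernel
    set W : Subgroup X := (V.map π).comap π with hW
    have hVW : V ≤ W := Subgroup.le_comap_map π V
    have hWs : Group.IsSolvable W := by
      let ρ : W →* V.map π :=
        { toFun := fun u => ⟨π u, u.2⟩
          map_one' := Subtype.ext (map_one π)
          map_mul' := fun a b => Subtype.ext (map_mul π _ _) }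
      let i : π.ker →* W :=
        { toFun := fun x => ⟨x.1, by
            rw [hW, Subgroup.mem_comap, MonoidHom.mem_ker.mp x.2]; exact one_mem _⟩
          map_one' := rfl
          map_mul' := fun _ _ => rfl }
      have hVm : Group.IsSolvable (V.map π) :=
        Group.isSolvable_of_surjective (f := π.subgroupMap V) (π.subgroupMap_surjective V)
      refine Group.isSolvable_of_ker_le_range i ρ ?_
      intro x hx
      exact ⟨⟨x.1, congrArg Subtype.val hx⟩, rfl⟩
    obtain ⟨kW, hkW⟩ := sol_mult hθ W hWs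
    refine le_trans ?_ (ded_in_sol hθ hVW hWs hVk hkW)
    refine hV (V.map π) (Group.isSolvable_of_surjective (f := π.subgroupMap V)
      (π.subgroupMap_surjective V)) kW ?_
    rw [sum_push_one, ← hW, hkW, hW, card_comap hπ]
    push_cast
    field_simp

lemma sum_sub_of_const [Fintype X] {π : X →* Y} {θ : X → ℂ} (hc : ∀ a b, π a = π b → θ a = θ b)
    (V : Subgroup X) {k : ℕ} (hk : ∑ᶠ v : V, θ v = k * Nat.card V) :
    ∑ᶠ y : V.map π, push π θ y = k * Nat.card (V.map π) := by
  classical
  have : Fintype V := Fintype.ofFinite _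
  let ρ : V →* V.map π := π.subgroupMap V
  have hρ : Function.Surjective ρ := π.subgroupMap_surjective V
  have h1 : ∀ y : V.map π, push π θ y = push ρ (fun v : V => θ v) y := by
    intro y
    obtain ⟨v, rfl⟩ := hρ y
    rw [push_of_const ρ (f := fun v : V => θ v) (fun a b hab => hc _ _ (congrArg Subtype.val hab))]
    exact push_of_const π hc (v : X)
  rw [finsum_congr h1, sum_push_all, ← finsum_eq_sum_of_fintype (f := fun v : V => θ v), hk,
    card_eq_ker_mul hρ]
  have hk0 : (Nat.card ρ.ker : ℂ) ≠ 0 := by exact_mod_cast Nat.card_pos.ne'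
  push_cast
  field_simp

lemma GoodD.of_const_ker {r : ℕ} {π : X →* Y} (hπ : Function.Surjective π)
    (hk : ∀ θ : X → ℂ, IsSolHeilbronn θ → ∀ r' ≤ r, θ 1 = (r' : ℕ) → ∀ n ∈ π.ker, θ n = θ 1)
    (h : GoodD r Y) : GoodD r X := by
  classical
  intro θ hθ r' hr' h1
  have : Fintype X := Fintype.ofFinite _
  have hc : ∀ a b, π a = π b → θ a = θ b := by
    intro a b hab
    have h2 := const_of_kernel hθ π.ker (hk θ hθ r' hr' h1) (a * b⁻¹) (by
      rw [MonoidHom.mem_ker, map_mul, map_inv, hab, mul_inv_cancel]) b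
    rwa [inv_mul_cancel_right] at h2
  have hpush := push_sol_const hπ hθ hc
  have h3 : push π θ 1 = r' := by
    have := push_of_const π hc 1
    rw [map_one] at this
    rw [this, h1]
  obtain ⟨n, hn, hV⟩ := h _ hpush r' hr' h3
  refine ⟨n, ?_, fun V hVs k hVk => ?_⟩
  · have hk : (Nat.card π.ker : ℂ) ≠ 0 := by exact_mod_cast Nat.card_pos.ne'
    rw [finsum_eq_sum_of_fintype, card_eq_ker_mul hπ]
    rw [sum_push_all π θ] at hn
    push_cast
    rw [inv_mul_eq_iff_eq_mul₀ hk] at hn
    rw [hn]
    ring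
  · exact hV (V.map π) (Group.isSolvable_of_surjective (f := π.subgroupMap V)
      (π.subgroupMap_surjective V)) k (sum_sub_of_const hc V hVk)

lemma GoodD.triv {r : ℕ} (hX : ∀ x : X, x = 1) : GoodD r X := by
  intro θ hθ r' _ h1
  have hs : Group.IsSolvable X := sol_of_comm fun a b => by rw [hX a, hX b]
  have : Fintype X := Fintype.ofFinite _
  have hsub : ∀ x : X, θ x = r' := fun x => by rw [hX x, h1]
  refine ⟨r', ?_, fun V _ k hk => ?_⟩
  · rw [finsum_congr hsub, finsum_eq_sum_of_fintype, Finset.sum_const, Finset.card_univ,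
      nsmul_eq_mul, Nat.card_eq_fintype_card, mul_comm]
  · have : Fintype V := Fintype.ofFinite _
    rw [finsum_congr (fun v : V => hsub v), finsum_eq_sum_of_fintype, Finset.sum_const,
      Finset.card_univ, nsmul_eq_mul, Nat.card_eq_fintype_card, mul_comm] at hk
    have h2 : (Fintype.card V : ℂ) ≠ 0 := by exact_mod_cast Fintype.card_ne_zero
    have h3 : (r' : ℂ) = k := mul_right_cancel₀ h2 hk
    have h4 : r' = k := by exact_mod_cast h3
    exact h4.le

end good

end Pool.Agent.U143.RG
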