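import Pool.Agent.U143.RG.Blk

/-!
# Functions with nonnegative multiplicities on solvable subgroups: values at involutions
-/

set_option autoImplicit false
set_option linter.unusedSectionVars false

namespace Pool.Agent.U143.RG

open Equiv Equiv.Perm Pool.Agent.H302R2 Pool.Agent.H302R3 Pool.Agent.U93

section val

variable {α : Type*} [Fintype α] [DecidableEq α] {θ : alternatingGroup α → ℂ}

lemma V_conj (hθ : IsSolHeilbronn θ) {g c : Perm α} (hc : Perm.sign c = 1) :
    V θ (c * g * c⁻¹) = V θ g := by
  have hc' : c ∈ alternatingGroup α := mem_alternatingGroup.mpr hc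
  by_cases hg : g ∈ alternatingGroup α
  · rw [V_mk hg, V_mk (mul_mem (mul_mem hc' hg) (inv_mem hc'))]
    exact hθ.conj ⟨g, hg⟩ ⟨c, hc'⟩
  · have hg' : c * g * c⁻¹ ∉ alternatingGroup α := by
      intro h
      apply hg
      have := mul_mem (mul_mem (inv_mem hc') h) hc'
      have h2 : c⁻¹ * (c * g * c⁻¹) * c = g := by group
      rwa [h2] at this
    rw [V, V, dif_neg hg, dif_neg hg']

lemma V_isConj (hθ : IsSolHeilbronn θ) {g h c : Perm α} (hgh : IsConj g h) (hc : Perm.sign c = -1)
    (hch : c * h = h * c) : V θ g = V θ h := by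
  obtain ⟨d, hd⟩ := isConj_iff.mp hgh
  rcases Int.units_eq_one_or (Perm.sign d) with hs | hs
  · rw [← hd, V_conj hθ hs]
  · have h1 : (c * d) * g * (c * d)⁻¹ = h := by
      calc (c * d) * g * (c * d)⁻¹ = c * (d * g * d⁻¹) * c⁻¹ := by group
        _ = h := by rw [hd, hch, mul_inv_cancel_right]
    rw [← h1, V_conj hθ (by rw [Perm.sign_mul, hc, hs]; rfl)]

end val

section inv

variable {n : ℕ} {θ : alternatingGroup (Fin n) → ℂ}

/-- The values at the involutions. -/
theorem inv_value (hn : 8 ≤ n) (hθ : IsSolHeilbronn θ) (hD : ¬ HasDoubleSwaps θ) {r : ℕ}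
    (hr : θ 1 = r) (hrn : r + 2 ≤ n) (hne : Even n) {z : Perm (Fin n)} (hz2 : z * z = 1)
    (hzs : Perm.sign z = 1) : V θ z = r - (z.support.card : ℂ) := by
  classical
  by_cases hz1 : z = 1
  · subst hz1
    rw [V_one, hr]
    simp
  have : Fact (Nat.Prime 2) := ⟨Nat.prime_two⟩
  let F := GaloisField 2 2
  have : Fintype F := Fintype.ofFinite F
  have hcardF : Fintype.card F = 4 := by
    rw [← Nat.card_eq_fintype_card]; exact GaloisField.card 2 2 (by omega)
  have hF : 3 ≤ Fintype.card F := by omega
  set m := n / 4 with hm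
  have hm2 : 2 ≤ m := by omega
  have h4m : m * 4 ≤ n := Nat.div_mul_le_self n 4
  have h4m' : n ≤ 4 * m + 2 := by
    obtain ⟨k, hk⟩ := hne
    omega
  have hemb : Nonempty (Fin m × F ↪ Fin n) := by
    apply Function.Embedding.nonempty_of_card_le
    rw [Fintype.card_prod, Fintype.card_fin, Fintype.card_fin, hcardF]
    exact h4m
  obtain ⟨f⟩ := hemb
  have key := block_dich hθ hF hm2 f hr (by rw [hcardF]; omega) (by rw [hcardF]; omega)
  have hord2 : ∀ w : Perm (Fin n), w * w = 1 → w ≠ 1 → orderOf w = 2 := by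
    intro w hw hw1
    exact orderOf_eq_prime (by rw [pow_two]; exact hw) hw1
  have htr2 : ∀ a : Fin m → F, viaEmbeddingHom f (trans m F (Multiplicative.ofAdd a)) *
      viaEmbeddingHom f (trans m F (Multiplicative.ofAdd a)) = 1 := by
    intro a
    rw [← map_mul, ← map_mul, ← ofAdd_add]
    have : a + a = 0 := by
      ext i
      simp only [Pi.add_apply, Pi.zero_apply]
      exact CharTwo.add_self_eq_zero _
    rw [this, ofAdd_zero, map_one, map_one]
  have hzo := hord2 z hz2 hz1
  obtain ⟨j, hj⟩ := support_even hzo hzs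
  have hjm : j ≤ m := by
    have h1 := Finset.card_le_univ z.support
    rw [Fintype.card_fin] at h1
    omega
  obtain ⟨a, ha⟩ := exists_wt (F := F) hjm
  have hcard := card_support_trans f a
  rw [hcardF, ha] at hcard
  have hj0 : j ≠ 0 := by
    rintro rfl
    rw [mul_zero, Finset.card_eq_zero, support_eq_empty_iff] at hj
    exact hz1 hj
  set w := viaEmbeddingHom f (trans m F (Multiplicative.ofAdd a)) with hw
  have hw1 : w ≠ 1 := by
    intro h
    rw [h, support_one, Finset.card_empty] at hcard
    omega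
  have hwo := hord2 w (htr2 a) hw1
  have hconj : IsConj w z := isConj_of_prime Nat.prime_two hwo hzo (by rw [hcard, hj])
  -- an odd permutation commuting with `z`
  obtain ⟨x, hx⟩ : ∃ x, z x ≠ x := by
    by_contra hcon
    push Not at hcon
    exact hz1 (Equiv.ext hcon)
  have hV : V θ w = V θ z := V_isConj hθ hconj (sign_swap (fun h => hx h.symm) :
    Perm.sign (swap x (z x)) = -1) (by
      rw [Equiv.mul_swap_eq_swap_mul]
      have : z (z x) = x := by rw [← Perm.mul_apply, hz2, Perm.one_apply]
      rw [this, swap_comm])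
  rcases key with key | key
  · exfalso
    apply hD
    have hK : InK θ w := ⟨(bh hF f (Multiplicative.ofAdd a)).2, key a⟩
    intro a b c d hab hac had hbc hbd hcd
    exact hK.double_swap hθ (htr2 _) hw1 hab hac had hbc hbd hcd
  · rw [← hV, hw, V_bh hF, key, hcardF, ha, hj]
    push_cast
    ring

end inv

end Pool.Agent.U143.RG
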