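import Pool.Agent.U143.RG.Lem
import Pool.Agent.U93.Semi

/-!
# Functions with nonnegative multiplicities on solvable subgroups: blocks of odd prime size
-/

set_option autoImplicit false
set_option linter.unusedSectionVars false

namespace Pool.Agent.U143.RG

open Equiv Equiv.Perm Pool.Agent.H302R2 Pool.Agent.H302R3 Pool.Agent.U93

section main

variable {α : Type*} [Fintype α] [DecidableEq α] {θ : alternatingGroup α → ℂ}

/-- The translations of two blocks of odd prime size are not all in the kernel of `θ`, if `θ` is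
not constant. -/
theorem ker_prime (hθ : IsSolHeilbronn θ) {p b : ℕ} [hp : Fact p.Prime] (hodd : Odd p) (hb : 2 ≤ b)
    (hF : 3 ≤ Fintype.card (ZMod p)) (f : Fin b × ZMod p ↪ α)
    (hK : ∀ a, θ (bh hF f (Multiplicative.ofAdd a)) = θ 1) : HasDoubleSwaps θ := by
  classical
  let i0 : Fin b := ⟨0, by omega⟩
  let i1 : Fin b := ⟨1, by omega⟩
  have hi : i0 ≠ i1 := by simp [i0, i1]
  let g : ZMod p × ZMod 2 ↪ α :=
    ⟨fun q => f (if q.2 = 0 then i0 else i1, q.1), by
      rintro ⟨u, e⟩ ⟨u', e'⟩ h
      have h1 := f.injective h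
      simp only [Prod.mk.injEq] at h1
      obtain ⟨h2, rfl⟩ := h1
      have h3 : e = 0 ↔ e' = 0 := by
        by_cases he : e = 0 <;> by_cases he' : e' = 0 <;> simp_all
      have h4 : ∀ e e' : ZMod 2, (e = 0 ↔ e' = 0) → e = e' := by decide
      rw [h4 e e' h3]⟩
  have hg : ∀ u e, g (u, e) = f (if e = 0 then i0 else i1, u) := fun u e => rfl
  let ρ : Perm (ZMod p) := Equiv.addRight 1
  have hs : Perm.sign (sh (ZMod 2) ρ) = 1 := by
    rw [sign_sh, ZMod.card, Int.units_sq]
  let x := xs g ρ hs
  -- `x` is a translation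
  let a0 : Fin b → ZMod p := fun i => if i = i0 ∨ i = i1 then 1 else 0
  have hxa : x = bh hF f (Multiplicative.ofAdd a0) := by
    apply Subtype.ext
    rw [bh_coe]
    change viaEmbeddingHom g (sh (ZMod 2) ρ) = _
    ext y
    by_cases hex : ∃ q, f q = y
    · obtain ⟨⟨i, u⟩, rfl⟩ := hex
      rw [viaEmb_apply]
      by_cases hi0 : i = i0
      · subst hi0
        have : f (i0, u) = g (u, 0) := by rw [hg, if_pos rfl]
        rw [this, viaEmb_apply, sh_apply, hg, if_pos rfl]
        simp [Pool.Agent.H302R2.trans, a0, ρ]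
      · by_cases hi1 : i = i1
        · subst hi1
          have : f (i1, u) = g (u, 1) := by rw [hg, if_neg (by decide)]
          rw [this, viaEmb_apply, sh_apply, hg, if_neg (by decide)]
          simp [Pool.Agent.H302R2.trans, a0, ρ]
        · rw [viaEmb_notMem g]
          · simp [Pool.Agent.H302R2.trans, a0, hi0, hi1]
          · rintro ⟨u', e⟩ h
            rw [hg] at h
            have h1 := f.injective h
            simp only [Prod.mk.injEq] at h1
            by_cases he : e = 0
            · rw [if_pos he] at h1; exact hi0 h1.1.symm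
            · rw [if_neg he] at h1; exact hi1 h1.1.symm
    · push Not at hex
      rw [viaEmb_notMem f _ hex, viaEmb_notMem g _ (fun q hq => hex _ hq)]
  have hρ : ∀ (k : ℕ) (u : ZMod p), (ρ ^ k) u = u + k := by
    intro k
    induction k with
    | zero => intro u; simp
    | succ k ih =>
      intro u
      rw [pow_succ', Perm.mul_apply, ih]
      simp only [ρ, coe_addRight]
      push_cast; ring
  have hxp : x ^ p = 1 := by
    apply Subtype.ext
    rw [xs_pow]
    have : ρ ^ p = 1 := by
      ext u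
      rw [hρ, ZMod.natCast_self, add_zero, Perm.one_apply]
    rw [this, sh_one, map_one]
    rfl
  have hker := frob_kernel hθ (nu g) hp.out hxp (x := x) (fun m => ?_) (by rw [hxa, hK]) ?_
  · -- a double transposition
    let v : M0 (ZMod p) (ZMod 2) := ⟨fun i => if i = 0 ∨ i = 1 then 1 else 0, by
      rw [mem_M0, ← Finset.sum_filter, Finset.sum_const]
      have h1 : (Finset.univ.filter fun i : ZMod p => i = 0 ∨ i = 1) = {0, 1} := by
        ext i; simp
      rw [h1, Finset.card_pair (by exact zero_ne_one)]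
      rfl⟩
    set z : Perm α := viaEmbeddingHom g (tr (ZMod p) (ZMod 2)
      (Multiplicative.ofAdd ((v : M0 (ZMod p) (ZMod 2)) : ZMod p → ZMod 2))) with hz
    have hzK : InK θ z := ⟨(nu g (Multiplicative.ofAdd v)).2, hker (Multiplicative.ofAdd v)⟩
    have hz2 : z * z = 1 := by
      rw [hz, ← map_mul, ← map_mul, ← ofAdd_add]
      have : ((v : M0 (ZMod p) (ZMod 2)) : ZMod p → ZMod 2) + (v : ZMod p → ZMod 2) = 0 := by
        ext i
        simp only [Pi.add_apply, Pi.zero_apply]
        exact CharTwo.add_self_eq_zero _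
      rw [this, ofAdd_zero, map_one, map_one]
    have hz1 : z ≠ 1 := by
      intro h
      have h1 : tr (ZMod p) (ZMod 2) (Multiplicative.ofAdd ((v : M0 (ZMod p) (ZMod 2)) :
          ZMod p → ZMod 2)) = 1 := by
        apply viaEmbeddingHom_injective g
        rw [map_one]; exact h
      have h2 := congrArg (fun π : Perm (ZMod p × ZMod 2) => (π (0, 0)).2) h1
      simp [tr_apply, v] at h2
    intro a b c d hab hac had hbc hbd hcd
    exact hzK.double_swap hθ hz2 hz1 hab hac had hbc hbd hcd
  · exact ⟨_, xs_conj g ρ hs (Multiplicative.toAdd m)⟩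
  · intro k hk m
    obtain ⟨w, hw⟩ := exists_diff hodd hk (Multiplicative.toAdd m)
    refine ⟨Multiplicative.ofAdd w, ?_⟩
    apply Subtype.ext
    rw [Subgroup.coe_mul, Subgroup.coe_mul, Subgroup.coe_mul, Subgroup.coe_inv, Subgroup.coe_inv,
      xs_pow, nu_coe, nu_coe]
    simp only [← map_inv, ← map_mul]
    rw [sh_inv]
    congr 1
    rw [← ofAdd_neg]
    have hρi : ∀ i : ZMod p, (ρ ^ k)⁻¹ i = i - k := by
      intro i
      rw [Perm.inv_eq_iff_eq, hρ]
      ring
    ext ⟨i, e⟩
    · simp only [Perm.mul_apply, sh_apply, tr_apply, hρi, hρ]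
      ring
    · simp only [Perm.mul_apply, sh_apply, tr_apply, hρi, hρ]
      simp only [toAdd_ofAdd, Pi.neg_apply, hw, sub_add_cancel]
      ring
end main

section value

variable {n : ℕ} {θ : alternatingGroup (Fin n) → ℂ}

/-- The values on the translations of blocks of odd prime size. -/
theorem prime_value (hn : 8 ≤ n) (hθ : IsSolHeilbronn θ) (hD : ¬ HasDoubleSwaps θ) {r : ℕ}
    (hr : θ 1 = r) (hrn : r + 2 ≤ n) {p b : ℕ} [hp : Fact p.Prime] (hodd : Odd p) (hb : 2 ≤ b)
    (hbp : b * p = n) (hF : 3 ≤ Fintype.card (ZMod p)) (f : Fin b × ZMod p ↪ Fin n)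
    (a : Fin b → ZMod p) :
    θ (bh hF f (Multiplicative.ofAdd a)) = r - (p : ℂ) * wt a := by
  have hp3 : 3 ≤ p := by rwa [ZMod.card] at hF
  have key := block_dich hθ hF hb f hr (by
    rw [ZMod.card]
    obtain ⟨q, rfl⟩ := Nat.exists_eq_add_of_le hp3
    have : 3 + q - 1 = q + 2 := by omega
    rw [this]
    nlinarith) (by
    rw [ZMod.card]
    obtain ⟨q, rfl⟩ := Nat.exists_eq_add_of_le hp3
    obtain ⟨c, rfl⟩ := Nat.exists_eq_add_of_le hb
    have h1 : 3 + q - 1 = q + 2 := by omega
    have h2 : 2 + c - 1 = c + 1 := by omega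
    rw [h1, h2]
    -- `(c + 2) (q + 3) - 2 < (q + 2) ^ 2 (c + 1)` unless `q = c = 0`
    have h3 : q ≠ 0 ∨ c ≠ 0 := by
      by_contra hcon
      push Not at hcon
      obtain ⟨rfl, rfl⟩ := hcon
      omega
    have h4 : 1 ≤ q + c := by omega
    nlinarith [Nat.zero_le (q * c), Nat.zero_le (q * q * c), Nat.zero_le (q * q)])
  rcases key with key | key
  · exact absurd (ker_prime hθ hodd hb hF f key) hD
  · rw [key a, ZMod.card]

lemma trans_coset (hθ : IsSolHeilbronn θ) {r : ℕ} {p m : ℕ} [hp : Fact p.Prime]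
    (hF : 3 ≤ Fintype.card (ZMod p)) (f : Fin m × ZMod p ↪ Fin n)
    (hval : ∀ a : Fin m → ZMod p, θ (bh hF f (Multiplicative.ofAdd a)) = r - (p : ℂ) * wt a)
    (ρ : Perm (Fin m)) (hρ : ∀ i, ρ i ≠ i)
    (hs : viaEmbeddingHom f (sh (ZMod p) ρ) ∈ alternatingGroup (Fin n)) (c : Fin m → ZMod p) :
    V θ (viaEmbeddingHom f (Pool.Agent.H302R2.trans m (ZMod p) (Multiplicative.ofAdd c))
      * viaEmbeddingHom f (sh (ZMod p) ρ)) = V θ (viaEmbeddingHom f (sh (ZMod p) ρ)) := by
  classical
  set x : alternatingGroup (Fin n) := ⟨_, hs⟩ with hx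
  have hconj : ∀ a : Fin m → ZMod p, x * bh hF f (Multiplicative.ofAdd a) * x⁻¹
      = bh hF f (Multiplicative.ofAdd (fun i => a (ρ⁻¹ i))) := by
    intro a
    apply Subtype.ext
    rw [Subgroup.coe_mul, Subgroup.coe_mul, Subgroup.coe_inv, bh_coe, bh_coe]
    change viaEmbeddingHom f (sh (ZMod p) ρ) * viaEmbeddingHom f _ *
      (viaEmbeddingHom f (sh (ZMod p) ρ))⁻¹ = _
    rw [← map_inv, ← map_mul, ← map_mul]
    congr 1
    exact sh_conj ρ a
  have hinj : Function.Injective (bh hF f : Multiplicative (Fin m → ZMod p) → _) := by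
    intro a b h
    have h1 := congrArg (fun g : alternatingGroup (Fin n) => (g : Perm (Fin n))) h
    simp only [bh_coe] at h1
    have h2 := viaEmbeddingHom_injective f h1
    apply Multiplicative.toAdd.injective
    ext i
    have h3 := congrArg (fun π : Perm (Fin m × ZMod p) => (π (i, 0)).2) h2
    simpa [Pool.Agent.H302R2.trans] using h3
  have key := coset_const hθ (bh hF f) hinj (x := x) (fun m => ⟨_, hconj (Multiplicative.toAdd m)⟩)
    (Ω := Fin m) (fun ω =>
      { carrier := {a | Multiplicative.toAdd a ω = 0}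
        one_mem' := rfl
        mul_mem' := by
          intro a b ha hb
          change Multiplicative.toAdd a ω + Multiplicative.toAdd b ω = 0
          rw [Set.mem_ofPred_eq] at ha hb
          rw [ha, hb, add_zero]
        inv_mem' := by
          intro a ha
          change -(Multiplicative.toAdd a ω) = 0
          rw [Set.mem_ofPred_eq] at ha
          rw [ha, neg_zero] })
    (fun ω a => if Multiplicative.toAdd a ω ≠ 0 then (p : ℂ) else 0) (r : ℂ) ?_ ?_ ?_
    (Multiplicative.ofAdd c)
  · exact ((V_coe (θ := θ) (bh hF f (Multiplicative.ofAdd c) * x)).trans key).trans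
      (V_coe (θ := θ) x).symm
  · intro ω b hb a
    have hb' : Multiplicative.toAdd b ω = 0 := hb
    rw [toAdd_mul, Pi.add_apply, hb', add_zero]
  · intro a
    have h1 := hval (Multiplicative.toAdd a)
    rw [ofAdd_toAdd] at h1
    rw [h1, wt, Finset.sum_ite, Finset.sum_const_zero, add_zero, Finset.sum_const, nsmul_eq_mul,
      mul_comm]
  · intro l hl hinv ω
    obtain ⟨a, ha⟩ : ∃ a, l a ≠ 1 := by
      by_contra hcon
      push Not at hcon
      exact hl (MonoidHom.ext hcon)
    obtain ⟨i, t, hit⟩ : ∃ (i : Fin m) (t : ZMod p), l (Multiplicative.ofAdd (Pi.single i t)) ≠ 1 := by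
      by_contra hcon
      push Not at hcon
      apply ha
      have h1 : a = ∏ i, Multiplicative.ofAdd (Pi.single i (Multiplicative.toAdd a i)) := by
        rw [← ofAdd_sum, Finset.univ_sum_single]
        rfl
      rw [h1, map_prod]
      exact Finset.prod_eq_one fun i _ => hcon i _
    by_cases hiω : i = ω
    · refine ⟨Multiplicative.ofAdd (Pi.single (ρ i) t), ?_, ?_⟩
      · change (Pi.single (ρ i) t : Fin m → ZMod p) ω = 0
        rw [Pi.single_eq_of_ne]
        rw [← hiω]
        exact (hρ i).symm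
      · rw [hinv (Multiplicative.ofAdd (Pi.single i t)) _ ?_]
        · exact hit
        · rw [hconj]
          congr 2
          ext j
          rw [Pi.single_apply, Pi.single_apply]
          simp only [Perm.inv_eq_iff_eq]
    · refine ⟨Multiplicative.ofAdd (Pi.single i t), ?_, hit⟩
      change (Pi.single i t : Fin m → ZMod p) ω = 0
      rw [Pi.single_eq_of_ne (fun h => hiω h.symm)]
end value

end Pool.Agent.U143.RG
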