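import Pool.Agent.U143.RG.Inv
import Pool.Agent.U93.Lem
import Pool.Agent.U93.Ker
import Pool.Agent.H302R4.PGLSol

/-!
# Functions with nonnegative multiplicities on solvable subgroups: an abelian subgroup and a coset
-/

set_option autoImplicit false
set_option linter.unusedSectionVars false

namespace Pool.Agent.U143.RG

open Equiv Equiv.Perm Pool.Agent.H302R2 Pool.Agent.H302R3 Pool.Agent.U93

section lem

universe u v

variable {G : Type u} [Group G] [Finite G] {θ : G → ℂ}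

/-- The elements `ν m * x ^ k`, where `x` normalizes the image of the commutative group `M`. -/
def semi {M : Type v} [CommGroup M] (ν : M →* G) (x : G)
    (hx : ∀ m, ∃ m', x * ν m * x⁻¹ = ν m') : Subgroup G :=
  have hxk : ∀ (k : ℕ) (m : M), ∃ m', x ^ k * ν m * (x ^ k)⁻¹ = ν m' := by
    intro k
    induction k with
    | zero => intro m; exact ⟨m, by simp⟩
    | succ k ih =>
      intro m
      obtain ⟨m1, h1⟩ := ih m
      obtain ⟨m2, h2⟩ := hx m1
      refine ⟨m2, ?_⟩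
      rw [← h2, ← h1, pow_succ']
      group
  { carrier := {g | ∃ (m : M) (k : ℕ), g = ν m * x ^ k}
    one_mem' := ⟨1, 0, by simp⟩
    mul_mem' := by
      rintro _ _ ⟨m, k, rfl⟩ ⟨m', k', rfl⟩
      obtain ⟨m'', h5⟩ := hxk k m'
      refine ⟨m * m'', k + k', ?_⟩
      rw [map_mul, ← h5, pow_add]; group
    inv_mem' := by
      rintro _ ⟨m, k, rfl⟩
      have hp : 0 < orderOf x := orderOf_pos x
      have hinv : x ^ (k * (orderOf x - 1)) = (x ^ k)⁻¹ := by
        rw [eq_inv_iff_mul_eq_one, ← pow_add]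
        have h6 : k * (orderOf x - 1) + k = orderOf x * k := by
          obtain ⟨q, hq⟩ := Nat.exists_eq_add_of_lt hp
          rw [hq]; simp; ring
        rw [h6, pow_mul, pow_orderOf_eq_one, one_pow]
      obtain ⟨m', h5⟩ := hxk (k * (orderOf x - 1)) m⁻¹
      refine ⟨m', k * (orderOf x - 1), ?_⟩
      rw [← h5, hinv, map_inv]
      group }

lemma mem_semi_x {M : Type v} [CommGroup M] (ν : M →* G) (x : G)
    (hx : ∀ m, ∃ m', x * ν m * x⁻¹ = ν m') : x ∈ semi ν x hx := ⟨1, 1, by simp⟩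

lemma mem_semi_ν {M : Type v} [CommGroup M] (ν : M →* G) (x : G)
    (hx : ∀ m, ∃ m', x * ν m * x⁻¹ = ν m') (m : M) : ν m ∈ semi ν x hx := ⟨m, 0, by simp⟩

lemma semi_sol {M : Type v} [CommGroup M] (ν : M →* G) (x : G)
    (hx : ∀ m, ∃ m', x * ν m * x⁻¹ = ν m') : Group.IsSolvable (semi ν x hx) := by
  have hxk : ∀ (k : ℕ) (m : M), ∃ m', x ^ k * ν m * (x ^ k)⁻¹ = ν m' := by
    intro k
    induction k with
    | zero => intro m; exact ⟨m, by simp⟩
    | succ k ih =>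
      intro m
      obtain ⟨m1, h1⟩ := ih m
      obtain ⟨m2, h2⟩ := hx m1
      refine ⟨m2, ?_⟩
      rw [← h2, ← h1, pow_succ']
      group
  refine Pool.Agent.H302R4.sol_of_commutators (ν.range.subgroupOf (semi ν x hx)) ?_ ?_
  · rintro ⟨_, m, k, rfl⟩ ⟨_, m', l, rfl⟩
    rw [Subgroup.mem_subgroupOf]
    obtain ⟨m1, h1⟩ := hxk k m'
    obtain ⟨m2, h2⟩ := hxk l m⁻¹
    refine ⟨m * m1 * m2 * m'⁻¹, ?_⟩
    rw [map_mul, map_mul, map_mul, ← h1, ← h2, map_inv, map_inv]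
    change _ = ν m * x ^ k * (ν m' * x ^ l) * (ν m * x ^ k)⁻¹ * (ν m' * x ^ l)⁻¹
    group
  · rintro ⟨a, ha⟩ ha' ⟨b, hb⟩ hb'
    rw [Subgroup.mem_subgroupOf] at ha' hb'
    obtain ⟨m, rfl⟩ := ha'
    obtain ⟨m', rfl⟩ := hb'
    apply Subtype.ext
    change ν m * ν m' = ν m' * ν m
    rw [← map_mul, ← map_mul, mul_comm]

/-- `ν` with values in `semi`. -/
def νE {M : Type v} [CommGroup M] (ν : M →* G) (x : G)
    (hx : ∀ m, ∃ m', x * ν m * x⁻¹ = ν m') : M →* semi ν x hx :=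
  ν.codRestrict _ (mem_semi_ν ν x hx)

lemma νE_hx {M : Type v} [CommGroup M] (ν : M →* G) (x : G)
    (hx : ∀ m, ∃ m', x * ν m * x⁻¹ = ν m') (m : M) :
    ∃ m', (⟨x, mem_semi_x ν x hx⟩ : semi ν x hx) * νE ν x hx m * (⟨x, mem_semi_x ν x hx⟩)⁻¹
      = νE ν x hx m' := by
  obtain ⟨m', h⟩ := hx m
  exact ⟨m', Subtype.ext h⟩

/-- **Coset lemma** for functions with nonnegative multiplicities on solvable subgroups. -/
theorem coset_const (hθ : IsSolHeilbronn θ) {M : Type v} [CommGroup M] [Fintype M] (ν : M →* G)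
    (hν : Function.Injective ν) {x : G} (hx : ∀ m, ∃ m', x * ν m * x⁻¹ = ν m')
    {Ω : Type*} [Fintype Ω] (K : Ω → Subgroup M) (g : Ω → M → ℂ) (c : ℂ)
    (hg : ∀ ω, ∀ b ∈ K ω, ∀ m, g ω (m * b) = g ω m) (hform : ∀ m, θ (ν m) = c - ∑ ω, g ω m)
    (hl : ∀ l : M →* ℂˣ, l ≠ 1 → (∀ m m', x * ν m * x⁻¹ = ν m' → l m' = l m) →
      ∀ ω, ∃ b ∈ K ω, l b ≠ 1) (m : M) : θ (ν m * x) = θ x :=
  Pool.Agent.U93.coset_const (hθ.comp_sol (semi_sol ν x hx) (semi ν x hx).subtype) (νE ν x hx)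
    (fun _ _ h => hν (congrArg Subtype.val h)) (x := ⟨x, mem_semi_x ν x hx⟩) (νE_hx ν x hx) K g c hg
    hform (fun l hl1 hinv => hl l hl1 fun m m' h => hinv m m' (Subtype.ext h)) m

/-- The sum over the group generated by `x` and an abelian group normalized by `x`. -/
theorem sum_nat (hθ : IsSolHeilbronn θ) {M : Type v} [CommGroup M] [Fintype M] (ν : M →* G)
    (hν : Function.Injective ν) {x : G} (hx : ∀ m, ∃ m', x * ν m * x⁻¹ = ν m') :
    ∃ c : ℕ, ∑ᶠ h : Subgroup.zpowers x, ∑ m : M, θ (ν m * h) = c := by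
  classical
  obtain ⟨c, hc⟩ := Pool.Agent.U93.sum_nat (hθ.comp_sol (semi_sol ν x hx) (semi ν x hx).subtype)
    (νE ν x hx) (fun _ _ h => hν (congrArg Subtype.val h)) (x := ⟨x, mem_semi_x ν x hx⟩)
    (νE_hx ν x hx)
  refine ⟨c, ?_⟩
  rw [← hc]
  let e : Subgroup.zpowers (⟨x, mem_semi_x ν x hx⟩ : semi ν x hx) → Subgroup.zpowers x :=
    fun h => ⟨(h : semi ν x hx), by
      obtain ⟨k, hk⟩ := h.2
      exact ⟨k, by rw [← hk]; rfl⟩⟩
  have he : Function.Bijective e := by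
    constructor
    · intro a b h
      apply Subtype.ext
      apply Subtype.ext
      have h1 := congrArg (Subtype.val : Subgroup.zpowers x → G) h
      exact h1
    · rintro ⟨g, k, hk⟩
      refine ⟨⟨⟨x, mem_semi_x ν x hx⟩ ^ k, k, rfl⟩, ?_⟩
      apply Subtype.ext
      exact hk
  exact (finsum_eq_of_bijective e he fun h => rfl).symm

/-- An element of prime order in the kernel, which acts without fixed points on an abelian group,
forces this group into the kernel. -/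
theorem frob_kernel (hθ : IsSolHeilbronn θ)
    {M : Type v} [CommGroup M] [Finite M] (ν : M →* G) {x : G} {p : ℕ} (hp : p.Prime)
    (hxp : x ^ p = 1) (hx : ∀ m, ∃ m', x * ν m * x⁻¹ = ν m') (hθx : θ x = θ 1)
    (hs : ∀ k : ℕ, ¬ p ∣ k → ∀ m, ∃ w, ν m = ν w * x ^ k * (ν w)⁻¹ * (x ^ k)⁻¹) (m : M) :
    θ (ν m) = θ 1 := by
  have h := Pool.Agent.U93.frob_kernel (hθ.comp_sol (semi_sol ν x hx) (semi ν x hx).subtype)
    (νE ν x hx) (x := ⟨x, mem_semi_x ν x hx⟩) hp (Subtype.ext hxp) (νE_hx ν x hx) (by simpa using hθx)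
    (fun k hk m => by
      obtain ⟨w, hw⟩ := hs k hk m
      exact ⟨w, Subtype.ext hw⟩) m
  exact h

end lem

end Pool.Agent.U143.RG
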