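import Pool.Agent.U143.RG.Fin

/-!
# Abelian layers whose nontrivial characters have many conjugates
-/

set_option autoImplicit false
set_option linter.unusedSectionVars false

namespace Pool.Agent.U143.RG

open Pool.Agent.H302R2 Pool.Agent.H302R3 Pool.Agent.H302R5 Pool.Agent.TH820

section inversion

variable {A : Type} [CommGroup A] [Finite A]

lemma sum_dual [Fintype A] [Fintype (A →* ℂˣ)] {a : A} (ha : a ≠ 1) :
    ∑ lam : A →* ℂˣ, ((lam a : ℂˣ) : ℂ) = 0 := by
  obtain ⟨mu, hmu⟩ := CommGroup.exists_apply_ne_one_of_hasEnoughRootsOfUnity A ℂ ha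
  have h1 : ∑ lam : A →* ℂˣ, ((lam a : ℂˣ) : ℂ)
      = ((mu a : ℂˣ) : ℂ) * ∑ lam : A →* ℂˣ, ((lam a : ℂˣ) : ℂ) := by
    rw [Finset.mul_sum, ← Equiv.sum_comp (Equiv.mulLeft mu)
      (fun lam : A →* ℂˣ => ((lam a : ℂˣ) : ℂ))]
    refine Finset.sum_congr rfl fun lam _ => ?_
    rw [Equiv.coe_mulLeft, MonoidHom.mul_apply, Units.val_mul]
  have h2 : (1 - ((mu a : ℂˣ) : ℂ)) * ∑ lam : A →* ℂˣ, ((lam a : ℂˣ) : ℂ) = 0 := by
    rw [sub_mul, one_mul, ← h1, sub_self]
  rcases mul_eq_zero.mp h2 with h3 | h3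
  · exact absurd (Units.ext (sub_eq_zero.mp h3).symm) hmu
  · exact h3

lemma inversion [Fintype A] [Fintype (A →* ℂˣ)] (f : A → ℂ) (a : A) :
    ∑ lam : A →* ℂˣ, (∑ b : A, f b * (((lam b)⁻¹ : ℂˣ) : ℂ)) * ((lam a : ℂˣ) : ℂ)
      = Nat.card A * f a := by
  classical
  have h1 : ∀ lam : A →* ℂˣ, (∑ b : A, f b * (((lam b)⁻¹ : ℂˣ) : ℂ)) * ((lam a : ℂˣ) : ℂ)
      = ∑ b : A, f b * ((lam (b⁻¹ * a) : ℂˣ) : ℂ) := by
    intro lam
    rw [Finset.sum_mul]
    refine Finset.sum_congr rfl fun b _ => ?_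
    rw [map_mul, map_inv, Units.val_mul, mul_assoc]
  rw [Finset.sum_congr rfl (fun lam _ => h1 lam), Finset.sum_comm]
  have h2 : ∀ b : A, ∑ lam : A →* ℂˣ, f b * ((lam (b⁻¹ * a) : ℂˣ) : ℂ)
      = if b = a then Nat.card A * f a else 0 := by
    intro b
    rw [← Finset.mul_sum]
    by_cases hb : b = a
    · subst hb
      rw [if_pos rfl, inv_mul_cancel]
      simp only [map_one, Units.val_one]
      rw [Finset.sum_const, Finset.card_univ, nsmul_eq_mul, mul_one, ← Nat.card_eq_fintype_card,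
        CommGroup.card_monoidHom_of_hasEnoughRootsOfUnity A ℂ, mul_comm]
    · rw [if_neg hb, sum_dual (fun h => hb (by
        have := congrArg (fun z => b * z) h
        simpa using this.symm)), mul_zero]
  rw [Finset.sum_congr rfl (fun b _ => h2 b), Finset.sum_ite_eq' Finset.univ a,
    if_pos (Finset.mem_univ _)]

end inversion

/-- an abelian normal subgroup whose nontrivial linear characters have more than `r` conjugates -/
theorem const_of_orbit {Q : Type} [Group Q] [Finite Q] {θ : Q → ℂ} (hθ : IsSolHeilbronn θ) {r s : ℕ}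
    (hs : s ≤ r) (h1 : θ 1 = s) (A : Subgroup Q) [hA : A.Normal]
    (hc : ∀ a ∈ A, ∀ b ∈ A, a * b = b * a)
    (ho : ∀ lam : A →* ℂˣ, lam ≠ 1 → r < {mu : A →* ℂˣ | ∃ g : Q, ∀ a b : A,
      (b : Q) = g * a * g⁻¹ → mu a = lam b}.ncard) :
    ∀ n ∈ A, ∀ x, θ (n * x) = θ x := by
  classical
  let _ : CommGroup A :=
    { (inferInstance : Group A) with mul_comm := fun a b => Subtype.ext (hc a a.2 b b.2) }
  have : Fintype A := Fintype.ofFinite A
  have : Finite (A →* ℂˣ) := by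
    have h := CommGroup.card_monoidHom_of_hasEnoughRootsOfUnity A ℂ
    exact Nat.finite_of_card_ne_zero (by rw [h]; exact Nat.card_pos.ne')
  have : Fintype (A →* ℂˣ) := Fintype.ofFinite _
  have hsol : Group.IsSolvable A := sol_of_comm mul_comm
  have hm : ∀ lam : A →* ℂˣ, ∃ n : ℕ,
      ∑ b : A, θ b * (((lam b)⁻¹ : ℂˣ) : ℂ) = (n : ℂ) * Nat.card A := by
    intro lam
    obtain ⟨n, hn⟩ := hθ.mult_hom hsol A.subtype lam
    exact ⟨n, by simpa using hn⟩
  choose n hn using hm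
  have hA0 : (Nat.card A : ℂ) ≠ 0 := by exact_mod_cast Nat.card_pos.ne'
  have hval : ∀ a : A, θ a = ∑ lam : A →* ℂˣ, (n lam : ℂ) * ((lam a : ℂˣ) : ℂ) := by
    intro a
    have h2 := inversion (fun b : A => θ b) a
    apply mul_left_cancel₀ hA0
    rw [← h2, Finset.mul_sum]
    refine Finset.sum_congr rfl fun lam _ => ?_
    rw [hn lam]
    ring
  have hsum : ∑ lam : A →* ℂˣ, n lam = s := by
    have h2 := hval 1
    rw [Subgroup.coe_one, h1] at h2
    simp only [map_one, Units.val_one, mul_one] at h2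
    exact_mod_cast h2.symm
  -- conjugate characters have the same multiplicity
  have hconj : ∀ (lam mu : A →* ℂˣ) (g : Q), (∀ a b : A, (b : Q) = g * a * g⁻¹ → mu a = lam b) →
      n mu = n lam := by
    intro lam mu g h
    have h2 : (n mu : ℂ) * Nat.card A = n lam * Nat.card A := by
      rw [← hn mu, ← hn lam, ← Equiv.sum_comp (MulAut.conjNormal g).toEquiv
        (fun b : A => θ b * (((lam b)⁻¹ : ℂˣ) : ℂ))]
      refine Finset.sum_congr rfl fun b _ => ?_
      have h3 : (((MulAut.conjNormal g).toEquiv b : A) : Q) = g * b * g⁻¹ :=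
        MulAut.conjNormal_apply g b
      rw [h3, hθ.conj, h b _ h3]
    exact_mod_cast mul_right_cancel₀ hA0 h2
  have hzero : ∀ lam : A →* ℂˣ, lam ≠ 1 → n lam = 0 := by
    intro lam hl
    by_contra hne
    set S : Set (A →* ℂˣ) := {mu : A →* ℂˣ | ∃ g : Q, ∀ a b : A,
      (b : Q) = g * a * g⁻¹ → mu a = lam b} with hS
    have h2 : r < S.ncard := ho lam hl
    have h3 : S.ncard ≤ ∑ mu : A →* ℂˣ, n mu := by
      rw [Set.ncard_eq_toFinset_card']
      calc S.toFinset.card = ∑ mu ∈ S.toFinset, 1 := by simp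
        _ ≤ ∑ mu ∈ S.toFinset, n mu := by
          refine Finset.sum_le_sum fun mu hmu => ?_
          obtain ⟨g, hg⟩ := Set.mem_toFinset.mp hmu
          rw [hconj lam mu g hg]
          omega
        _ ≤ ∑ mu : A →* ℂˣ, n mu :=
          Finset.sum_le_sum_of_subset (Finset.subset_univ _)
    omega
  refine const_of_kernel hθ A fun a ha => ?_
  have h4 : ∀ b : A, θ b = n 1 := by
    intro b
    rw [hval b, Finset.sum_eq_single (1 : A →* ℂˣ)]
    · simp
    · intro lam _ hl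
      rw [hzero lam hl]; simp
    · intro h; exact absurd (Finset.mem_univ _) h
  have h5 := h4 ⟨a, ha⟩
  have h6 := h4 1
  simp only [Subgroup.coe_one] at h6
  rw [h6]
  exact h5

end Pool.Agent.U143.RG
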