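import Pool.Agent.U143.RG.Sharp
import Pool.Agent.H302R5.Weak2

/-!
# Functions with nonnegative multiplicities on solvable subgroups: alternating and symmetric groups
-/

set_option autoImplicit false
set_option linter.unusedSectionVars false

namespace Pool.Agent.U143.RG

open Equiv Equiv.Perm Pool.Agent.H302R2 Pool.Agent.H302R3 Pool.Agent.U93

/-- the embedding of a smaller alternating group -/
noncomputable def altEmb {m n : ℕ} (f : Fin m ↪ Fin n) :
    alternatingGroup (Fin m) →* alternatingGroup (Fin n) :=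
  ((viaEmbeddingHom f).comp (alternatingGroup (Fin m)).subtype).codRestrict _ (fun g => by
    rw [mem_alternatingGroup, MonoidHom.comp_apply, viaEmb_sign]
    exact mem_alternatingGroup.mp g.2)

/-- Every function of degree at most `r` with nonnegative multiplicities on the solvable subgroups of
`S` is constant. -/
def SRigid (r : ℕ) (S : Type*) [Group S] : Prop :=
  ∀ θ : S → ℂ, IsSolHeilbronn θ → ∀ s : ℕ, s ≤ r → θ 1 = s → ∀ g, θ g = θ 1

/-- The alternating group of degree `n` in the sharp range. -/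
theorem alt_range {n r : ℕ} (hn : 8 ≤ n) (h : r + 3 ≤ n ∨ (r + 2 ≤ n ∧ ¬ n.Prime)) :
    SRigid r (alternatingGroup (Fin n)) := by
  classical
  intro θ hθ s hs h1 g
  by_cases hp : n.Prime
  · have h3 : r + 3 ≤ n := by
      rcases h with h | h
      · exact h
      · exact absurd hp h.2
    -- restriction to the alternating group of degree `n - 1`
    obtain ⟨m, rfl⟩ : ∃ m, n = m + 1 := ⟨n - 1, by omega⟩
    have hm8 : 8 ≤ m := by
      rcases Nat.lt_or_ge m 8 with h | h
      · have : m = 7 := by omega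
        subst this
        exact absurd hp (by norm_num)
      · exact h
    have hodd := hp.odd_of_ne_two (by omega)
    have hmp : ¬ m.Prime := by
      intro hmp
      rcases hmp.eq_two_or_odd' with h | h
      · omega
      · obtain ⟨a, ha⟩ := hodd
        obtain ⟨b, hb⟩ := h
        omega
    let F := altEmb (Fin.castSuccEmb (n := m))
    have hc : ∀ g : alternatingGroup (Fin m), θ (F g) = θ (F 1) := fun g =>
      alt_sharp hm8 hmp (hθ.comp F) (r := s) (by simpa using h1) (by omega) g
    let i : ℕ → Fin m := fun k => ⟨k % m, Nat.mod_lt _ (by omega)⟩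
    have hi : ∀ a b : ℕ, a < 4 → b < 4 → a ≠ b → i a ≠ i b := by
      intro a b ha hb hab h
      have h2 := congrArg Fin.val h
      simp only [i] at h2
      rw [Nat.mod_eq_of_lt (by omega), Nat.mod_eq_of_lt (by omega)] at h2
      exact hab h2
    let z : Perm (Fin m) := swap (i 0) (i 1) * swap (i 2) (i 3)
    have hzs : Perm.sign z = 1 := by
      rw [Perm.sign_mul, sign_swap (hi 0 1 (by omega) (by omega) (by omega)),
        sign_swap (hi 2 3 (by omega) (by omega) (by omega))]
      rfl
    have hdis : Disjoint (swap (i 0) (i 1)) (swap (i 2) (i 3)) := by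
      rw [disjoint_iff_disjoint_support, support_swap (hi 0 1 (by omega) (by omega) (by omega)),
        support_swap (hi 2 3 (by omega) (by omega) (by omega))]
      simp only [Finset.disjoint_insert_left, Finset.mem_insert, Finset.mem_singleton,
        Finset.disjoint_singleton_left, not_or]
      exact ⟨⟨hi 0 2 (by omega) (by omega) (by omega), hi 0 3 (by omega) (by omega) (by omega)⟩,
        ⟨hi 1 2 (by omega) (by omega) (by omega), hi 1 3 (by omega) (by omega) (by omega)⟩⟩
    have hz2 : z * z = 1 := by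
      have h5 := hdis.commute.eq
      calc z * z = swap (i 0) (i 1) * (swap (i 2) (i 3) * swap (i 0) (i 1)) * swap (i 2) (i 3) := by
            simp only [z]; group
        _ = (swap (i 0) (i 1) * swap (i 0) (i 1)) * (swap (i 2) (i 3) * swap (i 2) (i 3)) := by
            rw [← h5]; group
        _ = 1 := by rw [swap_mul_self, swap_mul_self, one_mul]
    have hz1 : z ≠ 1 := by
      intro h
      have h5 := congrArg (fun π : Perm (Fin m) => π (i 0)) h
      simp only [z, Perm.mul_apply, Perm.one_apply] at h5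
      rw [swap_apply_of_ne_of_ne (hi 0 2 (by omega) (by omega) (by omega))
        (hi 0 3 (by omega) (by omega) (by omega)), swap_apply_left] at h5
      exact hi 1 0 (by omega) (by omega) (by omega) h5
    have hK : InK θ (viaEmbeddingHom (Fin.castSuccEmb (n := m)) z) := by
      refine ⟨(F ⟨z, mem_alternatingGroup.mpr hzs⟩).2, ?_⟩
      have h5 := hc ⟨z, mem_alternatingGroup.mpr hzs⟩
      rw [map_one] at h5
      exact h5
    have hD : HasDoubleSwaps θ := by
      intro a b c d hab hac had hbc hbd hcd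
      refine hK.double_swap hθ ?_ ?_ hab hac had hbc hbd hcd
      · rw [← map_mul, hz2, map_one]
      · intro h
        apply hz1
        apply viaEmbeddingHom_injective
        rw [h, map_one]
    obtain ⟨h5, h6⟩ := InK.all hθ hD (by rw [Fintype.card_fin]; omega)
      (g := (g : Perm (Fin (m + 1)))) (mem_alternatingGroup.mp g.2)
    exact h6
  · exact alt_sharp hn hp hθ h1 (by omega) g


lemma two_values {Z : Type*} [Group Z] [Finite Z] {θ : Z → ℂ} (hθ : IsHeilbronn θ) (χ : Z →* ℤˣ)
    {g₀ : Z} (hg₀ : χ g₀ = -1) {r c : ℂ} (heven : ∀ g, χ g = 1 → θ g = r)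
    (hodd : ∀ g, χ g = -1 → θ g = c) : ∃ a b : ℕ, (a : ℂ) + b = r ∧ (a : ℂ) - b = c := by
  classical
  have : Fintype Z := Fintype.ofFinite Z
  obtain ⟨a, ha⟩ := hθ.mult_hom (MonoidHom.id Z) 1
  obtain ⟨b, hb⟩ := hθ.mult_hom (MonoidHom.id Z) (signToC.comp χ)
  simp only [MonoidHom.id_apply, MonoidHom.one_apply, inv_one, Units.val_one, mul_one] at ha
  have hsg : ∀ g : Z, ((((signToC.comp χ) g)⁻¹ : ℂˣ) : ℂ) = ((χ g : ℤ) : ℂ) := by
    intro g
    rw [MonoidHom.comp_apply]
    rcases Int.units_eq_one_or (χ g) with h | h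
    · rw [h]; simp
    · rw [h]; simp [signToC]
  simp only [MonoidHom.id_apply, hsg] at hb
  have hN : (Nat.card Z : ℂ) ≠ 0 := by exact_mod_cast Nat.card_pos.ne'
  have hsum0 : ∑ g : Z, ((χ g : ℤ) : ℂ) = 0 := by
    have h1 : ∑ g : Z, ((χ g : ℤ) : ℂ) = ∑ g : Z, ((χ (g * g₀) : ℤ) : ℂ) :=
      (Equiv.sum_comp (Equiv.mulRight g₀) (fun g => ((χ g : ℤ) : ℂ))).symm
    have h2 : ∑ g : Z, ((χ (g * g₀) : ℤ) : ℂ) = - ∑ g : Z, ((χ g : ℤ) : ℂ) := by
      rw [← Finset.sum_neg_distrib]
      refine Finset.sum_congr rfl fun g _ => ?_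
      rw [map_mul, hg₀]; simp
    rw [h2] at h1
    linear_combination h1 / 2
  refine ⟨a, b, ?_, ?_⟩
  · apply mul_right_cancel₀ hN
    rw [add_mul, ← ha, ← hb, ← Finset.sum_add_distrib]
    have : ∀ g : Z, θ g + θ g * ((χ g : ℤ) : ℂ) = r + r * ((χ g : ℤ) : ℂ) := by
      intro g
      rcases Int.units_eq_one_or (χ g) with h | h
      · rw [heven g h]
      · rw [h]; simp
    rw [Finset.sum_congr rfl (fun g _ => this g), Finset.sum_add_distrib, ← Finset.mul_sum, hsum0,
      Finset.sum_const, Finset.card_univ, nsmul_eq_mul, Nat.card_eq_fintype_card]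
    ring
  · apply mul_right_cancel₀ hN
    rw [sub_mul, ← ha, ← hb, ← Finset.sum_sub_distrib]
    have : ∀ g : Z, θ g - θ g * ((χ g : ℤ) : ℂ) = c - c * ((χ g : ℤ) : ℂ) := by
      intro g
      rcases Int.units_eq_one_or (χ g) with h | h
      · rw [h]; simp
      · rw [hodd g h]
    rw [Finset.sum_congr rfl (fun g _ => this g), Finset.sum_sub_distrib, ← Finset.mul_sum, hsum0,
      Finset.sum_const, Finset.card_univ, nsmul_eq_mul, Nat.card_eq_fintype_card]
    ring

/-- Functions with nonnegative multiplicities on solvable subgroups, in the sharp range, on a group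
between the alternating and the symmetric group, are combinations of `1` and the sign. -/
theorem sym_form {n : ℕ} (hn : 8 ≤ n) (G : Subgroup (Perm (Fin n)))
    (hG : alternatingGroup (Fin n) ≤ G) {θ : G → ℂ} (hθ : IsSolHeilbronn θ) {r : ℕ}
    (hr : θ 1 = r) (hlt : r + 3 ≤ n ∨ (r + 2 ≤ n ∧ ¬ n.Prime)) :
    ∃ a b : ℕ, ∀ g : G, θ g = a + b * ((Perm.sign (g : Perm (Fin n)) : ℤ) : ℂ) := by
  classical
  have : Fintype G := Fintype.ofFinite G
  have heven : ∀ g : G, Perm.sign (g : Perm (Fin n)) = 1 → θ g = r := by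
    intro g hg
    have h1 := alt_range hn hlt _ (hθ.comp (Subgroup.inclusion hG)) r le_rfl (by simpa using hr)
      ⟨(g : Perm (Fin n)), mem_alternatingGroup.mpr hg⟩
    simp only [map_one] at h1
    rw [hr] at h1
    exact h1
  let χ : G →* ℤˣ := Perm.sign.comp G.subtype
  by_cases hodd : ∃ g₀ : G, χ g₀ = -1
  swap
  · push Not at hodd
    refine ⟨r, 0, fun g => ?_⟩
    rw [heven g ((Int.units_eq_one_or _).resolve_right (hodd g))]
    simp
  obtain ⟨g₀, hg₀⟩ := hodd
  have hoddc : ∀ g : G, χ g = -1 → θ g = θ g₀ := fun g hg =>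
    Pool.Agent.H302R5.index_two' hθ χ (fun g hg => by rw [heven g hg, hr]) hg hg₀
  obtain ⟨a, b, hab, hab'⟩ := two_values (hθ.zp g₀) (χ.comp (Subgroup.zpowers g₀).subtype)
    (g₀ := ⟨g₀, Subgroup.mem_zpowers g₀⟩) hg₀ (r := r) (c := θ g₀) (fun g hg => heven g hg)
    (fun g hg => hoddc g hg)
  refine ⟨a, b, fun g => ?_⟩
  rcases Int.units_eq_one_or (χ g) with h | h
  · rw [heven g h, ← hab]
    have : Perm.sign (g : Perm (Fin n)) = 1 := h
    rw [this]; simp
  · rw [hoddc g h, ← hab']
    have : Perm.sign (g : Perm (Fin n)) = -1 := h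
    rw [this]; simp; ring

end Pool.Agent.U143.RG
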