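import Pool.Agent.U143.RG.Ker
import Pool.Agent.U93.SemiV

/-!
# Functions with nonnegative multiplicities on solvable subgroups: semiregular elements
-/

set_option autoImplicit false
set_option linter.unusedSectionVars false

namespace Pool.Agent.U143.RG

open Equiv Equiv.Perm Pool.Agent.H302R2 Pool.Agent.H302R3 Pool.Agent.U93

section value

variable {n : ℕ} {θ : alternatingGroup (Fin n) → ℂ}

/-- **The values at semiregular elements of odd order.** -/
theorem semi_value (hn : 8 ≤ n) (hnp : ¬ n.Prime) (hθ : IsSolHeilbronn θ)
    (hD : ¬ HasDoubleSwaps θ) {r : ℕ} (hr : θ 1 = r) (hrn : r + 2 ≤ n) :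
    ∀ (l : ℕ), 1 < l → Odd l → ∀ g : Perm (Fin n), Semi l g → V θ g = r - (n : ℂ) := by
  classical
  intro l
  induction l using Nat.strong_induction_on with
  | _ l ih =>
    intro hl hodd g hg
    obtain ⟨b, e, he⟩ := hg.coord (by omega)
    have : NeZero l := ⟨by omega⟩
    have hbl : b * l = n := by
      have := Fintype.card_congr e
      rwa [Fintype.card_prod, Fintype.card_fin, ZMod.card, Fintype.card_fin] at this
    by_cases hlp : l.Prime
    · have : Fact l.Prime := ⟨hlp⟩
      have h3 : 3 ≤ l := by
        obtain ⟨k, hk⟩ := hodd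
        omega
      have hb : 2 ≤ b := by
        rcases Nat.lt_or_ge b 2 with h | h
        · exfalso
          have h0 : b ≠ 0 := by rintro rfl; omega
          have h1 : b = 1 := by omega
          rw [h1, one_mul] at hbl
          exact hnp (hbl ▸ hlp)
        · exact h
      have hF : 3 ≤ Fintype.card (ZMod l) := by rwa [ZMod.card]
      have h1 := prime_value hn hθ hD hr hrn hodd hb hbl hF e.toEmbedding (fun _ => 1)
      have h2 : wt (fun _ : Fin b => (1 : ZMod l)) = b := by
        rw [wt, Finset.filter_true_of_mem (fun _ _ => one_ne_zero), Finset.card_univ,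
          Fintype.card_fin]
      rw [h2, ← V_bh (θ := θ) hF] at h1
      have h4 : g = viaEmbeddingHom e.toEmbedding (Pool.Agent.H302R2.trans b (ZMod l)
          (Multiplicative.ofAdd fun _ => 1)) := by
        ext1 y
        obtain ⟨⟨i, x⟩, rfl⟩ := e.surjective y
        have h5 := viaEmb_apply e.toEmbedding (Pool.Agent.H302R2.trans b (ZMod l)
          (Multiplicative.ofAdd fun _ => 1)) (i, x)
        rw [he]
        exact h5.symm
      rw [h4, h1, ← hbl]
      push_cast
      ring
    · -- `l = l' * p`
      have hp : l.minFac.Prime := Nat.minFac_prime (by omega)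
      obtain ⟨l', hl'⟩ := Nat.minFac_dvd l
      set p := l.minFac with hpdef
      have hpodd : Odd p := hodd.of_dvd_nat ⟨l', hl'⟩
      have hlodd : Odd l' := hodd.of_dvd_nat ⟨p, by rw [hl', mul_comm]⟩
      have hl0 : l' ≠ 0 := by rintro rfl; omega
      have hl1 : l' ≠ 1 := by
        rintro rfl
        rw [mul_one] at hl'
        exact hlp (hl' ▸ hp)
      have hl1' : 1 < l' := by omega
      have hll : l = l' * p := by rw [mul_comm]; exact hl'
      have : Fact p.Prime := ⟨hp⟩
      have : NeZero l' := ⟨hl0⟩
      have hp3 : 3 ≤ p := by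
        obtain ⟨k, hk⟩ := hpodd
        have := hp.two_le
        omega
      have hF : 3 ≤ Fintype.card (ZMod p) := by rwa [ZMod.card]
      have hb0 : 0 < b := by
        rcases Nat.eq_zero_or_pos b with h | h
        · rw [h, zero_mul] at hbl; omega
        · exact h
      let ε : Fin (b * l') ≃ Fin b × ZMod l' := Fintype.equivOfCardEq (by
        rw [Fintype.card_fin, Fintype.card_prod, Fintype.card_fin, ZMod.card])
      let D : ZMod p × ZMod l' ≃ ZMod l := Equiv.ofBijective _ (mix_bij hll)
      let f : Fin (b * l') × ZMod p ↪ Fin n :=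
        ⟨fun q => e ((ε q.1).1, D (q.2, (ε q.1).2)), by
          rintro ⟨i, u⟩ ⟨i', u'⟩ h
          have h1 := e.injective h
          simp only [Prod.mk.injEq] at h1
          have h2 := D.injective h1.2
          simp only [Prod.mk.injEq] at h2
          have h3 : ε i = ε i' := Prod.ext h1.1 h2.2
          rw [ε.injective h3, h2.1]⟩
      have hf : ∀ i u, f (i, u) = e ((ε i).1, D (u, (ε i).2)) := fun i u => rfl
      have hfs : ∀ y, ∃ i u, f (i, u) = y := by
        intro y
        obtain ⟨⟨j, x⟩, rfl⟩ := e.surjective y
        obtain ⟨⟨u, v⟩, rfl⟩ := D.surjective x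
        refine ⟨ε.symm (j, v), u, ?_⟩
        rw [hf, Equiv.apply_symm_apply]
      let ρ : Perm (Fin (b * l')) := (ε.trans ((Equiv.refl (Fin b)).prodCongr
        (Equiv.addRight (1 : ZMod l')))).trans ε.symm
      have hρ1 : ∀ i, ε (ρ i) = ((ε i).1, (ε i).2 + 1) := by
        intro i
        change ε (ε.symm (((Equiv.refl (Fin b)).prodCongr (Equiv.addRight (1 : ZMod l'))) (ε i))) = _
        rw [Equiv.apply_symm_apply]
        rfl
      set y := viaEmbeddingHom f (sh (ZMod p) ρ) with hy
      have hρk : ∀ (k : ℕ) i, ε ((ρ ^ k) i) = ((ε i).1, (ε i).2 + k) := by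
        intro k
        induction k with
        | zero => intro i; simp
        | succ k ih =>
          intro i
          rw [pow_succ', Perm.mul_apply, hρ1, ih]
          simp only [Nat.cast_add, Nat.cast_one, add_assoc]
      have hρl : ρ ^ l' = 1 := by
        ext1 i
        apply ε.injective
        rw [hρk, ZMod.natCast_self, add_zero]
        rfl
      have hy1 : y ^ l' = 1 := by
        rw [hy, ← map_pow, sh_pow, hρl, sh_one, map_one]
      have hySemi : Semi l' y := by
        refine ⟨hy1, fun k hk0 hkl x => ?_⟩
        obtain ⟨i, u, rfl⟩ := hfs x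
        rw [hy, ← map_pow, sh_pow, viaEmb_apply, sh_apply]
        intro h
        have h1 := f.injective h
        simp only [Prod.mk.injEq, and_true] at h1
        have h2 := congrArg ε h1
        rw [hρk] at h2
        have h3 := congrArg Prod.snd h2
        simp only [add_eq_left] at h3
        rw [ZMod.natCast_eq_zero_iff] at h3
        exact absurd (Nat.le_of_dvd hk0 h3) (by omega)
      have hys : Perm.sign y = 1 := sign_odd_pow hlodd hy1
      have hρ : ∀ i, ρ i ≠ i := by
        intro i h
        have h1 := congrArg ε h
        rw [hρ1] at h1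
        have h2 := congrArg Prod.snd h1
        simp only [add_eq_left] at h2
        have : Fact (1 < l') := ⟨hl1'⟩
        exact one_ne_zero h2
      let c : Fin (b * l') → ZMod p := fun i => if (ε i).2 = 0 then 1 else 0
      have hgc : g = viaEmbeddingHom f (Pool.Agent.H302R2.trans (b * l') (ZMod p)
          (Multiplicative.ofAdd c)) * y := by
        ext1 x
        obtain ⟨i, u, rfl⟩ := hfs x
        rw [Perm.mul_apply, hy, viaEmb_apply, sh_apply, viaEmb_apply, hf, he]
        change e ((ε i).1, mix p l' l (u, (ε i).2) + 1) = f (ρ i, u + c (ρ i))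
        rw [hf, mix_succ hll hl1']
        change _ = e ((ε (ρ i)).1, mix p l' l (u + c (ρ i), (ε (ρ i)).2))
        simp only [c, hρ1]
      have key := trans_coset hθ (r := r) hF f (fun a => prime_value hn hθ hD hr hrn hpodd
        (by nlinarith) (by rw [mul_assoc, ← hll]; exact hbl) hF f a) ρ hρ
        (by rw [mem_alternatingGroup]; exact hys) c
      rw [hgc, key]
      exact ih l' (by rw [hll]; nlinarith) hl1' hlodd y hySemi
end value

end Pool.Agent.U143.RG
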