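import Mathlib
import Pool.Agent.U93.Sharp

/-!
# Functions with nonnegative multiplicities on solvable subgroups: alternating groups

The proofs of `Pool/Agent/H302R2/SymA.lean`, `SymB.lean`, `SymC.lean` for Heilbronn functions use only
solvable subgroups, with one exception, the cycles of composite length, which is treated here with a
group `C_b ≀ D_a`.
-/

set_option autoImplicit false
set_option linter.unusedSectionVars false

namespace Pool.Agent.U143.RG

open Equiv Equiv.Perm Pool.Agent.H302R3

section inK

variable {α : Type*} [Fintype α] [DecidableEq α]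

/-- membership in the kernel of `θ` -/
def InK (θ : alternatingGroup α → ℂ) (g : Perm α) : Prop :=
  ∃ h : g ∈ alternatingGroup α, θ ⟨g, h⟩ = θ 1

variable {θ : alternatingGroup α → ℂ}

lemma InK.sign {g : Perm α} (h : InK θ g) : sign g = 1 := mem_alternatingGroup.mp h.1

lemma InK.one : InK θ 1 := ⟨one_mem _, rfl⟩

lemma InK.mul (hθ : IsSolHeilbronn θ) {x y : Perm α} (hx : InK θ x) (hy : InK θ y)
    (hxy : x * y = y * x) : InK θ (x * y) := by
  obtain ⟨h1, h2⟩ := hx
  obtain ⟨h3, h4⟩ := hy
  refine ⟨mul_mem h1 h3, ?_⟩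
  have := hθ.mul_of_comm (x := ⟨x, h1⟩) (y := ⟨y, h3⟩) (Subtype.ext hxy) h4
  rw [← h2, ← this]; rfl

lemma InK.conj (hθ : IsSolHeilbronn θ) {x c : Perm α} (hx : InK θ x) (hc : Perm.sign c = 1) :
    InK θ (c * x * c⁻¹) := by
  obtain ⟨h1, h2⟩ := hx
  have hc' : c ∈ alternatingGroup α := mem_alternatingGroup.mpr hc
  refine ⟨mul_mem (mul_mem hc' h1) (inv_mem hc'), ?_⟩
  have := hθ.conj ⟨x, h1⟩ ⟨c, hc'⟩
  rw [h2] at this
  rw [← this]; rfl

lemma InK.mul_invol (hθ : IsSolHeilbronn θ) {x y : Perm α} (hx : InK θ x) (hy : InK θ y)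
    (hx2 : x * x = 1) (hy2 : y * y = 1) : InK θ (x * y) := by
  obtain ⟨h1, h2⟩ := hx
  obtain ⟨h3, h4⟩ := hy
  refine ⟨mul_mem h1 h3, ?_⟩
  have := hθ.mul_of_invol (x := ⟨x, h1⟩) (y := ⟨y, h3⟩) (Subtype.ext hx2) (Subtype.ext hy2) h2 h4
  rw [← this]; rfl

/-- Kernel lemma transported to permutations, with a general linear character -/
lemma InK.kernel (hθ : IsSolHeilbronn θ) {E : Type*} [Group E] [Finite E]
    (hE : Group.IsSolvable E) (φ : E →* Perm α) (hφ : ∀ e, Perm.sign (φ e) = 1) (χ : E →* ℂˣ)
    {e₀ : E} (he₀ : χ e₀ ≠ 1) (h : ∀ e, χ e ≠ 1 → InK θ (φ e)) (e : E) : InK θ (φ e) := by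
  let φ' : E →* alternatingGroup α :=
    φ.codRestrict (alternatingGroup α) (fun e => mem_alternatingGroup.mpr (hφ e))
  refine ⟨mem_alternatingGroup.mpr (hφ e), ?_⟩
  exact hθ.kernel_lemma hE φ' χ he₀ (fun e he => (h e he).2) e

/-- one even involution in the kernel gives all products of two disjoint transpositions -/
lemma InK.double_swap_of_invol (hθ : IsSolHeilbronn θ) {x : Perm α} (hx : InK θ x) (hx2 : x * x = 1)
    (hx1 : x ≠ 1) :
    ∃ a b c d : α, a ≠ b ∧ a ≠ c ∧ a ≠ d ∧ b ≠ c ∧ b ≠ d ∧ c ≠ d ∧
      InK θ (swap a d * swap b c) := by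
  classical
  have hinv : ∀ y, x (x y) = y := fun y => by
    rw [← Perm.mul_apply, hx2, Perm.one_apply]
  obtain ⟨a, ha⟩ : ∃ a, x a ≠ a := by
    by_contra hcon
    push Not at hcon
    exact hx1 (Equiv.ext hcon)
  obtain ⟨c, hc, hca, hcb⟩ : ∃ c, x c ≠ c ∧ c ≠ a ∧ c ≠ x a := by
    by_contra hcon
    push Not at hcon
    have hx' : x = swap a (x a) := by
      ext y
      by_cases hya : y = a
      · rw [hya, swap_apply_left]
      · by_cases hyb : y = x a
        · rw [hyb, swap_apply_right, hinv]
        · rw [swap_apply_of_ne_of_ne hya hyb]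
          by_contra hy
          exact hyb (hcon y hy hya)
    have h1 := hx.sign
    rw [hx', sign_swap ha.symm] at h1
    exact absurd h1 (by decide)
  set b := x a with hb
  set d := x c with hd
  have hab : a ≠ b := ha.symm
  have hcd : c ≠ d := hc.symm
  have had : a ≠ d := fun h => hcb (by rw [hb, h, hd, hinv])
  have hbd : b ≠ d := fun h => hca (x.injective (by rw [← hd, ← h]))
  have hxb : x b = a := hinv a
  have hxd : x d = c := hinv c
  set c3 := swap b c * swap c d with hc3
  have hc3s : Perm.sign c3 = 1 := by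
    rw [hc3, Perm.sign_mul, sign_swap hcb.symm, sign_swap hcd]; rfl
  have e1 : c3 a = a := by
    rw [hc3, Perm.mul_apply, swap_apply_of_ne_of_ne hca.symm had, swap_apply_of_ne_of_ne hab hca.symm]
  have e2 : c3 b = c := by
    rw [hc3, Perm.mul_apply, swap_apply_of_ne_of_ne hcb.symm hbd, swap_apply_left]
  have e3 : c3 c = d := by
    rw [hc3, Perm.mul_apply, swap_apply_left, swap_apply_of_ne_of_ne hbd.symm hcd.symm]
  have e4 : c3 d = b := by
    rw [hc3, Perm.mul_apply, swap_apply_right, swap_apply_right]
  have e5 : ∀ z, z ≠ b → z ≠ c → z ≠ d → c3 z = z := by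
    intro z h1 h2 h3
    rw [hc3, Perm.mul_apply, swap_apply_of_ne_of_ne h2 h3, swap_apply_of_ne_of_ne h1 h2]
  set y := c3 * x * c3⁻¹ with hy
  have hyK : InK θ y := hx.conj hθ hc3s
  have f1 : y a = c := by
    rw [hy, Perm.mul_apply, Perm.mul_apply, (inv_eq_iff_eq.mpr e1.symm), ← hb, e2]
  have f2 : y b = d := by
    rw [hy, Perm.mul_apply, Perm.mul_apply, (inv_eq_iff_eq.mpr e4.symm), hxd, e3]
  have f3 : y c = a := by
    rw [hy, Perm.mul_apply, Perm.mul_apply, (inv_eq_iff_eq.mpr e2.symm), hxb, e1]
  have f4 : y d = b := by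
    rw [hy, Perm.mul_apply, Perm.mul_apply, (inv_eq_iff_eq.mpr e3.symm), ← hd, e4]
  have f5 : ∀ z, z ≠ a → z ≠ b → z ≠ c → z ≠ d → y z = x z := by
    intro z h1 h2 h3 h4
    rw [hy, Perm.mul_apply, Perm.mul_apply, (inv_eq_iff_eq.mpr (e5 z h2 h3 h4).symm)]
    apply e5
    · intro h; apply h1; rw [← hxb, ← h, hinv]
    · intro h; apply h4; rw [hd, ← h, hinv]
    · intro h; apply h3; rw [← hxd, ← h, hinv]
  have hkey : ∀ z, x (y z) = (swap a d * swap b c) z := by
    intro z
    by_cases h1 : z = a
    · rw [h1, f1, Perm.mul_apply, swap_apply_of_ne_of_ne hab hca.symm, swap_apply_left]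
    by_cases h2 : z = b
    · rw [h2, f2, hxd, Perm.mul_apply, swap_apply_left, swap_apply_of_ne_of_ne hca hcd]
    by_cases h3 : z = c
    · rw [h3, f3, Perm.mul_apply, swap_apply_right, swap_apply_of_ne_of_ne hab.symm hbd]
    by_cases h4 : z = d
    · rw [h4, f4, hxb, Perm.mul_apply, swap_apply_of_ne_of_ne hbd.symm hcd.symm, swap_apply_right]
    rw [f5 z h1 h2 h3 h4, hinv, Perm.mul_apply, swap_apply_of_ne_of_ne h2 h3,
      swap_apply_of_ne_of_ne h1 h4]
  have hkey2 : ∀ z, y (x z) = x (y z) := by
    intro z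
    by_cases h1 : z = a
    · rw [h1, f1, ← hb, f2]
    by_cases h2 : z = b
    · rw [h2, f2, hxd, hxb, f1]
    by_cases h3 : z = c
    · rw [h3, f3, ← hd, f4]
    by_cases h4 : z = d
    · rw [h4, f4, hxb, hxd, f3]
    rw [f5 z h1 h2 h3 h4, hinv, f5 (x z), hinv]
    · intro h; apply h2; rw [hb, ← h, hinv]
    · intro h; apply h1; rw [← hxb, ← h, hinv]
    · intro h; apply h4; rw [hd, ← h, hinv]
    · intro h; apply h3; rw [← hxd, ← h, hinv]
  refine ⟨a, b, c, d, hab, hca.symm, had, hcb.symm, hbd, hcd, ?_⟩
  have h1 : x * y = swap a d * swap b c := Equiv.ext hkey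
  rw [← h1]
  exact hx.mul hθ hyK (Equiv.ext fun z => (hkey2 z).symm)

/-- all double transpositions are in the kernel -/
lemma InK.double_swap (hθ : IsSolHeilbronn θ) {x : Perm α} (hx : InK θ x) (hx2 : x * x = 1)
    (hx1 : x ≠ 1) {a b c d : α} (hab : a ≠ b) (hac : a ≠ c) (had : a ≠ d)
    (hbc : b ≠ c) (hbd : b ≠ d) (hcd : c ≠ d) : InK θ (swap a b * swap c d) := by
  obtain ⟨a', b', c', d', h1, h2, h3, h4, h5, h6, hK⟩ := hx.double_swap_of_invol hθ hx2 hx1
  have hconj : IsConj (swap a' d' * swap b' c') (swap a b * swap c d) := by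
    rw [isConj_iff_cycleType_eq, Pool.Agent.H302R2.cycleType_double_swap h3 h1 h2 h5.symm h6.symm h4,
      Pool.Agent.H302R2.cycleType_double_swap hab hac had hbc hbd hcd]
  obtain ⟨g, hg⟩ := isConj_iff.mp hconj
  rcases Int.units_eq_one_or (Perm.sign g) with hs | hs
  · rw [← hg]; exact hK.conj hθ hs
  · -- multiply by swap a' d'
    have hs' : Perm.sign (g * swap a' d') = 1 := by
      rw [Perm.sign_mul, hs, sign_swap h3]; rfl
    have hcomm : swap a' d' * (swap a' d' * swap b' c') * (swap a' d')⁻¹
        = swap a' d' * swap b' c' := by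
      have hdis : Disjoint (swap a' d') (swap b' c') := by
        rw [disjoint_iff_disjoint_support, support_swap h3, support_swap h4]
        simp only [Finset.disjoint_insert_left, Finset.mem_insert, Finset.mem_singleton,
          Finset.disjoint_singleton_left, not_or]
        exact ⟨⟨h1, h2⟩, ⟨h5.symm, h6.symm⟩⟩
      rw [mul_assoc, mul_assoc, ← hdis.commute.inv_left.eq, ← mul_assoc (swap a' d') (swap a' d')⁻¹,
        mul_inv_cancel, one_mul]
    have : (g * swap a' d') * (swap a' d' * swap b' c') * (g * swap a' d')⁻¹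
        = swap a b * swap c d := by
      rw [← hg, mul_inv_rev]
      conv_rhs => rw [← hcomm]
      group
    rw [← this]; exact hK.conj hθ hs'

end inK

section inK

variable {α : Type*} [Fintype α] [DecidableEq α] {θ : alternatingGroup α → ℂ}

/-- the kernel contains all products of two disjoint transpositions -/
def HasDoubleSwaps (θ : alternatingGroup α → ℂ) : Prop :=
  ∀ a b c d : α, a ≠ b → a ≠ c → a ≠ d → b ≠ c → b ≠ d → c ≠ d →
    InK θ (swap a b * swap c d)

lemma InK.of_invol (hθ : IsSolHeilbronn θ) (hD : HasDoubleSwaps θ) :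
    ∀ (N : ℕ) (z : Perm α), z.support.card = N → z * z = 1 → Perm.sign z = 1 → InK θ z := by
  classical
  intro N
  induction N using Nat.strong_induction_on with
  | _ N ih =>
    intro z hzN hz2 hzs
    by_cases hz1 : z = 1
    · rw [hz1]; exact InK.one
    have hinv : ∀ y, z (z y) = y := fun y => by
      rw [← Perm.mul_apply, hz2, Perm.one_apply]
    obtain ⟨a, ha⟩ : ∃ a, z a ≠ a := by
      by_contra hcon
      push Not at hcon
      exact hz1 (Equiv.ext hcon)
    obtain ⟨c, hc, hca, hcb⟩ : ∃ c, z c ≠ c ∧ c ≠ a ∧ c ≠ z a := by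
      by_contra hcon
      push Not at hcon
      have hx' : z = swap a (z a) := by
        ext y
        by_cases hya : y = a
        · rw [hya, swap_apply_left]
        · by_cases hyb : y = z a
          · rw [hyb, swap_apply_right, hinv]
          · rw [swap_apply_of_ne_of_ne hya hyb]
            by_contra hy
            exact hyb (hcon y hy hya)
      rw [hx', sign_swap ha.symm] at hzs
      exact absurd hzs (by decide)
    set b := z a with hb
    set d := z c with hd
    have hab : a ≠ b := ha.symm
    have hcd : c ≠ d := hc.symm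
    have had : a ≠ d := fun h => hcb (by rw [hb, h, hd, hinv])
    have hbd : b ≠ d := fun h => hca (z.injective (by rw [← hd, ← h]))
    have hzb : z b = a := hinv a
    have hzd : z d = c := hinv c
    set t := swap a b * swap c d with ht
    have t1 : t a = b := by
      rw [ht, Perm.mul_apply, swap_apply_of_ne_of_ne hca.symm had, swap_apply_left]
    have t2 : t b = a := by
      rw [ht, Perm.mul_apply, swap_apply_of_ne_of_ne hcb.symm hbd, swap_apply_right]
    have t3 : t c = d := by
      rw [ht, Perm.mul_apply, swap_apply_left, swap_apply_of_ne_of_ne had.symm hbd.symm]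
    have t4 : t d = c := by
      rw [ht, Perm.mul_apply, swap_apply_right, swap_apply_of_ne_of_ne hca hcb]
    have t5 : ∀ y, y ≠ a → y ≠ b → y ≠ c → y ≠ d → t y = y := by
      intro y h1 h2 h3 h4
      rw [ht, Perm.mul_apply, swap_apply_of_ne_of_ne h3 h4, swap_apply_of_ne_of_ne h1 h2]
    have ht2 : t * t = 1 := by
      ext y
      rw [Perm.mul_apply, Perm.one_apply]
      by_cases h1 : y = a
      · rw [h1, t1, t2]
      by_cases h2 : y = b
      · rw [h2, t2, t1]
      by_cases h3 : y = c
      · rw [h3, t3, t4]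
      by_cases h4 : y = d
      · rw [h4, t4, t3]
      rw [t5 y h1 h2 h3 h4, t5 y h1 h2 h3 h4]
    have htz : ∀ y, t (z y) = z (t y) := by
      intro y
      by_cases h1 : y = a
      · rw [h1, t1, ← hb, t2, hzb]
      by_cases h2 : y = b
      · rw [h2, t2, hzb, t1]
      by_cases h3 : y = c
      · rw [h3, t3, ← hd, t4, hzd]
      by_cases h4 : y = d
      · rw [h4, t4, hzd, t3]
      rw [t5 y h1 h2 h3 h4, t5 (z y)]
      · intro h; apply h2; rw [hb, ← h, hinv]
      · intro h; apply h1; rw [← hzb, ← h, hinv]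
      · intro h; apply h4; rw [hd, ← h, hinv]
      · intro h; apply h3; rw [← hzd, ← h, hinv]
    have hcomm : t * z = z * t := Equiv.ext htz
    have hts : Perm.sign t = 1 := by
      rw [ht, Perm.sign_mul, sign_swap hab, sign_swap hcd]; rfl
    have hz'2 : (t * z) * (t * z) = 1 := by
      calc (t * z) * (t * z) = t * (z * t) * z := by group
        _ = t * (t * z) * z := by rw [hcomm]
        _ = (t * t) * (z * z) := by group
        _ = 1 := by rw [ht2, hz2, one_mul]
    have hz's : Perm.sign (t * z) = 1 := by rw [Perm.sign_mul, hts, hzs, one_mul]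
    have hlt : (t * z).support.card < z.support.card := by
      apply Finset.card_lt_card
      rw [Finset.ssubset_iff_of_subset]
      · refine ⟨a, mem_support.mpr ha, ?_⟩
        rw [notMem_support, Perm.mul_apply, ← hb, t2]
      · intro y hy
        rw [mem_support] at hy ⊢
        intro hzy
        apply hy
        rw [Perm.mul_apply, hzy]
        apply t5
        · rintro rfl; exact ha hzy
        · intro h; rw [h, hzb] at hzy; exact hab hzy
        · rintro rfl; exact hc hzy
        · intro h; rw [h, hzd] at hzy; exact hcd hzy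
    have h1 := ih _ (hzN ▸ hlt) (t * z) rfl hz'2 hz's
    have h2 : InK θ t := hD a b c d hab hca.symm had hcb.symm hbd hcd
    have h3 := h2.mul hθ h1 (by
      calc t * (t * z) = t * (z * t) := by rw [hcomm]
        _ = (t * z) * t := by group)
    have h4 : t * (t * z) = z := by rw [← mul_assoc, ht2, one_mul]
    rwa [h4] at h3

lemma InK.of_two_invol (hθ : IsSolHeilbronn θ) (hD : HasDoubleSwaps θ) {s g : Perm α}
    (hs : s * s = 1) (hsg : (s * g) * (s * g) = 1) (hss : Perm.sign s = 1)
    (hsg' : Perm.sign g = 1) : InK θ g := by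
  have h1 := InK.of_invol hθ hD _ s rfl hs hss
  have h2 := InK.of_invol hθ hD _ (s * g) rfl hsg (by rw [Perm.sign_mul, hss, hsg', one_mul])
  have h3 := h1.mul_invol hθ h2 hs hsg
  rwa [← mul_assoc, hs, one_mul] at h3

/-- odd-length cycles missing two points -/
lemma InK.of_odd_cycle (hθ : IsSolHeilbronn θ) (hD : HasDoubleSwaps θ) {c : Perm α}
    (hc : c.IsCycle) (hcs : Perm.sign c = 1) (hcard : c.support.card + 2 ≤ Fintype.card α) :
    InK θ c := by
  classical
  obtain ⟨s, hs2, hsc, hsupp⟩ := Pool.Agent.H302R2.exists_reflection hc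
  have hsc2 : (s * c) * (s * c) = 1 := by
    calc (s * c) * (s * c) = (s * c * s) * c := by group
      _ = 1 := by rw [hsc, inv_mul_cancel]
  rcases Int.units_eq_one_or (Perm.sign s) with hss | hss
  · exact InK.of_two_invol hθ hD hs2 hsc2 hss hcs
  · obtain ⟨a, ha, b, hb, hab⟩ : ∃ a ∈ c.supportᶜ, ∃ b ∈ c.supportᶜ, a ≠ b := by
      apply Finset.one_lt_card.mp
      rw [Finset.card_compl]; omega
    rw [Finset.mem_compl] at ha hb
    set τ := swap a b with hτ
    have hdτc : Disjoint τ c := by
      rw [disjoint_iff_disjoint_support, hτ, support_swap hab]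
      simp only [Finset.disjoint_insert_left, Finset.disjoint_singleton_left]
      exact ⟨ha, hb⟩
    have hdτs : Disjoint τ s := by
      rw [disjoint_iff_disjoint_support] at hdτc ⊢
      exact hdτc.mono_right hsupp
    have hτ2 : τ * τ = 1 := swap_mul_self a b
    have h1 : (τ * s) * (τ * s) = 1 := by
      calc (τ * s) * (τ * s) = τ * (s * τ) * s := by group
        _ = τ * (τ * s) * s := by rw [hdτs.commute.eq]
        _ = (τ * τ) * (s * s) := by group
        _ = 1 := by rw [hτ2, hs2, one_mul]
    have hcom : Commute τ (s * c) := hdτs.commute.mul_right hdτc.commute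
    have h2 : (τ * s * c) * (τ * s * c) = 1 := by
      calc (τ * s * c) * (τ * s * c) = τ * ((s * c) * τ) * (s * c) := by group
        _ = τ * (τ * (s * c)) * (s * c) := by rw [hcom.eq]
        _ = (τ * τ) * ((s * c) * (s * c)) := by group
        _ = 1 := by rw [hτ2, hsc2, one_mul]
    refine InK.of_two_invol hθ hD h1 h2 ?_ hcs
    rw [Perm.sign_mul, hτ, sign_swap hab, hss]; rfl

/-- products of two disjoint even-length cycles -/
lemma InK.of_even_cycles (hθ : IsSolHeilbronn θ) (hD : HasDoubleSwaps θ) {c c' : Perm α}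
    (hc : c.IsCycle) (hcs : Perm.sign c = -1) (hc' : c'.IsCycle) (hcs' : Perm.sign c' = -1)
    (hdis : Disjoint c c') : InK θ (c * c') := by
  classical
  obtain ⟨s, hs2, hsc, hsupp⟩ := Pool.Agent.H302R2.exists_reflection hc
  obtain ⟨t, ht2, htc, htsupp, hts⟩ : ∃ t : Perm α, t * t = 1 ∧ t * c' * t = c'⁻¹ ∧
      t.support ⊆ c'.support ∧ Perm.sign t = Perm.sign s := by
    obtain ⟨s', hs2', hsc', hsupp'⟩ := Pool.Agent.H302R2.exists_reflection hc'
    by_cases hss : Perm.sign s' = Perm.sign s
    · exact ⟨s', hs2', hsc', hsupp', hss⟩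
    · refine ⟨s' * c', ?_, ?_, ?_, ?_⟩
      · calc (s' * c') * (s' * c') = (s' * c' * s') * c' := by group
          _ = 1 := by rw [hsc', inv_mul_cancel]
      · have h1 : s' * c' * c' * s' = c'⁻¹ * c'⁻¹ := by
          calc s' * c' * c' * s' = s' * c' * (s' * s') * c' * s' := by rw [hs2']; group
            _ = (s' * c' * s') * (s' * c' * s') := by group
            _ = c'⁻¹ * c'⁻¹ := by rw [hsc']
        calc s' * c' * c' * (s' * c') = (s' * c' * c' * s') * c' := by group
          _ = c'⁻¹ := by rw [h1]; group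
      · refine (support_mul_le s' c').trans ?_
        exact Finset.union_subset hsupp' (le_refl _)
      · rw [Perm.sign_mul, hcs']
        rcases Int.units_eq_one_or (Perm.sign s') with h1 | h1
        · rcases Int.units_eq_one_or (Perm.sign s) with h2 | h2
          · exact absurd (h1.trans h2.symm) hss
          · rw [h1, h2]; rfl
        · rcases Int.units_eq_one_or (Perm.sign s) with h2 | h2
          · rw [h1, h2]; rfl
          · exact absurd (h1.trans h2.symm) hss
  have hd1 : Disjoint s t := by
    rw [disjoint_iff_disjoint_support] at hdis ⊢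
    exact (hdis.mono_left hsupp).mono_right htsupp
  have hd2 : Disjoint t c := by
    rw [disjoint_iff_disjoint_support] at hdis ⊢
    exact (hdis.symm.mono_left htsupp)
  have hd3 : Disjoint s c' := by
    rw [disjoint_iff_disjoint_support] at hdis ⊢
    exact (hdis.mono_left hsupp)
  have hsc2 : (s * c) * (s * c) = 1 := by
    calc (s * c) * (s * c) = (s * c * s) * c := by group
      _ = 1 := by rw [hsc, inv_mul_cancel]
  have htc2 : (t * c') * (t * c') = 1 := by
    calc (t * c') * (t * c') = (t * c' * t) * c' := by group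
      _ = 1 := by rw [htc, inv_mul_cancel]
  have h1 : (s * t) * (s * t) = 1 := by
    calc (s * t) * (s * t) = s * (t * s) * t := by group
      _ = s * (s * t) * t := by rw [hd1.commute.eq]
      _ = (s * s) * (t * t) := by group
      _ = 1 := by rw [hs2, ht2, one_mul]
  have h2 : s * t * (c * c') = (s * c) * (t * c') := by
    calc s * t * (c * c') = s * (t * c) * c' := by group
      _ = s * (c * t) * c' := by rw [hd2.commute.eq]
      _ = (s * c) * (t * c') := by group
  have hcom : Commute (s * c) (t * c') := by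
    have a1 : Commute s t := hd1.commute
    have a2 : Commute s c' := hd3.commute
    have a3 : Commute c t := hd2.commute.symm
    have a4 : Commute c c' := hdis.commute
    exact (a1.mul_right a2).mul_left (a3.mul_right a4)
  have h3 : (s * t * (c * c')) * (s * t * (c * c')) = 1 := by
    rw [h2]
    calc (s * c) * (t * c') * ((s * c) * (t * c'))
        = (s * c) * ((t * c') * (s * c)) * (t * c') := by group
      _ = (s * c) * ((s * c) * (t * c')) * (t * c') := by rw [hcom.eq]
      _ = ((s * c) * (s * c)) * ((t * c') * (t * c')) := by group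
      _ = 1 := by rw [hsc2, htc2, one_mul]
  refine InK.of_two_invol hθ hD h1 h3 ?_ ?_
  · rw [Perm.sign_mul, hts]; exact Int.units_mul_self _
  · rw [Perm.sign_mul, hcs, hcs']; rfl

lemma InK.of_good (hθ : IsSolHeilbronn θ) (hD : HasDoubleSwaps θ) :
    ∀ (N : ℕ) (g : Perm α), g.cycleFactorsFinset.card = N → Perm.sign g = 1 →
      (∀ c ∈ g.cycleFactorsFinset, c.support.card + 2 ≤ Fintype.card α) → InK θ g := by
  classical
  intro N
  induction N using Nat.strong_induction_on with
  | _ N ih =>
    intro g hgN hgs hg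
    by_cases hodd : ∃ c ∈ g.cycleFactorsFinset, Perm.sign c = 1
    · obtain ⟨c, hc, hcs⟩ := hodd
      have hcyc : c.IsCycle := (mem_cycleFactorsFinset_iff.mp hc).1
      have h1 : InK θ c := InK.of_odd_cycle hθ hD hcyc hcs (hg c hc)
      have hdis := disjoint_mul_inv_of_mem_cycleFactorsFinset hc
      have hsd := cycleFactorsFinset_mul_inv_mem_eq_sdiff hc
      have h2 : InK θ (g * c⁻¹) := by
        refine ih _ ?_ _ rfl ?_ ?_
        · rw [hsd, ← hgN]
          exact Finset.card_lt_card (Finset.sdiff_ssubset (Finset.singleton_subset_iff.mpr hc)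
            (Finset.singleton_nonempty c))
        · rw [Perm.sign_mul, Perm.sign_inv, hgs, hcs, one_mul]
        · intro d hd
          rw [hsd] at hd
          exact hg d (Finset.mem_sdiff.mp hd).1
      have h3 := h2.mul hθ h1 hdis.commute.eq
      rwa [inv_mul_cancel_right] at h3
    · push Not at hodd
      by_cases hg1 : g = 1
      · rw [hg1]; exact InK.one
      have hne : g.cycleFactorsFinset.Nonempty := by
        rw [Finset.nonempty_iff_ne_empty, ne_eq, cycleFactorsFinset_eq_empty_iff]; exact hg1
      obtain ⟨c, hc⟩ := hne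
      have hcyc : c.IsCycle := (mem_cycleFactorsFinset_iff.mp hc).1
      have hcs : Perm.sign c = -1 := (Int.units_eq_one_or _).resolve_left (hodd c hc)
      have hdis := disjoint_mul_inv_of_mem_cycleFactorsFinset hc
      have hsd := cycleFactorsFinset_mul_inv_mem_eq_sdiff hc
      set g' := g * c⁻¹ with hg'
      have hg's : Perm.sign g' = -1 := by
        rw [hg', Perm.sign_mul, Perm.sign_inv, hgs, hcs, one_mul]
      have hg'1 : g' ≠ 1 := by
        intro h; rw [h, Perm.sign_one] at hg's; exact absurd hg's (by decide)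
      have hne' : g'.cycleFactorsFinset.Nonempty := by
        rw [Finset.nonempty_iff_ne_empty, ne_eq, cycleFactorsFinset_eq_empty_iff]; exact hg'1
      obtain ⟨c', hc'⟩ := hne'
      have hc'g : c' ∈ g.cycleFactorsFinset := by
        rw [hsd] at hc'; exact (Finset.mem_sdiff.mp hc').1
      have hcyc' : c'.IsCycle := (mem_cycleFactorsFinset_iff.mp hc').1
      have hcs' : Perm.sign c' = -1 := (Int.units_eq_one_or _).resolve_left (hodd c' hc'g)
      have hdis' := disjoint_mul_inv_of_mem_cycleFactorsFinset hc'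
      have hsd' := cycleFactorsFinset_mul_inv_mem_eq_sdiff hc'
      set g'' := g' * c'⁻¹ with hg''
      have hdcc : Disjoint c' c := by
        rw [disjoint_iff_disjoint_support] at hdis ⊢
        exact hdis.mono_left (mem_cycleFactorsFinset_support_le hc')
      have hdg'' : Disjoint g'' c := by
        rw [hg'']
        exact hdis.mul_left hdcc.inv_left
      have hlt1 : g''.cycleFactorsFinset.card < g'.cycleFactorsFinset.card := by
        rw [hsd']
        exact Finset.card_lt_card (Finset.sdiff_ssubset (Finset.singleton_subset_iff.mpr hc')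
          (Finset.singleton_nonempty c'))
      have hlt2 : g'.cycleFactorsFinset.card < g.cycleFactorsFinset.card := by
        rw [hsd]
        exact Finset.card_lt_card (Finset.sdiff_ssubset (Finset.singleton_subset_iff.mpr hc)
          (Finset.singleton_nonempty c))
      have h2 : InK θ g'' := by
        refine ih _ ?_ _ rfl ?_ ?_
        · rw [← hgN]; exact hlt1.trans hlt2
        · rw [hg'', Perm.sign_mul, Perm.sign_inv, hg's, hcs']; rfl
        · intro d hd
          rw [hsd'] at hd
          have := (Finset.mem_sdiff.mp hd).1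
          rw [hsd] at this
          exact hg d (Finset.mem_sdiff.mp this).1
      have h1 : InK θ (c' * c) := InK.of_even_cycles hθ hD hcyc' hcs' hcyc hcs hdcc
      have h3 := h2.mul hθ h1 (by
        have : Commute g'' (c' * c) := hdis'.commute.mul_right hdg''.commute
        exact this.eq)
      have h4 : g'' * (c' * c) = g := by rw [hg'', hg']; group
      rwa [h4] at h3

/-- every even permutation which is not a cycle of length `≥ card α - 1` is in the kernel -/
lemma InK.of_not_long (hθ : IsSolHeilbronn θ) (hD : HasDoubleSwaps θ) {g : Perm α}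
    (hgs : Perm.sign g = 1) (hg : g.IsCycle → g.support.card + 2 ≤ Fintype.card α) : InK θ g := by
  classical
  refine InK.of_good hθ hD _ g rfl hgs ?_
  intro c hc
  by_cases hgc : g = c
  · have hcyc : c.IsCycle := (mem_cycleFactorsFinset_iff.mp hc).1
    rw [← hgc]; exact hg (hgc ▸ hcyc)
  · have hdis := disjoint_mul_inv_of_mem_cycleFactorsFinset hc
    have h1 : g * c⁻¹ ≠ 1 := by
      intro h; exact hgc (mul_inv_eq_one.mp h)
    have h2 : 2 ≤ (g * c⁻¹).support.card := two_le_card_support_of_ne_one h1
    rw [disjoint_iff_disjoint_support] at hdis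
    have h3 := Finset.card_union_of_disjoint hdis
    have h4 := Finset.card_le_univ ((g * c⁻¹).support ∪ c.support)
    omega

end inK

end Pool.Agent.U143.RG
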